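import Pool.Agent.Run7.h302.PG.Pts3

/-!
# Curves of finite order with coordinates in the ring generated by gap functions and solutions of
linear differential equations
-/

set_option autoImplicit false

namespace Run7.h302.PG

open MvPolynomial Metric Set Filter Topology
open Pool.Agent.TH143 Pool.Agent.W603.BP
open Pool.Agent.TH600.LC (GapRing GapOver DFin Pfm CoefRing ent_mul ent_mul' ent_zero_of_near
  DAlg tr tr_apply tr_diff tr_dAlg tr_coef gapOver_translate dAlg_of_polODE differentiable_eval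
  exists_repr_pair HadamardGaps gapOver_diff)

variable {N : ℕ} {ι : Type}

/-- A nonconstant holomorphic map from the line to the variety `F = 0`, `Q ≠ 0`, with homogeneous
coordinates without common zeros in the ring `R`, such that the value of `Q` along the curve has
finite order. -/
structure OrdEnt (R : Subalgebra ℂ (ℂ → ℂ)) (F : ι → MvPolynomial (Fin (N + 1)) ℂ)
    (Q : MvPolynomial (Fin (N + 1)) ℂ) (f : ℂ → Fin (N + 1) → ℂ) : Prop where
  an : ∀ j, Differentiable ℂ (fun z => f z j)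
  ne : ∀ z : ℂ, f z ≠ 0
  on : ∀ z : ℂ, On F Q (f z)
  nonconst : ∃ z w j k, f z j * f w k ≠ f z k * f w j
  coord : OrdIn R Q f

theorem exists_avoid (a b c : ℂ) : ∃ x : ℂ, a + x ≠ 0 ∧ b + x ≠ 0 ∧ c + x ≠ 0 := by
  obtain ⟨x, hx⟩ := Set.Infinite.exists_notMem_finset (s := (Set.univ : Set ℂ)) Set.infinite_univ
    {-a, -b, -c}
  have h2 := hx.2
  simp only [Finset.mem_insert, Finset.mem_singleton, not_or] at h2
  obtain ⟨h3, h4, h5⟩ := h2
  exact ⟨x, fun h => h3 (by linear_combination h), fun h => h4 (by linear_combination h),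
    fun h => h5 (by linear_combination h)⟩

/-- A point on an affine line is on the image of the multiplicative group. -/
theorem gm_of_line {F : ι → MvPolynomial (Fin (N + 1)) ℂ} {Q : MvPolynomial (Fin (N + 1)) ℂ}
    {x : Fin (N + 1) → ℂ} (hx : OnLine F Q x) : ∃ P, IsGmCurve F Q P ∧ Through P x := by
  obtain ⟨P, hP, t, c, hc, h⟩ := hx
  obtain ⟨s1, s2, j, k, hst⟩ := hP.nonconst
  obtain ⟨b, h1, h2, h3⟩ := exists_avoid t s1 s2
  let P' : Fin (N + 1) → Polynomial ℂ := fun j => (P j).comp (Polynomial.X - Polynomial.C b)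
  have hP' : ∀ j τ, (P' j).eval τ = (P j).eval (τ - b) := fun j τ => by simp [P']
  refine ⟨P', ⟨fun τ _ => ?_, fun τ _ => ?_, s1 + b, s2 + b, h2, h3, j, k, ?_⟩, t + b, c, h1, hc,
    fun j => ?_⟩
  · obtain ⟨j, hj⟩ := hP.ne (τ - b)
    exact ⟨j, by rwa [hP']⟩
  · have h4 := hP.mem (τ - b)
    have h5 : (fun j => (P' j).eval τ) = fun j => (P j).eval (τ - b) := funext fun j => hP' j τ
    rw [h5]
    exact h4
  · rw [hP', hP', hP', hP', add_sub_cancel_right, add_sub_cancel_right]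
    exact hst
  · rw [hP', add_sub_cancel_right]
    exact h j

theorem through_scale {P : Fin (N + 1) → Polynomial ℂ} {x y : Fin (N + 1) → ℂ} {c : ℂ}
    (hc : c ≠ 0) (h : y = c • x) (hx : Through P x) : Through P y := by
  obtain ⟨t, c', ht, hc', h1⟩ := hx
  refine ⟨t, c' / c, ht, div_ne_zero hc' hc, fun j => ?_⟩
  rw [h1, h, Pi.smul_apply, smul_eq_mul]
  field_simp

/-- **Points of curves of finite order.** -/
theorem ord_points {F : ι → MvPolynomial (Fin (N + 1)) ℂ}
    (hF : ∀ i, ∃ d, (F i).IsHomogeneous d) {Q : MvPolynomial (Fin (N + 1)) ℂ} {e : ℕ}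
    (hQ : Q.IsHomogeneous e) (he : 0 < e) {z₀ : ℂ} {f : ℂ → Fin (N + 1) → ℂ}
    (hf : OrdEnt (GapOver DFin z₀) F Q f) :
    ∃ R : ℝ, ∀ z0 : ℂ, R < ‖z0‖ → ∀ᶠ z in 𝓝[≠] z0, ∃ P, IsGmCurve F Q P ∧ Through P (f z) := by
  obtain ⟨h, hh, hfh, ho⟩ := hf.coord
  have hc : ∀ z, ∃ c : ℂ, c ≠ 0 ∧ f z = c • h z := by
    intro z
    obtain ⟨c, hc⟩ := hfh z
    exact ⟨c, scal_ne (hf.ne z) hc, hc⟩
  have hon : ∀ z, On F Q (h z) := by
    intro z
    obtain ⟨c, hc0, hc1⟩ := hc z
    exact (on_scale hF hQ hc0 hc1).1 (hf.on z)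
  have hhne : ∀ z, h z ≠ 0 := by
    intro z h0
    obtain ⟨c, hc0, hc1⟩ := hc z
    apply hf.ne z
    rw [hc1, h0, smul_zero]
  have hhd : ∀ j, Differentiable ℂ (fun z => h z j) := fun j =>
    gapOver_diff (Y := (DFin : Set (ℂ → ℂ))) (fun u hu => hu.1) (hh j)
  have hnc : ∃ z w j k, h z j * h w k ≠ h z k * h w j := by
    obtain ⟨s, t, j, k, hst⟩ := hf.nonconst
    refine ⟨s, t, j, k, fun h0 => hst ?_⟩
    obtain ⟨c, -, hc1⟩ := hc s
    obtain ⟨c', -, hc2⟩ := hc t
    rw [hc1, hc2]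
    simp only [Pi.smul_apply, smul_eq_mul]
    linear_combination (c * c') * h0
  obtain ⟨P, hP⟩ := exp_poly (differentiable_eval hhd Q) (fun z => (hon z).2) ho
  rcases points (Y := (DFin : Set (ℂ → ℂ))) (fun u hu => hu) hF hQ hh ⟨0, hhne 0⟩
    (fun z i => (hon z).1 i) (E := fun z => Complex.exp (P.eval z)) (dfin_exp P)
    ⟨0, Complex.exp_ne_zero _⟩ hP with ⟨Λ, h1, ⟨z1, h2⟩, h3⟩ | ⟨a, u, ha, h2, h3, h4, h5⟩
  · refine ⟨0, fun z0 _ => ?_⟩
    have hΛ : Differentiable ℂ Λ := (coef_dfin (fun u hu => hu) h1).1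
    have h6 : ∀ᶠ z in 𝓝[≠] z0, Λ z ≠ 0 := by
      rcases (hΛ.analyticAt z0).eventually_eq_zero_or_eventually_ne_zero with h7 | h7
      · exact absurd (ent_zero_of_near hΛ h7 z1) h2
      · exact h7
    filter_upwards [h6] with z hz
    obtain ⟨c, hc0, hc1⟩ := hc z
    exact gm_of_line ((h3 z hz (hhne z)).scale hc0 hc1)
  · have h6 : ∀ j, (fun z => h z j) ∈ DFin := fun j =>
      dfin_div ha (hhd j) (coef_dfin (fun u hu => hu) (h2 j)) fun z => h5 he z j
    obtain ⟨R, hR⟩ := entire_main F hF Q hQ h hhd hhne hon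
      (linSys_of_polODE h hhd fun j => (h6 j).2) hnc
    refine ⟨R, fun z0 hz0 => ?_⟩
    filter_upwards [hR z0 hz0] with z hz
    obtain ⟨P, -, hP1, hP2⟩ := hz
    obtain ⟨c, hc0, hc1⟩ := hc z
    exact ⟨P, hP1, through_scale hc0 hc1 hP2⟩

theorem finOrd_exp (R : Polynomial ℂ) : FinOrd (fun z => R.eval (Complex.exp z)) := by
  set S : ℝ := ∑ k ∈ Finset.range (R.natDegree + 1), ‖R.coeff k‖ with hS
  have hS0 : 0 ≤ S := Finset.sum_nonneg fun k _ => norm_nonneg _
  refine ⟨S + R.natDegree, 1, fun z => ?_⟩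
  have h1 : ‖R.eval (Complex.exp z)‖ ≤ S * Real.exp (R.natDegree * ‖z‖) := by
    rw [Polynomial.eval_eq_sum_range, hS, Finset.sum_mul]
    refine (norm_sum_le _ _).trans (Finset.sum_le_sum fun k hk => ?_)
    rw [norm_mul, norm_pow]
    refine mul_le_mul_of_nonneg_left ?_ (norm_nonneg _)
    have h2 : ‖Complex.exp z‖ ≤ Real.exp ‖z‖ := by
      rw [Complex.norm_exp]
      exact Real.exp_le_exp.2 (Complex.re_le_norm z)
    calc ‖Complex.exp z‖ ^ k ≤ Real.exp ‖z‖ ^ k := pow_le_pow_left₀ (norm_nonneg _) h2 k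
      _ = Real.exp (k * ‖z‖) := by rw [← Real.exp_nat_mul]
      _ ≤ Real.exp (R.natDegree * ‖z‖) := by
        refine Real.exp_le_exp.2 (mul_le_mul_of_nonneg_right ?_ (norm_nonneg _))
        have h3 : k ≤ R.natDegree := Nat.lt_succ_iff.1 (Finset.mem_range.1 hk)
        exact_mod_cast h3
  refine h1.trans ?_
  have h2 : S ≤ Real.exp S := by linarith [Real.add_one_le_exp S]
  calc S * Real.exp (R.natDegree * ‖z‖) ≤ Real.exp S * Real.exp (R.natDegree * ‖z‖) :=
        mul_le_mul_of_nonneg_right h2 (Real.exp_nonneg _)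
    _ = Real.exp (S + R.natDegree * ‖z‖) := by rw [← Real.exp_add]
    _ ≤ Real.exp ((S + R.natDegree) * (1 + ‖z‖) ^ 1) := by
      refine Real.exp_le_exp.2 ?_
      have h3 : 0 ≤ S * ‖z‖ := mul_nonneg hS0 (norm_nonneg _)
      have h4 : (0 : ℝ) ≤ R.natDegree := Nat.cast_nonneg _
      rw [pow_one]
      nlinarith

theorem eval_aeval (P : Fin (N + 1) → Polynomial ℂ) (G : MvPolynomial (Fin (N + 1)) ℂ) (x : ℂ) :
    (aeval P G : Polynomial ℂ).eval x = eval (fun j => (P j).eval x) G := by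
  have h2 : (aeval P G : Polynomial ℂ).eval x
      = (Polynomial.aeval x : Polynomial ℂ →ₐ[ℂ] ℂ) (aeval P G) := by
    rw [Polynomial.coe_aeval_eq_eval]
  rw [h2, comp_aeval_apply, ← aeval_eq_eval]
  rfl

/-- a morphism from the multiplicative group gives a curve of finite order -/
theorem gm_ord (z₀ : ℂ) {F : ι → MvPolynomial (Fin (N + 1)) ℂ}
    {Q : MvPolynomial (Fin (N + 1)) ℂ} {P : Fin (N + 1) → Polynomial ℂ} (hP : IsGmCurve F Q P) :
    OrdEnt (GapOver DFin z₀) F Q (fun z j => (P j).eval (Complex.exp z)) where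
  an := fun j => (P j).differentiable.comp Complex.differentiable_exp
  ne := fun z => by
    obtain ⟨j, hj⟩ := hP.ne (Complex.exp z) (Complex.exp_ne_zero _)
    exact Function.ne_iff.mpr ⟨j, hj⟩
  on := fun z => hP.mem _ (Complex.exp_ne_zero _)
  nonconst := by
    obtain ⟨s, t, hs, ht, j, k, hst⟩ := hP.nonconst
    refine ⟨Complex.log s, Complex.log t, j, k, ?_⟩
    simp only [Complex.exp_log hs, Complex.exp_log ht]
    exact hst
  coord := by
    have h1 : (fun z : ℂ => Complex.exp z) ∈ GapOver DFin z₀ := by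
      have h2 := dfin_exp Polynomial.X
      simp only [Polynomial.eval_X] at h2
      exact Algebra.subset_adjoin (Or.inl h2)
    refine ⟨fun z j => (P j).eval (Complex.exp z), fun j => comp_mem h1 (P j),
      fun z => ⟨1, (one_smul _ _).symm⟩, ?_⟩
    have h3 : (fun z => eval (fun j => (P j).eval (Complex.exp z)) Q) =
        fun z => (aeval P Q : Polynomial ℂ).eval (Complex.exp z) := by
      funext z
      rw [eval_aeval]
    rw [h3]
    exact finOrd_exp _

/-- **The closure of the union of the curves of finite order.** -/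
theorem closure_ord {F : ι → MvPolynomial (Fin (N + 1)) ℂ}
    (hF : ∀ i, ∃ d, (F i).IsHomogeneous d) {Q : MvPolynomial (Fin (N + 1)) ℂ} {e : ℕ}
    (hQ : Q.IsHomogeneous e) (he : 0 < e) (z₀ : ℂ) {G : MvPolynomial (Fin (N + 1)) ℂ}
    (hG : ∃ d, G.IsHomogeneous d) :
    (∀ f, OrdEnt (GapOver DFin z₀) F Q f → ∀ z, eval (f z) G = 0) ↔
      ∀ P, IsGmCurve F Q P → ∀ t, t ≠ 0 → eval (fun j => (P j).eval t) G = 0 := by
  obtain ⟨d, hd⟩ := hG
  constructor
  · intro h P hP t ht
    have h1 := h _ (gm_ord z₀ hP) (Complex.log t)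
    simp only [Complex.exp_log ht] at h1
    exact h1
  · intro h f hf z
    obtain ⟨R, hloc⟩ := ord_points hF hQ he hf
    obtain ⟨z0, hz0⟩ : ∃ z0 : ℂ, R < ‖z0‖ := by
      refine ⟨((|R| + 1 : ℝ) : ℂ), ?_⟩
      rw [Complex.norm_real, Real.norm_of_nonneg (by positivity)]
      linarith [le_abs_self R]
    have h1 : ∀ᶠ z in 𝓝[≠] z0, eval (f z) G = 0 := by
      filter_upwards [hloc z0 hz0] with z hz
      obtain ⟨P, hP1, t, c, ht, hc, h2⟩ := hz
      have h3 := h P hP1 t ht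
      rw [show (fun j => (P j).eval t) = fun j => c * f z j from funext h2, eval_vec hd] at h3
      exact (mul_eq_zero.mp h3).resolve_left (pow_ne_zero _ hc)
    have han := eval_an (S := univ) (fun j z _ => (hf.an j).analyticAt z) G
    exact han.eqOn_zero_of_preconnected_of_frequently_eq_zero isPreconnected_univ
      (mem_univ z0) h1.frequently (mem_univ z)

end Run7.h302.PG
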