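import Pool.Agent.Run7.h302.PG.Pts2

/-!
# A transcendental gap function, and the closures of the unions of curves
-/

set_option autoImplicit false

namespace Run7.h302.PG

open MvPolynomial Metric Set Filter Topology
open Pool.Agent.TH143 Pool.Agent.W603.BP
open Pool.Agent.TH600.LC (GapRing GapOver DFin Pfm CoefRing ent_mul ent_mul' ent_zero_of_near
  DAlg tr tr_apply tr_diff tr_dAlg tr_coef gapOver_translate dAlg_of_polODE differentiable_eval
  exists_repr_pair HadamardGaps gapOver_diff)

/-! ### A transcendental function with gaps -/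

open Classical in
/-- the coefficients of the example -/
noncomputable def gc (n : ℕ) : ℂ := if ∃ k, n = 2 ^ k then ((n.factorial : ℕ) : ℂ)⁻¹ else 0

theorem norm_gc (n : ℕ) : ‖gc n‖ ≤ 1 / n.factorial := by
  unfold gc
  split_ifs with h
  · rw [norm_inv, Complex.norm_natCast, one_div]
  · rw [norm_zero]
    positivity

/-- the example -/
noncomputable def gapFun : ℂ → ℂ := (FormalMultilinearSeries.ofScalars ℂ gc).sum

theorem gc_radius : (FormalMultilinearSeries.ofScalars ℂ gc).radius = ⊤ := by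
  refine FormalMultilinearSeries.radius_eq_top_of_summable_norm _ fun r => ?_
  refine Summable.of_nonneg_of_le (fun n => by positivity) (fun n => ?_)
    (Real.summable_pow_div_factorial (r : ℝ))
  rw [FormalMultilinearSeries.ofScalars_norm]
  have h1 := norm_gc n
  have h2 : (0 : ℝ) ≤ (r : ℝ) ^ n := by positivity
  calc ‖gc n‖ * (r : ℝ) ^ n ≤ 1 / n.factorial * (r : ℝ) ^ n := mul_le_mul_of_nonneg_right h1 h2
    _ = (r : ℝ) ^ n / n.factorial := by ring

theorem gapFun_series : HasFPowerSeriesOnBall gapFun (FormalMultilinearSeries.ofScalars ℂ gc) 0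
    ⊤ := by
  have h := (FormalMultilinearSeries.ofScalars ℂ gc).hasFPowerSeriesOnBall (by
    rw [gc_radius]
    exact ENNReal.zero_lt_top)
  rwa [gc_radius] at h

theorem gapFun_diff : Differentiable ℂ gapFun := by
  intro z
  have h1 := gapFun_series.differentiableOn
  exact h1.differentiableAt (by
    rw [Metric.eball_top]
    exact Filter.univ_mem)

theorem gapFun_deriv (n : ℕ) : iteratedDeriv n gapFun 0 / (n.factorial : ℂ) = gc n := by
  have h1 := (gapFun_diff.analyticAt 0).hasFPowerSeriesAt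
  have h2 := h1.eq_formalMultilinearSeries gapFun_series.hasFPowerSeriesAt
  have h3 := congrArg (fun p => FormalMultilinearSeries.coeff p n) h2
  simp only [FormalMultilinearSeries.coeff_ofScalars] at h3
  exact h3

theorem fact_ne (n : ℕ) : (n.factorial : ℂ) ≠ 0 := by
  exact_mod_cast n.factorial_ne_zero

theorem gapFun_gaps (z₀ : ℂ) : HadamardGaps z₀ (fun z => gapFun (z - z₀)) := by
  refine ⟨gapFun_diff.comp (differentiable_id.sub_const z₀), 2, fun j => 2 ^ j, by norm_num,
    fun j => by push_cast; rw [pow_succ]; linarith, fun k hk => ?_⟩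
  rw [iteratedDeriv_comp_sub_const] at hk
  beta_reduce at hk
  rw [sub_self] at hk
  by_contra hne
  apply hk
  have h1 := gapFun_deriv k
  rw [gc, if_neg hne, div_eq_zero_iff, or_iff_left (fact_ne k)] at h1
  exact h1

theorem iter_poly (P : Polynomial ℂ) (n : ℕ) : iteratedDeriv n (fun z => P.eval z) =
    fun z => (Polynomial.derivative^[n] P).eval z := by
  induction n with
  | zero => simp
  | succ n ih =>
    rw [iteratedDeriv_succ, ih]
    funext z
    rw [Polynomial.deriv, Function.iterate_succ_apply']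

theorem gapFun_not_poly (P : Polynomial ℂ) : ¬ ∀ z, gapFun z = P.eval z := by
  intro h
  have h1 : gapFun = fun z => P.eval z := funext h
  have h2 := gapFun_deriv (2 ^ (P.natDegree + 1))
  rw [h1, iter_poly, Polynomial.iterate_derivative_eq_zero (lt_trans (Nat.lt_succ_self _)
    Nat.lt_two_pow_self)] at h2
  beta_reduce at h2
  rw [Polynomial.eval_zero, zero_div, gc, if_pos ⟨_, rfl⟩] at h2
  exact inv_ne_zero (fact_ne _) h2.symm

theorem gapFun_values (z₀ τ : ℂ) : {z : ℂ | gapFun (z - z₀) = τ}.Infinite := by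
  intro hfin
  obtain ⟨r, hr⟩ := hfin.isBounded.exists_norm_le
  have hmem : (fun z => gapFun (z - z₀)) - algebraMap ℂ (ℂ → ℂ) τ ∈ GapRing z₀ :=
    (GapRing z₀).sub_mem (Algebra.subset_adjoin (gapFun_gaps z₀)) ((GapRing z₀).algebraMap_mem τ)
  obtain ⟨P, hP⟩ := gapRing_poly hmem (r := r + 1) fun z hz h0 => by
    have h1 : gapFun (z - z₀) = τ := sub_eq_zero.1 h0
    have h2 := hr z h1
    linarith
  refine gapFun_not_poly ((P + Polynomial.C τ).comp (Polynomial.X + Polynomial.C z₀)) fun z => ?_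
  have h1 := hP (z + z₀)
  rw [Pi.sub_apply, add_sub_cancel_right] at h1
  have h2 : gapFun z = P.eval (z + z₀) + τ := by
    rw [← h1]
    have h3 : (algebraMap ℂ (ℂ → ℂ) τ) (z + z₀) = τ := rfl
    rw [h3]
    ring
  rw [h2, Polynomial.eval_comp]
  simp

theorem comp_mem {S : Subalgebra ℂ (ℂ → ℂ)} {g : ℂ → ℂ} (hg : g ∈ S) (P : Polynomial ℂ) :
    (fun z => P.eval (g z)) ∈ S := by
  have h1 : (fun z => P.eval (g z)) = Polynomial.aeval g P := by
    funext z
    have h2 : (Polynomial.aeval g P) z =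
        (Pi.evalRingHom (fun _ : ℂ => ℂ) z) (Polynomial.aeval g P) := rfl
    rw [h2, Polynomial.aeval_def, Polynomial.hom_eval₂]
    rfl
  rw [h1]
  exact (Algebra.adjoin_le (Set.singleton_subset_iff.2 hg))
    (Polynomial.aeval_mem_adjoin_singleton ℂ g)

theorem id_gap (z₀ : ℂ) : (fun z : ℂ => z) ∈ GapRing z₀ := by
  have h1 : (fun z : ℂ => z - z₀) ∈ GapRing z₀ := by
    refine Algebra.subset_adjoin ⟨differentiable_id.sub_const z₀, 2, fun j => 2 ^ j, by norm_num,
      fun j => by push_cast; rw [pow_succ]; linarith, fun k hk => ⟨0, ?_⟩⟩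
    have h2 : (fun z : ℂ => z - z₀) = fun z => (Polynomial.X - Polynomial.C z₀).eval z := by
      funext z
      simp
    rw [h2, iter_poly] at hk
    by_contra hne
    apply hk
    change ¬ k = 2 ^ 0 at hne
    rw [pow_zero] at hne
    rcases Nat.eq_zero_or_pos k with h0 | h0
    · subst h0
      simp
    · rw [Polynomial.iterate_derivative_eq_zero (by
        rw [Polynomial.natDegree_X_sub_C]
        omega)]
      exact Polynomial.eval_zero
  have h2 := (GapRing z₀).add_mem h1 ((GapRing z₀).algebraMap_mem z₀)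
  have h3 : (fun z : ℂ => z - z₀) + algebraMap ℂ (ℂ → ℂ) z₀ = fun z : ℂ => z := by
    funext z
    change z - z₀ + z₀ = z
    ring
  rwa [h3] at h2

theorem poly_gap (z₀ : ℂ) (P : Polynomial ℂ) : (fun z => P.eval z) ∈ GapRing z₀ :=
  comp_mem (id_gap z₀) P

/-! ### The closures -/

variable {N : ℕ} {ι : Type}

theorem eval_an {f : ℂ → Fin (N + 1) → ℂ} {S : Set ℂ}
    (hf : ∀ j, AnalyticOnNhd ℂ (fun w => f w j) S) (G : MvPolynomial (Fin (N + 1)) ℂ) :
    AnalyticOnNhd ℂ (fun w => eval (f w) G) S := by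
  intro w hw
  have : (fun w => eval (f w) G) = fun w => ∑ α ∈ G.support, G.coeff α * ∏ j, f w j ^ α j := by
    funext w
    rw [eval_eq']
  rw [this]
  apply Finset.analyticAt_fun_sum
  intro α _
  apply analyticAt_const.fun_mul
  apply Finset.analyticAt_fun_prod
  intro j _
  exact (hf j w hw).fun_pow _

theorem zero_of_line {F : ι → MvPolynomial (Fin (N + 1)) ℂ} {Q : MvPolynomial (Fin (N + 1)) ℂ}
    {x : Fin (N + 1) → ℂ} (hx : OnLine F Q x) {G : MvPolynomial (Fin (N + 1)) ℂ} {d : ℕ}
    (hG : G.IsHomogeneous d)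
    (h0 : ∀ P, IsA1Curve F Q P → ∀ t, eval (fun j => (P j).eval t) G = 0) : eval x G = 0 := by
  obtain ⟨P, hP, t, c, hc, h⟩ := hx
  have h1 := h0 P hP t
  rw [show (fun j => (P j).eval t) = fun j => c * x j from funext h, eval_vec hG] at h1
  exact (mul_eq_zero.mp h1).resolve_left (pow_ne_zero _ hc)

/-- an affine line is an entire gap curve -/
theorem line_ent (z₀ : ℂ) {F : ι → MvPolynomial (Fin (N + 1)) ℂ}
    {Q : MvPolynomial (Fin (N + 1)) ℂ} {P : Fin (N + 1) → Polynomial ℂ} (hP : IsA1Curve F Q P) :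
    RingEnt (GapRing z₀) F Q (fun z j => (P j).eval z) where
  an := fun j => (P j).differentiable
  ne := fun z => by
    obtain ⟨j, hj⟩ := hP.ne z
    exact Function.ne_iff.2 ⟨j, hj⟩
  on := hP.mem
  nonconst := hP.nonconst
  coord := ⟨fun z j => (P j).eval z, fun j => poly_gap z₀ (P j), fun z => ⟨1, (one_smul _ _).symm⟩⟩

/-- a transcendental parametrisation of an affine line is a gap map with an essential
singularity -/
theorem line_pun (z₀ : ℂ) {F : ι → MvPolynomial (Fin (N + 1)) ℂ}
    {Q : MvPolynomial (Fin (N + 1)) ℂ} {P : Fin (N + 1) → Polynomial ℂ} (hP : IsA1Curve F Q P) :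
    RingPun (GapRing z₀) F Q (fun w j => (P j).eval (gapFun (w⁻¹ - z₀))) where
  an := fun j w hw => by
    have h1 : AnalyticAt ℂ (fun w : ℂ => w⁻¹ - z₀) w := (analyticAt_inv hw.1).sub analyticAt_const
    have h2 : AnalyticAt ℂ (fun x : ℂ => (P j).eval (gapFun x)) (w⁻¹ - z₀) :=
      ((P j).differentiable.comp gapFun_diff).analyticAt _
    exact AnalyticAt.comp (g := fun x : ℂ => (P j).eval (gapFun x))
      (f := fun w : ℂ => w⁻¹ - z₀) h2 h1
  ne := fun w _ _ => by
    obtain ⟨j, hj⟩ := hP.ne (gapFun (w⁻¹ - z₀))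
    exact Function.ne_iff.2 ⟨j, hj⟩
  on := fun w _ _ => hP.mem _
  coord := ⟨fun z j => (P j).eval (gapFun (z - z₀)), fun j => comp_mem
    (Algebra.subset_adjoin (gapFun_gaps z₀)) (P j), fun w _ => ⟨1, (one_smul _ _).symm⟩⟩
  ess := by
    intro hext
    have hd : Differentiable ℂ (fun z : ℂ => gapFun (z - z₀)) :=
      gapFun_diff.comp (differentiable_id.sub_const z₀)
    obtain ⟨u, p, hu, hup⟩ := rational_of_extends (fun z j => (P j).eval (gapFun (z - z₀)))
      (fun j => (P j).differentiable.comp hd)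
      (fun z => by
        obtain ⟨j, hj⟩ := hP.ne (gapFun (z - z₀))
        exact Function.ne_iff.2 ⟨j, hj⟩) hext
    have key : ∀ τ j k, Polynomial.C ((P j).eval τ) * p k = Polynomial.C ((P k).eval τ) * p j := by
      intro τ j k
      refine Polynomial.eq_of_infinite_eval_eq _ _ ((gapFun_values z₀ τ).mono fun z hz => ?_)
      have hz' : gapFun (z - z₀) = τ := hz
      change _ = _
      have h1 := hup z j
      have h2 := hup z k
      beta_reduce at h1 h2
      rw [hz'] at h1 h2
      rw [Polynomial.eval_mul, Polynomial.eval_mul, Polynomial.eval_C, Polynomial.eval_C, h1, h2]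
      ring
    obtain ⟨s, t, j, k, hst⟩ := hP.nonconst
    have h1 := key s j k
    have h2 := key t j k
    have hdet : ∀ l, (l = j ∨ l = k) → p l = 0 := by
      rintro l (rfl | rfl)
      · have h3 : Polynomial.C ((P l).eval s * (P k).eval t - (P k).eval s * (P l).eval t) *
            p l = 0 := by
          rw [Polynomial.C_sub, Polynomial.C_mul, Polynomial.C_mul]
          linear_combination Polynomial.C ((P l).eval t) * h1 - Polynomial.C ((P l).eval s) * h2
        exact (mul_eq_zero.1 h3).resolve_left (by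
          intro h5
          exact hst (sub_eq_zero.1 (Polynomial.C_eq_zero.1 h5)))
      · have h3 : Polynomial.C ((P j).eval s * (P l).eval t - (P l).eval s * (P j).eval t) *
            p l = 0 := by
          rw [Polynomial.C_sub, Polynomial.C_mul, Polynomial.C_mul]
          linear_combination Polynomial.C ((P l).eval t) * h1 - Polynomial.C ((P l).eval s) * h2
        exact (mul_eq_zero.1 h3).resolve_left (by
          intro h5
          exact hst (sub_eq_zero.1 (Polynomial.C_eq_zero.1 h5)))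
    obtain ⟨z, hz⟩ := (gapFun_values z₀ s).nonempty
    have hz' : gapFun (z - z₀) = s := hz
    have h3 := hup z j
    have h4 := hup z k
    beta_reduce at h3 h4
    rw [hz', hdet j (Or.inl rfl), Polynomial.eval_zero, mul_zero] at h3
    rw [hz', hdet k (Or.inr rfl), Polynomial.eval_zero, mul_zero] at h4
    apply hst
    rw [h3, h4]
    ring

/-- **The closure of the union of the entire gap curves.** -/
theorem closure_ent_gap {F : ι → MvPolynomial (Fin (N + 1)) ℂ}
    (hF : ∀ i, ∃ d, (F i).IsHomogeneous d) {Q : MvPolynomial (Fin (N + 1)) ℂ} {e : ℕ}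
    (hQ : Q.IsHomogeneous e) (z₀ : ℂ) {G : MvPolynomial (Fin (N + 1)) ℂ}
    (hG : ∃ d, G.IsHomogeneous d) :
    (∀ f, RingEnt (GapRing z₀) F Q f → ∀ z, eval (f z) G = 0) ↔
      ∀ P, IsA1Curve F Q P → ∀ t, eval (fun j => (P j).eval t) G = 0 := by
  obtain ⟨d, hd⟩ := hG
  constructor
  · intro h P hP t
    exact h _ (line_ent z₀ hP) t
  · intro h f hf z
    obtain ⟨S, hS, hf1⟩ := ent_points hF hQ hf
    have h1 : ∀ᶠ z in 𝓝[≠] (0 : ℂ), eval (f z) G = 0 := by
      have h2 : ∀ᶠ z in 𝓝[≠] (0 : ℂ), z ∉ S := by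
        have h3 : (S \ {0} : Set ℂ)ᶜ ∈ 𝓝 (0 : ℂ) :=
          (hS.subset Set.sdiff_subset).isClosed.isOpen_compl.mem_nhds (by
            rintro ⟨-, h⟩
            exact h rfl)
        filter_upwards [mem_nhdsWithin_of_mem_nhds h3, self_mem_nhdsWithin] with z h4 h5 h6
        exact h4 ⟨h6, h5⟩
      filter_upwards [h2] with z hz
      exact zero_of_line (hf1 z hz) hd h
    have han := eval_an (S := univ) (fun j z _ => (hf.an j).analyticAt z) G
    exact han.eqOn_zero_of_preconnected_of_frequently_eq_zero isPreconnected_univ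
      (mem_univ 0) h1.frequently (mem_univ z)

/-- **The closure of the union of the gap maps from the punctured disc.** -/
theorem closure_pun_gap {F : ι → MvPolynomial (Fin (N + 1)) ℂ}
    (hF : ∀ i, ∃ d, (F i).IsHomogeneous d) {Q : MvPolynomial (Fin (N + 1)) ℂ} {e : ℕ}
    (hQ : Q.IsHomogeneous e) (z₀ : ℂ) {G : MvPolynomial (Fin (N + 1)) ℂ}
    (hG : ∃ d, G.IsHomogeneous d) :
    (∀ f, RingPun (GapRing z₀) F Q f → ∀ w : ℂ, w ≠ 0 → ‖w‖ < 1 → eval (f w) G = 0) ↔
      ∀ P, IsA1Curve F Q P → ∀ t, eval (fun j => (P j).eval t) G = 0 := by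
  obtain ⟨d, hd⟩ := hG
  constructor
  · intro h P hP t
    have hinf : ({z : ℂ | gapFun (z - z₀) = t} ∩ {z : ℂ | 1 < ‖z‖}).Nonempty := by
      by_contra hcon
      rw [Set.not_nonempty_iff_eq_empty] at hcon
      have hP0 : ∀ z : ℂ, gapFun (z - z₀) = t → ‖z‖ ≤ 1 := by
        intro z hz
        by_contra hz1
        push Not at hz1
        have : z ∈ ({z : ℂ | gapFun (z - z₀) = t} ∩ {z : ℂ | 1 < ‖z‖}) := ⟨hz, hz1⟩
        rw [hcon] at this
        exact this
      have hmem : (fun z => gapFun (z - z₀)) - algebraMap ℂ (ℂ → ℂ) t ∈ GapRing z₀ :=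
        (GapRing z₀).sub_mem (Algebra.subset_adjoin (gapFun_gaps z₀))
          ((GapRing z₀).algebraMap_mem t)
      obtain ⟨R, hR⟩ := gapRing_poly hmem (r := 2) fun z hz h0 => by
        have h1 : gapFun (z - z₀) = t := sub_eq_zero.1 h0
        have h2 := hP0 z h1
        linarith
      refine gapFun_not_poly ((R + Polynomial.C t).comp (Polynomial.X + Polynomial.C z₀))
        fun z => ?_
      have h1 := hR (z + z₀)
      rw [Pi.sub_apply, add_sub_cancel_right] at h1
      have h2 : gapFun z = R.eval (z + z₀) + t := by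
        rw [← h1]
        have h3 : (algebraMap ℂ (ℂ → ℂ) t) (z + z₀) = t := rfl
        rw [h3]
        ring
      rw [h2, Polynomial.eval_comp]
      simp
    obtain ⟨z, hz, hz1⟩ := hinf
    have hz' : gapFun (z - z₀) = t := hz
    have hz1' : 1 < ‖z‖ := hz1
    have hz0 : z ≠ 0 := by
      rintro rfl
      rw [norm_zero] at hz1'
      linarith
    have h1 := h _ (line_pun z₀ hP) z⁻¹ (inv_ne_zero hz0) (by
      rw [norm_inv]
      exact inv_lt_one_of_one_lt₀ hz1')
    simp only [inv_inv, hz'] at h1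
    exact h1
  · intro h f hf w hw0 hw1
    obtain ⟨S, hS, hf1⟩ := pun_points hF hQ hf
    obtain ⟨w0, hw0'⟩ := PB_nonempty (δ := 1) one_pos
    have h1 : ∀ᶠ z in 𝓝[≠] w0, eval (f z) G = 0 := by
      have h2 : ∀ᶠ z in 𝓝[≠] w0, z ∉ S := by
        have h3 : (S \ {w0} : Set ℂ)ᶜ ∈ 𝓝 w0 :=
          (hS.subset Set.sdiff_subset).isClosed.isOpen_compl.mem_nhds (by
            rintro ⟨-, h⟩
            exact h rfl)
        filter_upwards [mem_nhdsWithin_of_mem_nhds h3, self_mem_nhdsWithin] with z h4 h5 h6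
        exact h4 ⟨h6, h5⟩
      filter_upwards [h2, mem_nhdsWithin_of_mem_nhds ((PB_open 1).mem_nhds hw0')] with z hz hz1
      exact zero_of_line (hf1 z hz hz1.1 hz1.2) hd h
    have han := eval_an (S := PB 1) hf.an G
    exact han.eqOn_zero_of_preconnected_of_frequently_eq_zero (PB_preconn one_pos)
      hw0' h1.frequently ⟨hw0, hw1⟩

end Run7.h302.PG
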