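import Pool.Agent.Run7.h302.PG.Iter

/-!
# Entire functions with Fejér gaps which have no zeros near infinity are polynomials
-/

set_option autoImplicit false

namespace Run7.h302.PG

open Polynomial Metric Complex Finset Filter

theorem prod_lower {x : ℕ → ℝ} (h0 : ∀ n, 0 ≤ x n) (h1 : ∀ n, x n < 1) (hs : Summable x) :
    ∃ c : ℝ, 0 < c ∧ ∀ S : Finset ℕ, c ≤ ∏ n ∈ S, (1 - x n) := by
  classical
  obtain ⟨T, hT⟩ := summable_iff_vanishing_norm.1 hs (1 / 2) (by norm_num)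
  have hpos : ∀ S : Finset ℕ, 0 < ∏ n ∈ S, (1 - x n) := fun S =>
    Finset.prod_pos fun n _ => by linarith [h1 n]
  have hle : ∀ S : Finset ℕ, 1 - ∑ n ∈ S, x n ≤ ∏ n ∈ S, (1 - x n) := by
    intro S
    induction S using Finset.induction_on with
    | empty => simp
    | insert n S hn ih =>
      rw [Finset.sum_insert hn, Finset.prod_insert hn]
      have h2 : ∏ n ∈ S, (1 - x n) ≤ 1 :=
        Finset.prod_le_one (fun n _ => by linarith [h1 n]) fun n _ => by linarith [h0 n]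
      nlinarith [h0 n, h1 n]
  refine ⟨(∏ n ∈ T, (1 - x n)) * (1 / 2), mul_pos (hpos T) (by norm_num), fun S => ?_⟩
  have h3 : ∏ n ∈ S, (1 - x n) = (∏ n ∈ S ∩ T, (1 - x n)) * ∏ n ∈ S \ T, (1 - x n) := by
    rw [mul_comm, ← Finset.prod_union, Finset.sdiff_union_inter]
    exact Finset.disjoint_sdiff_inter S T
  rw [h3]
  have h4 : ∏ n ∈ T, (1 - x n) ≤ ∏ n ∈ S ∩ T, (1 - x n) := by
    refine Finset.prod_le_prod_of_subset_of_le_one Finset.inter_subset_right ?_ ?_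
    · intro n _
      linarith [h1 n]
    · intro n _ _
      linarith [h0 n]
  have h5 : 1 / 2 ≤ ∏ n ∈ S \ T, (1 - x n) := by
    have h6 := hT (S \ T) Finset.sdiff_disjoint
    rw [Real.norm_eq_abs] at h6
    have h7 := le_abs_self (∑ n ∈ S \ T, x n)
    have h8 := hle (S \ T)
    linarith
  exact mul_le_mul h4 h5 (by norm_num) (hpos _).le

theorem fac_bound {a : ℕ → ℂ} (hs : Summable fun n : ℕ => if a n = 0 then (0 : ℝ) else 1 / (n : ℝ))
    {q N : ℕ} (hN : 2 * q ≤ N) : ∃ c : ℝ, 1 ≤ c ∧ ∀ K, fac a q N K ≤ c := by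
  classical
  set T : ℝ := ∑' n : ℕ, (if a n = 0 then (0 : ℝ) else 1 / (n : ℝ)) with hT
  have hnn : ∀ n : ℕ, 0 ≤ (if a n = 0 then (0 : ℝ) else 1 / (n : ℝ)) := by
    intro n
    split_ifs
    · exact le_rfl
    · positivity
  have hT0 : 0 ≤ T := tsum_nonneg hnn
  refine ⟨Real.exp (4 * q * T), Real.one_le_exp (by positivity), fun K => ?_⟩
  have h1 : fac a q N K ≤ ∏ n ∈ idx a N K,
      Real.exp (4 * q * (if a n = 0 then (0 : ℝ) else 1 / (n : ℝ))) := by
    unfold fac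
    refine Finset.prod_le_prod (fun n hn => ?_) fun n hn => ?_
    · rw [mem_idx] at hn
      exact zero_le_one.trans (one_le_fac_term (by omega))
    · rw [mem_idx] at hn
      rw [if_neg hn.2]
      have h2 : (2 * q : ℝ) < n := by exact_mod_cast (by omega : 2 * q < n)
      have hq : (0 : ℝ) ≤ q := Nat.cast_nonneg q
      have h3 : (0 : ℝ) < n - q := by linarith
      have h4 : (0 : ℝ) < n := by linarith
      have h5 := Real.add_one_le_exp (4 * q * (1 / (n : ℝ)))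
      refine le_trans ?_ h5
      rw [div_le_iff₀ h3]
      have h6 : (4 * q * (1 / (n : ℝ)) + 1) * (n - q) = n + q + 2 * q * ((n - 2 * q) / n) := by
        field_simp
        ring
      rw [h6]
      have h7 : 0 ≤ 2 * (q : ℝ) * ((n - 2 * q) / n) := by
        have : 0 ≤ ((n : ℝ) - 2 * q) / n := div_nonneg (by linarith) h4.le
        positivity
      linarith
  refine h1.trans ?_
  rw [← Real.exp_sum, ← Finset.mul_sum]
  refine Real.exp_le_exp.2 ?_
  have hq : (0 : ℝ) ≤ 4 * q := by positivity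
  refine mul_le_mul_of_nonneg_left ?_ hq
  exact hs.sum_le_tsum _ fun n _ => hnn n

theorem lead_bound {a : ℕ → ℂ}
    (hs : Summable fun n : ℕ => if a n = 0 then (0 : ℝ) else 1 / (n : ℝ)) (N : ℕ) :
    ∃ c : ℝ, 0 < c ∧ ∀ K, c ≤ ‖∏ n ∈ idx a N K, (1 - (N : ℂ) / n)‖ := by
  classical
  let x : ℕ → ℝ := fun n => if n ≤ N then 0 else N * (if a n = 0 then (0 : ℝ) else 1 / (n : ℝ))
  have hnn : ∀ n : ℕ, 0 ≤ (if a n = 0 then (0 : ℝ) else 1 / (n : ℝ)) := by
    intro n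
    split_ifs
    · exact le_rfl
    · positivity
  have h0 : ∀ n, 0 ≤ x n := by
    intro n
    simp only [x]
    split_ifs <;> positivity
  have h1 : ∀ n, x n < 1 := by
    intro n
    simp only [x]
    split_ifs with h2 h3
    · exact zero_lt_one
    · rw [mul_zero]
      exact zero_lt_one
    · have h4 : (N : ℝ) < n := by exact_mod_cast (by omega : N < n)
      have h5 : (0 : ℝ) < n := lt_of_le_of_lt (Nat.cast_nonneg N) h4
      rw [mul_one_div, div_lt_one h5]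
      exact h4
  have h2 : Summable x := by
    refine Summable.of_nonneg_of_le h0 (fun n => ?_) (hs.mul_left (N : ℝ))
    simp only [x]
    by_cases h3 : n ≤ N
    · rw [if_pos h3]
      exact mul_nonneg (Nat.cast_nonneg N) (hnn n)
    · rw [if_neg h3]
  obtain ⟨c, hc, h3⟩ := prod_lower h0 h1 h2
  refine ⟨c, hc, fun K => (h3 (idx a N K)).trans ?_⟩
  have h4 : ∏ n ∈ idx a N K, (1 - (N : ℂ) / n) = ((∏ n ∈ idx a N K, (1 - x n) : ℝ) : ℂ) := by
    rw [Complex.ofReal_prod]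
    refine Finset.prod_congr rfl fun n hn => ?_
    rw [mem_idx] at hn
    simp only [x]
    rw [if_neg (by omega), if_neg hn.2]
    push_cast
    ring
  rw [h4, Complex.norm_real]
  exact le_abs_self _

/-- Cauchy's bound. -/
theorem root_bound {a : ℕ → ℂ} {N K : ℕ} {c : ℝ} (hc : 0 < c)
    (hlead : c ≤ ‖∏ n ∈ idx a N K, (1 - (N : ℂ) / n)‖) (ha : a N ≠ 0) {w : ℂ}
    (hw : w ∈ (PK a K N).roots) :
    ‖w‖ ≤ max 1 ((∑ j ∈ range N, ‖a j‖) / (‖a N‖ * c)) := by
  by_contra hcon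
  push Not at hcon
  have hw1 : 1 < ‖w‖ := lt_of_le_of_lt (le_max_left _ _) hcon
  have hw2 : (∑ j ∈ range N, ‖a j‖) / (‖a N‖ * c) < ‖w‖ := lt_of_le_of_lt (le_max_right _ _) hcon
  have hpos : 0 < ‖a N‖ * c := mul_pos (norm_pos_iff.2 ha) hc
  rw [div_lt_iff₀ hpos] at hw2
  have h0 : (PK a K N).eval w = 0 := (mem_roots'.1 hw).2
  rw [PK, eval_finsetSum, Finset.sum_range_succ] at h0
  simp only [eval_mul, eval_C, eval_pow, eval_X] at h0
  have h1 : ‖a N * (∏ n ∈ idx a N K, (1 - (N : ℂ) / n)) * w ^ N‖ ≤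
      ∑ j ∈ range N, ‖a j‖ * ‖w‖ ^ (N - 1) := by
    rw [eq_neg_of_add_eq_zero_right h0, norm_neg]
    refine (norm_sum_le _ _).trans (Finset.sum_le_sum fun j hj => ?_)
    rw [mem_range] at hj
    rw [norm_mul, norm_mul, norm_pow]
    have h2 : ‖∏ n ∈ idx a N K, (1 - (j : ℂ) / n)‖ ≤ 1 := by
      rw [norm_prod]
      refine Finset.prod_le_one (fun _ _ => norm_nonneg _) fun n hn => ?_
      rw [mem_idx] at hn
      have h3 : (1 - (j : ℂ) / n) = ((1 - (j : ℝ) / n : ℝ) : ℂ) := by push_cast; ring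
      have h5 : (0 : ℝ) < n := by exact_mod_cast (by omega : 0 < n)
      have h4 : (j : ℝ) / n ≤ 1 := by
        rw [div_le_one h5]
        exact_mod_cast (by omega : j ≤ n)
      have h6 : 0 ≤ (j : ℝ) / n := by positivity
      rw [h3, Complex.norm_real, Real.norm_of_nonneg (by linarith)]
      linarith
    have h3 : ‖w‖ ^ j ≤ ‖w‖ ^ (N - 1) := pow_le_pow_right₀ hw1.le (by omega)
    calc ‖a j‖ * ‖∏ n ∈ idx a N K, (1 - (j : ℂ) / n)‖ * ‖w‖ ^ j
        ≤ ‖a j‖ * 1 * ‖w‖ ^ (N - 1) := by gcongr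
      _ = ‖a j‖ * ‖w‖ ^ (N - 1) := by ring
  rw [← Finset.sum_mul, norm_mul, norm_mul, norm_pow] at h1
  rcases Nat.eq_zero_or_pos N with hN | hN
  · subst hN
    rw [Finset.range_zero, Finset.sum_empty, zero_mul] at h1
    have h2 : 0 < ‖a 0‖ * ‖∏ n ∈ idx a 0 K, (1 - ((0 : ℕ) : ℂ) / n)‖ * ‖w‖ ^ 0 := by
      rw [pow_zero, mul_one]
      exact mul_pos (norm_pos_iff.2 ha) (lt_of_lt_of_le hc hlead)
    linarith
  · have h2 : ‖w‖ ^ N = ‖w‖ ^ (N - 1) * ‖w‖ := by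
      rw [← pow_succ]
      congr 1
      omega
    rw [h2] at h1
    have hp : 0 < ‖w‖ ^ (N - 1) := pow_pos (by linarith) _
    have h3 : ‖a N‖ * c * ‖w‖ ≤ ∑ j ∈ range N, ‖a j‖ := by
      have h4 : (‖a N‖ * c * ‖w‖) * ‖w‖ ^ (N - 1) ≤ (∑ j ∈ range N, ‖a j‖) * ‖w‖ ^ (N - 1) := by
        refine le_trans ?_ h1
        have h5 : ‖a N‖ * c ≤ ‖a N‖ * ‖∏ n ∈ idx a N K, (1 - (N : ℂ) / n)‖ :=
          mul_le_mul_of_nonneg_left hlead (norm_nonneg _)
        have h6 : 0 ≤ ‖w‖ ^ (N - 1) * ‖w‖ := by positivity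
        calc ‖a N‖ * c * ‖w‖ * ‖w‖ ^ (N - 1) = (‖a N‖ * c) * (‖w‖ ^ (N - 1) * ‖w‖) := by ring
          _ ≤ _ := mul_le_mul_of_nonneg_right h5 h6
      exact le_of_mul_le_mul_right h4 hp
    rw [mul_comm] at h3
    linarith

theorem eval_PK_self (a : ℕ → ℂ) (K : ℕ) (z : ℂ) :
    (PK a K K).eval z = ∑ n ∈ range (K + 1), a n * z ^ n := by
  rw [PK, eval_finsetSum]
  refine Finset.sum_congr rfl fun j _ => ?_
  rw [idx_self, Finset.prod_empty, mul_one]
  simp

/-- The partial sums are close to the function on discs. -/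
theorem approx {a : ℕ → ℂ} {F : ℂ → ℂ} (hF : ∀ z, HasSum (fun n => a n * z ^ n) (F z)) {R : ℝ}
    (hR : 0 ≤ R) {ε : ℝ} (hε : 0 < ε) :
    ∃ K0, ∀ K, K0 ≤ K → ∀ z : ℂ, ‖z‖ ≤ R → ‖F z - (PK a K K).eval z‖ < ε := by
  have hsum : Summable fun n => ‖a n‖ * R ^ n := by
    have h1 := (hF (R : ℂ)).summable.norm
    refine h1.congr fun n => ?_
    rw [norm_mul, norm_pow, Complex.norm_real, Real.norm_of_nonneg hR]
  have h2 : TendstoUniformlyOn (fun N => fun z => ∑ n ∈ range N, a n * z ^ n)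
      (fun z => ∑' n, a n * z ^ n) atTop (closedBall (0 : ℂ) R) := by
    refine tendstoUniformlyOn_tsum_nat hsum fun n z hz => ?_
    rw [mem_closedBall_zero_iff] at hz
    rw [norm_mul, norm_pow]
    exact mul_le_mul_of_nonneg_left (pow_le_pow_left₀ (norm_nonneg _) hz n) (norm_nonneg _)
  rw [Metric.tendstoUniformlyOn_iff] at h2
  obtain ⟨K0, hK0⟩ := eventually_atTop.1 (h2 ε hε)
  refine ⟨K0, fun K hK z hz => ?_⟩
  have h3 := hK0 (K + 1) (by omega) z (by rwa [mem_closedBall_zero_iff])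
  rw [(hF z).tsum_eq, dist_eq_norm] at h3
  rw [eval_PK_self]
  exact h3

/-- the partial sums have no zeros in an annulus, and the numbers of their zeros in a smaller disc
agree -/
theorem annulus {a : ℕ → ℂ} {F : ℂ → ℂ} (hFc : Continuous F)
    (hF : ∀ z, HasSum (fun n => a n * z ^ n) (F z)) {r R ρ : ℝ} (hr : 0 ≤ r) (hρ : r < ρ)
    (hR : ρ ≤ R) (h : ∀ z : ℂ, r ≤ ‖z‖ → F z ≠ 0) :
    ∃ K0, ∀ K, K0 ≤ K → PK a K K ≠ 0 ∧ (∀ w ∈ (PK a K K).roots, ‖w‖ ≤ r ∨ R ≤ ‖w‖) ∧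
      cnt (PK a K K) ρ = cnt (PK a K0 K0) ρ := by
  have hρ0 : 0 < ρ := by linarith
  have hcomp : IsCompact (closedBall (0 : ℂ) R ∩ {z : ℂ | r ≤ ‖z‖}) :=
    (isCompact_closedBall _ _).inter_right (isClosed_le continuous_const continuous_norm)
  have hzρ : ((ρ : ℝ) : ℂ) ∈ closedBall (0 : ℂ) R ∩ {z : ℂ | r ≤ ‖z‖} := by
    have h1 : ‖((ρ : ℝ) : ℂ)‖ = ρ := by rw [Complex.norm_real, Real.norm_of_nonneg hρ0.le]
    constructor
    · rw [mem_closedBall_zero_iff, h1]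
      exact hR
    · change r ≤ ‖((ρ : ℝ) : ℂ)‖
      rw [h1]
      exact hρ.le
  obtain ⟨z0, hz0, hmin⟩ := hcomp.exists_isMinOn ⟨_, hzρ⟩ (hFc.norm.continuousOn)
  set δ := ‖F z0‖ with hδ
  have hδ0 : 0 < δ := norm_pos_iff.2 (h z0 hz0.2)
  obtain ⟨K0, hK0⟩ := approx hF (by linarith : (0 : ℝ) ≤ R) (show 0 < δ / 4 by positivity)
  have hlow : ∀ K, K0 ≤ K → ∀ z : ℂ, r ≤ ‖z‖ → ‖z‖ ≤ R → 3 * δ / 4 < ‖(PK a K K).eval z‖ := by
    intro K hK z h1 h2
    have h3 := hK0 K hK z h2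
    have h4 : δ ≤ ‖F z‖ := hmin ⟨by rwa [mem_closedBall_zero_iff], h1⟩
    have h5 : ‖F z‖ ≤ ‖F z - (PK a K K).eval z‖ + ‖(PK a K K).eval z‖ := by
      calc ‖F z‖ = ‖(F z - (PK a K K).eval z) + (PK a K K).eval z‖ := by rw [sub_add_cancel]
        _ ≤ _ := norm_add_le _ _
    linarith
  have hne : ∀ K, K0 ≤ K → ∀ z : ℂ, r ≤ ‖z‖ → ‖z‖ ≤ R → (PK a K K).eval z ≠ 0 := by
    intro K hK z h1 h2 h0
    have h3 := hlow K hK z h1 h2
    rw [h0, norm_zero] at h3
    linarith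
  refine ⟨K0, fun K hK => ?_⟩
  have hP : PK a K K ≠ 0 := by
    intro h0
    have h1 : ‖((ρ : ℝ) : ℂ)‖ = ρ := by rw [Complex.norm_real, Real.norm_of_nonneg hρ0.le]
    refine hne K hK ((ρ : ℝ) : ℂ) (by rw [h1]; exact hρ.le) (by rw [h1]; exact hR) ?_
    rw [h0, eval_zero]
  refine ⟨hP, fun w hw => ?_, ?_⟩
  · by_contra hcon
    push Not at hcon
    exact hne K hK w hcon.1.le hcon.2.le ((mem_roots hP).1 hw)
  · refine cnt_eq hρ0 fun z hz => ?_
    have hz1 : r ≤ ‖z‖ := by rw [hz]; exact hρ.le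
    have hz2 : ‖z‖ ≤ R := by rw [hz]; exact hR
    have h1 := hne K0 le_rfl z hz1 hz2
    refine ⟨h1, ?_⟩
    have h2 := hK0 K0 le_rfl z hz2
    have h3 := hK0 K hK z hz2
    have h4 := hlow K0 le_rfl z hz1 hz2
    have h5 : ‖(PK a K K).eval z - (PK a K0 K0).eval z‖ < δ / 2 := by
      calc ‖(PK a K K).eval z - (PK a K0 K0).eval z‖ =
          ‖(F z - (PK a K0 K0).eval z) - (F z - (PK a K K).eval z)‖ := by congr 1; ring
        _ ≤ ‖F z - (PK a K0 K0).eval z‖ + ‖F z - (PK a K K).eval z‖ := norm_sub_le _ _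
        _ < δ / 2 := by linarith
    have h6 : (PK a K K).eval z / (PK a K0 K0).eval z =
        1 + ((PK a K K).eval z - (PK a K0 K0).eval z) / (PK a K0 K0).eval z := by
      field_simp
      ring
    have h7 : ‖((PK a K K).eval z - (PK a K0 K0).eval z) / (PK a K0 K0).eval z‖ < 1 := by
      rw [norm_div, div_lt_one (norm_pos_iff.2 h1)]
      linarith
    rw [h6, add_re, one_re]
    have h8 := (abs_lt.1 (lt_of_le_of_lt (abs_re_le_norm _) h7)).1
    linarith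

/-- **Biernacki's theorem.** An entire function with Fejér gaps without zeros outside of a disc is a
polynomial. -/
theorem bier {a : ℕ → ℂ} {F : ℂ → ℂ} (hFc : Continuous F)
    (hF : ∀ z, HasSum (fun n => a n * z ^ n) (F z))
    (hs : Summable fun n : ℕ => if a n = 0 then (0 : ℝ) else 1 / (n : ℝ)) {r : ℝ} (hr : 0 ≤ r)
    (h : ∀ z : ℂ, r ≤ ‖z‖ → F z ≠ 0) : ∃ N, ∀ n, N < n → a n = 0 := by
  by_contra hcon
  push Not at hcon
  have hρ : r < r + 1 := by linarith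
  obtain ⟨K1, hK1⟩ := annulus hFc hF hr hρ (le_refl (r + 1)) h
  set q := cnt (PK a K1 K1) (r + 1) with hq
  obtain ⟨N, hN, haN⟩ := hcon (2 * q)
  obtain ⟨C, hC1, hC⟩ := fac_bound (q := q) hs hN.le
  obtain ⟨c, hc, hlead⟩ := lead_bound hs N
  set B := max 1 ((∑ j ∈ range N, ‖a j‖) / (‖a N‖ * c)) with hB
  set R := max (max (r + 1) (r * C + 1)) (B + 1) with hR
  have hR1 : r + 1 ≤ R := (le_max_left _ _).trans (le_max_left _ _)
  have hR2 : r * C + 1 ≤ R := (le_max_right _ _).trans (le_max_left _ _)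
  have hR3 : B + 1 ≤ R := le_max_right _ _
  obtain ⟨K2, hK2⟩ := annulus hFc hF hr hρ hR1 h
  set K := max (max K1 K2) N with hK
  have e1 : K1 ≤ K := (le_max_left _ _).trans (le_max_left _ _)
  have e2 : K2 ≤ K := (le_max_right _ _).trans (le_max_left _ _)
  have e3 : N ≤ K := le_max_right _ _
  obtain ⟨b1, b2, b3⟩ := hK2 K e2
  have b4 : cnt (PK a K K) (r + 1) = q := (hK1 K e1).2.2
  have b5 : ((PK a K K).roots.filter fun w => ‖w‖ ≤ r).card = q := by
    rw [← b4, cnt]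
    congr 1
    refine Multiset.filter_congr fun w hw => ?_
    constructor
    · intro h3
      linarith
    · intro h3
      rcases b2 w hw with h4 | h4
      · exact h4
      · linarith
  have hrad : r * fac a q N K < R := by
    have h3 : r * fac a q N K ≤ r * C := mul_le_mul_of_nonneg_left (hC K) hr
    linarith
  obtain ⟨c1, c2, c3⟩ := iter (N := N) (by omega) hr b1 b2 b5 (K - N) N (by omega) le_rfl hrad
  have hall : (PK a K N).roots.filter (fun w => ‖w‖ ≤ r * fac a q N K) = (PK a K N).roots := by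
    rw [Multiset.filter_eq_self]
    intro w hw
    rcases c2 w hw with h4 | h4
    · exact h4
    · have h5 := root_bound hc (hlead K) haN hw
      linarith
  rw [hall, ← (IsAlgClosed.splits _).natDegree_eq_card_roots, natDegree_PK haN] at c3
  omega

end Run7.h302.PG
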