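import Mathlib

/-!
# Counting the zeros of a polynomial in a disc
-/

set_option autoImplicit false

namespace Run7.h302.PG

open Polynomial Metric Complex

/-- The number of zeros in the open disc of radius `ρ`. -/
noncomputable def cnt (P : ℂ[X]) (ρ : ℝ) : ℕ := (P.roots.filter fun w => ‖w‖ < ρ).card

theorem int_sum (s : Multiset ℂ) {ρ : ℝ} (hρ : 0 < ρ) (hs : ∀ w ∈ s, ‖w‖ ≠ ρ) :
    CircleIntegrable (fun z => (s.map fun w => 1 / (z - w)).sum) 0 ρ ∧
    (∮ z in C(0, ρ), (s.map fun w => 1 / (z - w)).sum) =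
      2 * Real.pi * I * (s.filter fun w => ‖w‖ < ρ).card := by
  induction s using Multiset.induction_on with
  | empty =>
    simp only [Multiset.map_zero, Multiset.sum_zero, Multiset.filter_zero, Multiset.card_zero,
      Nat.cast_zero, mul_zero]
    exact ⟨circleIntegrable_const _ _ _, by
      rw [circleIntegral.integral_congr (g := fun _ => (0 : ℂ)) hρ.le (fun _ _ => rfl)]
      simp [circleIntegral]⟩
  | cons w s ih =>
    obtain ⟨h1, h2⟩ := ih fun v hv => hs v (Multiset.mem_cons_of_mem hv)
    have hw : ‖w‖ ≠ ρ := hs w (Multiset.mem_cons_self w s)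
    have hc : ContinuousOn (fun z : ℂ => 1 / (z - w)) (sphere 0 ρ) := by
      refine ContinuousOn.div continuousOn_const (continuousOn_id.sub continuousOn_const) ?_
      intro z hz h0
      rw [mem_sphere_zero_iff_norm] at hz
      rw [sub_eq_zero] at h0
      exact hw (by rw [← h0]; exact hz)
    have h3 : CircleIntegrable (fun z : ℂ => 1 / (z - w)) 0 ρ := hc.circleIntegrable hρ.le
    have h4 : (∮ z in C(0, ρ), 1 / (z - w)) = if ‖w‖ < ρ then 2 * Real.pi * I else 0 := by
      by_cases hlt : ‖w‖ < ρ
      · rw [if_pos hlt]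
        have h5 := circleIntegral.integral_sub_inv_of_mem_ball (c := 0) (w := w) (R := ρ)
          (by rw [mem_ball_zero_iff]; exact hlt)
        simpa only [one_div] using h5
      · rw [if_neg hlt]
        have hgt : ρ < ‖w‖ := lt_of_le_of_ne (not_lt.1 hlt) (Ne.symm hw)
        refine circleIntegral_eq_zero_of_differentiable_on_off_countable hρ.le
          Set.countable_empty ?_ ?_
        · refine ContinuousOn.div continuousOn_const (continuousOn_id.sub continuousOn_const) ?_
          intro z hz h0
          rw [mem_closedBall_zero_iff] at hz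
          rw [sub_eq_zero] at h0
          have h6 : z = w := h0
          rw [h6] at hz
          linarith
        · intro z hz
          have hz1 : z ∈ ball (0 : ℂ) ρ := hz.1
          rw [mem_ball_zero_iff] at hz1
          refine DifferentiableAt.div (differentiableAt_const _)
            (differentiableAt_id.sub (differentiableAt_const _)) ?_
          intro h0
          rw [sub_eq_zero] at h0
          have h6 : z = w := h0
          rw [h6] at hz1
          linarith
    have e1 : (fun z : ℂ => ((w ::ₘ s).map fun w => 1 / (z - w)).sum) =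
        fun z => 1 / (z - w) + (s.map fun w => 1 / (z - w)).sum := by
      funext z
      rw [Multiset.map_cons, Multiset.sum_cons]
    rw [e1]
    refine ⟨h3.add h1, ?_⟩
    rw [circleIntegral.integral_add h3 h1, h4, h2]
    by_cases hlt : ‖w‖ < ρ
    · rw [if_pos hlt, Multiset.filter_cons_of_pos (p := fun w : ℂ => ‖w‖ < ρ) s hlt, Multiset.card_cons]
      push_cast
      ring
    · rw [if_neg hlt, Multiset.filter_cons_of_neg (p := fun w : ℂ => ‖w‖ < ρ) s hlt, zero_add]

theorem int_logDeriv {P : ℂ[X]} {ρ : ℝ} (hρ : 0 < ρ)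
    (h : ∀ z : ℂ, ‖z‖ = ρ → P.eval z ≠ 0) :
    CircleIntegrable (fun z => P.derivative.eval z / P.eval z) 0 ρ ∧
    (∮ z in C(0, ρ), P.derivative.eval z / P.eval z) = 2 * Real.pi * I * cnt P ρ := by
  have hP : P ≠ 0 := by
    rintro rfl
    exact h (ρ : ℂ) (by rw [Complex.norm_real, Real.norm_of_nonneg hρ.le]) (by simp)
  have hs : ∀ w ∈ P.roots, ‖w‖ ≠ ρ := by
    intro w hw h0
    exact h w h0 ((mem_roots hP).1 hw)
  obtain ⟨h1, h2⟩ := int_sum P.roots hρ hs
  have h3 : Set.EqOn (fun z => P.derivative.eval z / P.eval z)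
      (fun z => (P.roots.map fun w => 1 / (z - w)).sum) (sphere 0 ρ) := by
    intro z hz
    rw [mem_sphere_zero_iff_norm] at hz
    exact (IsAlgClosed.splits P).eval_derivative_div_eval_of_ne_zero (h z hz)
  refine ⟨?_, ?_⟩
  · have hc : ContinuousOn (fun z => P.derivative.eval z / P.eval z) (sphere 0 ρ) := by
      refine ContinuousOn.div P.derivative.continuousOn P.continuousOn ?_
      intro z hz
      rw [mem_sphere_zero_iff_norm] at hz
      exact h z hz
    exact hc.circleIntegrable hρ.le
  · rw [circleIntegral.integral_congr hρ.le h3, h2]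
    rfl

/-- Two polynomials whose quotient has positive real part on a circle. -/
theorem cnt_eq {P P1 : ℂ[X]} {ρ : ℝ} (hρ : 0 < ρ)
    (h : ∀ z : ℂ, ‖z‖ = ρ → P.eval z ≠ 0 ∧ 0 < (P1.eval z / P.eval z).re) :
    cnt P1 ρ = cnt P ρ := by
  have hP1 : ∀ z : ℂ, ‖z‖ = ρ → P1.eval z ≠ 0 := by
    intro z hz h0
    have h1 := (h z hz).2
    rw [h0, zero_div, Complex.zero_re] at h1
    exact lt_irrefl _ h1
  obtain ⟨a1, a2⟩ := int_logDeriv hρ fun z hz => (h z hz).1
  obtain ⟨b1, b2⟩ := int_logDeriv hρ hP1
  have h1 : (∮ z in C(0, ρ), (P1.derivative.eval z / P1.eval z -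
      P.derivative.eval z / P.eval z)) = 0 := by
    refine circleIntegral.integral_eq_zero_of_hasDerivWithinAt
      (f := fun z => Complex.log (P1.eval z / P.eval z)) hρ.le fun z hz => ?_
    rw [mem_sphere_zero_iff_norm] at hz
    obtain ⟨c1, c2⟩ := h z hz
    have c3 := hP1 z hz
    have d1 : HasDerivAt (fun z => P1.eval z / P.eval z)
        ((P1.derivative.eval z * P.eval z - P1.eval z * P.derivative.eval z) / P.eval z ^ 2) z :=
      (P1.hasDerivAt z).div (P.hasDerivAt z) c1
    have d2 := d1.clog (Or.inl c2)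
    refine (d2.congr_deriv ?_).hasDerivWithinAt
    field_simp
  rw [circleIntegral.integral_sub b1 a1, a2, b2] at h1
  have h2 : (2 * Real.pi * I : ℂ) ≠ 0 := by
    simp [Real.pi_ne_zero]
  have h3 : (2 * Real.pi * I : ℂ) * ((cnt P1 ρ : ℂ) - cnt P ρ) = 0 := by
    rw [mul_sub]
    exact h1
  have h4 := (mul_eq_zero.1 h3).resolve_left h2
  exact_mod_cast sub_eq_zero.1 h4

end Run7.h302.PG
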