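import Pool.Agent.Run7.h302.PG.FamQ

/-!
# Gap curves with boundary: dichotomy
-/

set_option autoImplicit false

namespace Run7.h302.PG

open MvPolynomial Set Filter Topology
open Pool.Agent.TH143.GT (GenPt)
open Pool.Agent.TH600.LC

/-- The value of a form along the family. -/
theorem rel_E {Y : Set (ℂ → ℂ)} {N s m : ℕ} {f : ℂ → Fin N → ℂ} (D : Pfm Y f s m) {i0 : Fin s}
    {Q : MvPolynomial (Fin N) ℂ} (hQ : ∀ z, eval (f z) Q = D.y z i0) {z : ℂ}
    (hz : D.a.eval z ≠ 0) (x : Fin m → ℂ) : eval (D.Ψ z x) Q = D.y z i0 := by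
  have h1 : ∀ v : Fin s ⊕ Fin m → ℂ, eval v (bind₁ D.Q Q) = eval (fun j => eval v (D.Q j)) Q := by
    intro v
    rw [MvPolynomial.eval, MvPolynomial.eval₂Hom_bind₁]
    rfl
  have h2 := D.zero (bind₁ D.Q Q - X (Sum.inl i0)) (fun w => by
    rw [map_sub, h1, eval_X, Sum.elim_inl, ← hQ w, sub_eq_zero]
    congr 2
    funext j
    exact (D.fQ w j).symm) z x hz
  rw [map_sub, h1, eval_X, Sum.elim_inl, sub_eq_zero] at h2
  exact h2

theorem exists_pfmE {Y : Set (ℂ → ℂ)} (hY : ∀ u ∈ Y, Differentiable ℂ u ∧ DAlg u) {N : ℕ}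
    {f : ℂ → Fin N → ℂ} (hf : ∀ j, (fun z => f z j) ∈ GapOver Y 0) {E : ℂ → ℂ} (hE : E ∈ Y) :
    ∃ (s m : ℕ) (D : Pfm Y f s m) (i0 : Fin s), ∀ z, D.y z i0 = E z := by
  obtain ⟨s, m, y, g, Q, hy, hg, hQ⟩ := exists_repr_pair Y hf
  let y' : ℂ → Fin (s + 1) → ℂ := fun z => Fin.snoc (α := fun _ => ℂ) (y z) (E z)
  have hy1 : ∀ z (i : Fin s), y' z i.castSucc = y z i := fun z i => by
    simp only [y', Fin.snoc_castSucc]
  have hy2 : ∀ z, y' z (Fin.last s) = E z := fun z => by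
    simp only [y', Fin.snoc_last]
  have hyY : ∀ i, (fun z => y' z i) ∈ Y := by
    intro i
    refine Fin.lastCases ?_ (fun i => ?_) i
    · have h1 : (fun z => y' z (Fin.last s)) = E := funext hy2
      rw [h1]
      exact hE
    · have h1 : (fun z => y' z i.castSucc) = fun z => y z i := funext fun z => hy1 z i
      rw [h1]
      exact hy i
  obtain ⟨a, I, p, b, ha, hrel, hz⟩ := structure_coef (y := y') (fun i => (hY _ (hyY i)).1)
    (fun i => (hY _ (hyY i)).2) hg
  refine ⟨s + 1, m, ⟨y', g, fun j => rename (Sum.map Fin.castSucc id) (Q j), a, I, p, b, hyY,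
    fun i => (hY _ (hyY i)).1, fun i => (hg i).1, fun z j => ?_, ha, hrel, hz⟩, Fin.last s, hy2⟩
  rw [hQ, eval_rename]
  congr 2
  funext i
  rcases i with i | i
  · simp only [Function.comp_apply, Sum.map_inl, Sum.elim_inl, hy1]
  · simp only [Function.comp_apply, Sum.map_inr, Sum.elim_inr, id]

theorem root_near {q : ℕ} (hq : 0 < q) : ∀ᶠ x : ℂ in 𝓝 1, x ^ q = 1 → x = 1 := by
  have hfin : ({x : ℂ | x ^ q = 1} \ {1}).Finite := by
    refine Set.Finite.subset ?_ Set.sdiff_subset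
    have h1 : {x : ℂ | x ^ q = 1} ⊆ {x : ℂ | (Polynomial.X ^ q - 1 : Polynomial ℂ).IsRoot x} := by
      intro x hx
      have hx' : x ^ q = 1 := hx
      simp [Polynomial.IsRoot, hx']
    refine Set.Finite.subset (Polynomial.finite_setOfPred_isRoot ?_) h1
    exact (Polynomial.monic_X_pow_sub_C (1 : ℂ) hq.ne').ne_zero
  have hopen : ({x : ℂ | x ^ q = 1} \ {1})ᶜ ∈ 𝓝 (1 : ℂ) :=
    hfin.isClosed.isOpen_compl.mem_nhds (by
      rintro ⟨-, h⟩
      exact h rfl)
  filter_upwards [hopen] with x hx h1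
  by_contra h2
  exact hx ⟨h1, h2⟩

/-- **Dichotomy** with boundary. -/
theorem core0 {Y : Set (ℂ → ℂ)} (hY : ∀ u ∈ Y, Differentiable ℂ u ∧ DAlg u) {n : ℕ}
    {h : ℂ → Fin (n + 1) → ℂ} (hh : ∀ j, (fun z => h z j) ∈ GapOver Y 0) (h0 : ∃ z, h z ≠ 0)
    {E : ℂ → ℂ} (hE : E ∈ Y) (hE0 : ∃ z, E z ≠ 0) {Q : MvPolynomial (Fin (n + 1)) ℂ} {q : ℕ}
    (hQ : Q.IsHomogeneous q) (hQE : ∀ z, eval (h z) Q = E z) {K : Type} [Field K] [Algebra ℂ K]
    {w : ℕ} {y : Fin (n + 1) → K} (hy : GenPt h Set.univ K w y) :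
    A1Fam y Q ∨ ∃ (a : Polynomial ℂ) (u : ℂ → Fin (n + 1) → ℂ), a ≠ 0 ∧
      (∀ j, (fun z => u z j) ∈ CoefRing Y) ∧ (∃ z, u z ≠ 0) ∧
      (∀ z j k, u z j * h z k = u z k * h z j) ∧ (0 < q → ∀ z j, a.eval z * h z j = u z j) := by
  obtain ⟨s, m, D, i0, hi0⟩ := exists_pfmE hY hh hE
  obtain ⟨d, hdj⟩ := D.exists_deg
  have hQD : ∀ z, eval (h z) Q = D.y z i0 := fun z => by rw [hQE, hi0]
  by_cases hcase : ∃ z0 x0 x1 j k, D.a.eval z0 ≠ 0 ∧
      D.Ψ z0 x0 j * D.Ψ z0 x1 k ≠ D.Ψ z0 x1 j * D.Ψ z0 x0 k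
  · obtain ⟨z0, x0, x1, j, k, ha, hne⟩ := hcase
    left
    refine gd_mainQ D.gd hy ?_ ?_ hQ (e := D.cy i0) ?_ ?_ (z0 := z0) ?_ (x0 := x0) (x1 := x1)
      (j := j) (k := k) ?_
    · rintro G - hG z x hz
      rw [D.gd_a] at hz
      rw [D.gd_Ψ]
      exact D.rel_Ψ hG hz x
    · rintro G - hG
      refine ent_mul' D.a.differentiable (differentiable_eval D.hd G) D.exists_a fun z hz => ?_
      have h1 := hG z (D.g z) (by rwa [D.gd_a])
      rwa [D.gd_Ψ, D.Ψ_g hz] at h1
    · intro hcy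
      obtain ⟨z, hz⟩ := hE0
      apply hz
      rw [← hi0, ← D.evC_cy z i0, hcy, map_zero]
    · intro z x hz
      rw [D.gd_a] at hz
      rw [D.gd_Ψ, rel_E D hQD hz]
      exact (D.evC_cy z i0).symm
    · rwa [D.gd_a]
    · rwa [D.gd_Ψ, D.gd_Ψ]
  · push Not at hcase
    right
    have hex : ∃ z, D.a.eval z ≠ 0 ∧ h z ≠ 0 ∧ E z ≠ 0 := by
      by_contra hcon
      push Not at hcon
      have hEd := (hY E hE).1
      have h1 : ∀ z, h z ≠ 0 → E z = 0 := by
        intro z1 hz1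
        obtain ⟨k, hk⟩ := Function.ne_iff.1 hz1
        have hk' : h z1 k ≠ 0 := hk
        have hda : Differentiable ℂ (fun z => D.a.eval z * h z k) :=
          D.a.differentiable.mul (D.hd k)
        by_cases hak : ∃ z, D.a.eval z * h z k ≠ 0
        · refine ent_mul' hda hEd hak (fun z hz => hcon z (left_ne_zero_of_mul hz) ?_) z1
          intro h2
          rw [h2] at hz
          simp at hz
        · exfalso
          push Not at hak
          exact hk' (ent_mul D.a.differentiable (D.hd k) hak D.exists_a z1)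
      obtain ⟨z1, hz1⟩ := h0
      obtain ⟨k, hk⟩ := Function.ne_iff.1 hz1
      obtain ⟨z2, hz2⟩ := hE0
      refine hz2 (ent_mul' (D.hd k) hEd ⟨z1, hk⟩ (fun z hz => h1 z ?_) z2)
      intro h2
      rw [h2] at hz
      exact hz rfl
    obtain ⟨z1, hz1, hh1, hE1⟩ := hex
    set x1 : Fin m → ℂ := D.g z1 with hx1
    have hmem : ∀ j, D.UU d (fun l _ => x1 l) j ∈ CoefRing Y := fun j =>
      D.UU_mem d le_rfl (fun l => (CoefRing Y).algebraMap_mem (x1 l)) j
    have hdu : ∀ j, Differentiable ℂ (D.UU d (fun l _ => x1 l) j) := fun j =>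
      differentiable_coef (fun u hu => (hY u hu).1) (hmem j)
    refine ⟨D.a ^ d, fun z j => D.UU d (fun l _ => x1 l) j z, pow_ne_zero _ D.a0,
      fun j => hmem j, ⟨z1, fun h2 => hh1 ?_⟩, ?_, ?_⟩
    · funext j
      have h3 : D.UU d (fun l _ => x1 l) j z1 = 0 := congrFun h2 j
      rw [D.UU_eval (hdj j) _ hz1] at h3
      have h4 := (mul_eq_zero.1 h3).resolve_left (pow_ne_zero _ hz1)
      rw [show (fun l => x1 l) = D.g z1 from rfl, D.Ψ_g hz1] at h4
      exact h4
    · intro z j k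
      have h2 := ent_mul' (F := fun z => D.UU d (fun l _ => x1 l) j z * h z k -
          D.UU d (fun l _ => x1 l) k z * h z j) D.a.differentiable
        (((hdu j).mul (D.hd k)).sub ((hdu k).mul (D.hd j))) D.exists_a (fun z hz => by
          rw [D.UU_eval (hdj j) _ hz, D.UU_eval (hdj k) _ hz]
          have h3 := hcase z x1 (D.g z) j k hz
          rw [D.Ψ_g hz] at h3
          linear_combination D.a.eval z ^ d * h3) z
      exact sub_eq_zero.1 h2
    · intro hq z j
      obtain ⟨k0, hk0⟩ := Function.ne_iff.1 hh1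
      have hk0' : h z1 k0 ≠ 0 := hk0
      -- near `z1` the family is equal to the curve
      have hU : ∀ i, Differentiable ℂ (fun z => D.UU d (fun l _ => x1 l) i z) := hdu
      have hUz1 : ∀ i, D.UU d (fun l _ => x1 l) i z1 = D.a.eval z1 ^ d * h z1 i := by
        intro i
        rw [D.UU_eval (hdj i) _ hz1, show (fun l => x1 l) = D.g z1 from rfl, D.Ψ_g hz1]
      have hc : ContinuousAt (fun z => D.UU d (fun l _ => x1 l) k0 z /
          (D.a.eval z ^ d * h z k0)) z1 := by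
        refine ContinuousAt.div (hU k0).continuous.continuousAt ?_
          (mul_ne_zero (pow_ne_zero _ hz1) hk0')
        exact ((D.a.continuous.continuousAt).pow d).mul (D.hd k0).continuous.continuousAt
      have hc1 : Tendsto (fun z => D.UU d (fun l _ => x1 l) k0 z /
          (D.a.eval z ^ d * h z k0)) (𝓝 z1) (𝓝 1) := by
        have h2 := hc.tendsto
        rwa [hUz1, div_self (mul_ne_zero (pow_ne_zero _ hz1) hk0')] at h2
      have ev1 := hc1.eventually (root_near hq)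
      have ev2 : ∀ᶠ z in 𝓝 z1, D.a.eval z ≠ 0 := D.a.continuous.continuousAt.eventually_ne hz1
      have ev3 : ∀ᶠ z in 𝓝 z1, h z k0 ≠ 0 := (D.hd k0).continuous.continuousAt.eventually_ne hk0'
      have ev4 : ∀ᶠ z in 𝓝 z1, E z ≠ 0 :=
        (hY E hE).1.continuous.continuousAt.eventually_ne hE1
      have key : ∀ᶠ z in 𝓝 z1, (D.a ^ d).eval z * h z j - D.UU d (fun l _ => x1 l) j z = 0 := by
        filter_upwards [ev1, ev2, ev3, ev4] with z e1 e2 e3 e4
        rw [D.UU_eval (hdj k0) _ e2, mul_div_mul_left _ _ (pow_ne_zero _ e2)] at e1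
        have e5 : ∀ i, D.Ψ z (fun l => x1 l) i =
            D.Ψ z (fun l => x1 l) k0 / h z k0 * h z i := by
          intro i
          have h3 := hcase z x1 (D.g z) i k0 e2
          rw [D.Ψ_g e2] at h3
          field_simp
          linear_combination h3
        have e6 : (D.Ψ z (fun l => x1 l) k0 / h z k0) ^ q = 1 := by
          have h3 := rel_E D hQD e2 (fun l => x1 l)
          have h4 : D.Ψ z (fun l => x1 l) = fun i =>
              (D.Ψ z (fun l => x1 l) k0 / h z k0) * h z i := funext e5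
          rw [h4, Pool.Agent.TH600.LC.eval_smul_homog hQ, hQE, hi0] at h3
          have h5 : ((D.Ψ z (fun l => x1 l) k0 / h z k0) ^ q - 1) * E z = 0 := by
            linear_combination h3
          exact sub_eq_zero.1 ((mul_eq_zero.1 h5).resolve_right e4)
        have e7 := e1 e6
        rw [D.UU_eval (hdj j) _ e2, e5 j, e7, Polynomial.eval_pow]
        ring
      have h6 := ent_zero_of_near (F := fun z => (D.a ^ d).eval z * h z j -
        D.UU d (fun l _ => x1 l) j z) (((D.a ^ d).differentiable.mul (D.hd j)).sub (hU j)) key z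
      exact sub_eq_zero.1 h6

end Run7.h302.PG
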