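import Mathlib

/-!
# Zero-free entire functions of finite order
-/

set_option autoImplicit false

namespace Run7.h302.PG

open Complex Filter Topology Metric

/-- An entire function without zeros is the exponential of an entire function. -/
theorem ent_log {f : ℂ → ℂ} (hf : Differentiable ℂ f) (h0 : ∀ z, f z ≠ 0) :
    ∃ g : ℂ → ℂ, Differentiable ℂ g ∧ ∀ z, f z = Complex.exp (g z) := by
  have hd : Differentiable ℂ (fun z => deriv f z / f z) := by
    intro z
    have h1 : DifferentiableAt ℂ (deriv f) z :=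
      (hf.analyticAt z).deriv.differentiableAt
    exact h1.div (hf z) (h0 z)
  obtain ⟨g0, hg0⟩ := hd.isExactOn_univ
  have hg : ∀ z, HasDerivAt g0 (deriv f z / f z) z := fun z => hg0 z (Set.mem_univ z)
  have hconst : ∀ z w, f z * Complex.exp (- g0 z) = f w * Complex.exp (- g0 w) := by
    apply is_const_of_deriv_eq_zero (f := fun z => f z * Complex.exp (- g0 z)) (𝕜 := ℂ)
    · intro z
      exact (hf z).mul ((hg z).neg.cexp.differentiableAt)
    · intro z
      have h1 : HasDerivAt (fun z => f z * Complex.exp (- g0 z))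
          (deriv f z * Complex.exp (- g0 z) +
            f z * (Complex.exp (- g0 z) * -(deriv f z / f z))) z :=
        ((hf z).hasDerivAt).mul (hg z).neg.cexp
      rw [h1.deriv]
      have := h0 z
      field_simp
      ring
  have hc : f 0 * Complex.exp (- g0 0) ≠ 0 := mul_ne_zero (h0 0) (Complex.exp_ne_zero _)
  refine ⟨fun z => Complex.log (f 0 * Complex.exp (- g0 0)) + g0 z, ?_, ?_⟩
  · intro z
    exact (differentiableAt_const _).add (hg z).differentiableAt
  · intro z
    rw [Complex.exp_add, Complex.exp_log hc, ← hconst z 0, mul_assoc, ← Complex.exp_add]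
    simp

/-- An entire function of polynomial growth is a polynomial. -/
theorem poly_growth {g : ℂ → ℂ} (hg : Differentiable ℂ g) {B : ℝ} {k : ℕ}
    (h : ∀ z, ‖g z‖ ≤ B * (1 + ‖z‖) ^ k) : ∃ P : Polynomial ℂ, ∀ z, g z = P.eval z := by
  have hB : 0 ≤ B := by
    have h1 := h 0
    rw [norm_zero, add_zero, one_pow, mul_one] at h1
    exact (norm_nonneg _).trans h1
  have hz : ∀ n, k < n → iteratedDeriv n g 0 = 0 := by
    intro n hn
    rw [← norm_le_zero_iff]
    apply le_of_forall_pos_le_add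
    intro ε hε
    rw [zero_add]
    have h1 : Tendsto (fun R : ℝ => (n.factorial : ℝ) * (B * 2 ^ k) * R⁻¹) atTop (𝓝 0) := by
      have := (tendsto_inv_atTop_zero (𝕜 := ℝ)).const_mul ((n.factorial : ℝ) * (B * 2 ^ k))
      rwa [mul_zero] at this
    obtain ⟨R, hR1, hR2⟩ := ((h1.eventually (gt_mem_nhds hε)).and (eventually_ge_atTop 1)).exists
    have hR0 : 0 < R := by linarith
    have h2 := Complex.norm_iteratedDeriv_le_of_forall_mem_sphere_norm_le n (c := 0) (f := g)
      (C := B * (2 * R) ^ k) hR0 hg.diffContOnCl (fun z hz => by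
        rw [mem_sphere_zero_iff_norm] at hz
        refine (h z).trans ?_
        rw [hz]
        exact mul_le_mul_of_nonneg_left (pow_le_pow_left₀ (by linarith) (by linarith) k) hB)
    refine h2.trans (le_trans ?_ hR1.le)
    have h3 : R ^ k * R ≤ R ^ n := by
      rw [← pow_succ]
      exact pow_le_pow_right₀ hR2 (by omega)
    rw [mul_pow, div_le_iff₀ (pow_pos hR0 n)]
    have h4 : (n.factorial : ℝ) * (B * 2 ^ k) * R⁻¹ * R ^ n =
        (n.factorial : ℝ) * (B * 2 ^ k) * (R ^ n / R) := by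
      field_simp
    rw [h4]
    have h5 : R ^ k ≤ R ^ n / R := by
      rw [le_div_iff₀ hR0]
      exact h3
    have h6 : 0 ≤ (n.factorial : ℝ) * (B * 2 ^ k) := by positivity
    calc (n.factorial : ℝ) * (B * (2 ^ k * R ^ k)) = (n.factorial : ℝ) * (B * 2 ^ k) * R ^ k := by
          ring
      _ ≤ _ := mul_le_mul_of_nonneg_left h5 h6
  refine ⟨∑ n ∈ Finset.range (k + 1), Polynomial.C (((n.factorial : ℂ))⁻¹ *
    iteratedDeriv n g 0) * Polynomial.X ^ n, fun z => ?_⟩
  have h1 := Complex.hasSum_taylorSeries_of_entire hg 0 z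
  simp only [sub_zero, smul_eq_mul] at h1
  have h2 : HasSum (fun n : ℕ => ((n.factorial : ℂ))⁻¹ * (z ^ n * iteratedDeriv n g 0))
      (∑ n ∈ Finset.range (k + 1), ((n.factorial : ℂ))⁻¹ * (z ^ n * iteratedDeriv n g 0)) := by
    refine hasSum_sum_of_ne_finset_zero fun n hn => ?_
    rw [Finset.mem_range] at hn
    rw [hz n (by omega), mul_zero, mul_zero]
  rw [h1.unique h2, Polynomial.eval_finsetSum]
  refine Finset.sum_congr rfl fun n _ => ?_
  simp
  ring

/-- The function has finite order. -/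
def FinOrd (f : ℂ → ℂ) : Prop := ∃ (A : ℝ) (k : ℕ), ∀ z, ‖f z‖ ≤ Real.exp (A * (1 + ‖z‖) ^ k)

/-- **Zero-free entire functions of finite order** are exponentials of polynomials. -/
theorem exp_poly {f : ℂ → ℂ} (hf : Differentiable ℂ f) (h0 : ∀ z, f z ≠ 0) (ho : FinOrd f) :
    ∃ P : Polynomial ℂ, ∀ z, f z = Complex.exp (P.eval z) := by
  obtain ⟨g, hg, hfg⟩ := ent_log hf h0
  obtain ⟨A, k, hA⟩ := ho
  set A' := max A 1 with hA'
  have hA0 : 0 < A' := lt_of_lt_of_le one_pos (le_max_right _ _)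
  have hre : ∀ z, (g z).re ≤ A' * (1 + ‖z‖) ^ k := by
    intro z
    have h1 := hA z
    rw [hfg, Complex.norm_exp, Real.exp_le_exp] at h1
    exact h1.trans (mul_le_mul_of_nonneg_right (le_max_left _ _) (by positivity))
  have hb : ∀ z, ‖g z‖ ≤ (2 * A' * 2 ^ k + 3 * ‖g 0‖) * (1 + ‖z‖) ^ k := by
    intro z
    set R := 2 * ‖z‖ + 1 with hR
    have hR0 : 0 < R := by positivity
    have hzR : z ∈ ball (0 : ℂ) R := by
      rw [mem_ball_zero_iff]
      linarith [norm_nonneg z]
    have h1 := Complex.borelCaratheodory (M := A' * (1 + R) ^ k) (f := g) (R := R) (z := z)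
      (by positivity) hg.differentiableOn (fun x hx => by
        rw [mem_ball_zero_iff] at hx
        refine (hre x).trans ?_
        have h2 : (1 + ‖x‖) ^ k ≤ (1 + R) ^ k := pow_le_pow_left₀ (by positivity) (by linarith) k
        exact mul_le_mul_of_nonneg_left h2 hA0.le) hR0 hzR
    have h3 : R - ‖z‖ = 1 + ‖z‖ := by rw [hR]; ring
    rw [h3] at h1
    have hp : 0 < 1 + ‖z‖ := by positivity
    have h4 : 2 * (A' * (1 + R) ^ k) * ‖z‖ / (1 + ‖z‖) ≤ 2 * (A' * (1 + R) ^ k) := by
      rw [div_le_iff₀ hp]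
      have : 0 ≤ 2 * (A' * (1 + R) ^ k) := by positivity
      nlinarith [norm_nonneg z]
    have h5 : ‖g 0‖ * (R + ‖z‖) / (1 + ‖z‖) ≤ 3 * ‖g 0‖ := by
      rw [div_le_iff₀ hp]
      nlinarith [norm_nonneg z, norm_nonneg (g 0)]
    have h6 : (1 + R) ^ k = 2 ^ k * (1 + ‖z‖) ^ k := by
      rw [← mul_pow]
      congr 1
      rw [hR]
      ring
    have h7 : 1 ≤ (1 + ‖z‖) ^ k := one_le_pow₀ (by linarith [norm_nonneg z])
    rw [h6] at h4 h1
    have h8 : 3 * ‖g 0‖ ≤ 3 * ‖g 0‖ * (1 + ‖z‖) ^ k :=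
      le_mul_of_one_le_right (by positivity) h7
    calc ‖g z‖ ≤ _ := h1
      _ ≤ 2 * (A' * (2 ^ k * (1 + ‖z‖) ^ k)) + 3 * ‖g 0‖ * (1 + ‖z‖) ^ k := by linarith
      _ = _ := by ring
  obtain ⟨P, hP⟩ := poly_growth hg hb
  exact ⟨P, fun z => by rw [hfg, hP]⟩

end Run7.h302.PG
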