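import Pool.Agent.Run7.h302.PG.Bier

/-!
# Sets of exponents with few elements
-/

set_option autoImplicit false

namespace Run7.h302.PG

open Finset

/-- The number of elements below `2 ^ k` is bounded by a polynomial in `k`. -/
def PL (A : Set ℕ) : Prop := ∃ s c : ℕ, ∀ k : ℕ, (A ∩ Set.Iio (2 ^ k)).ncard ≤ c * (k + 1) ^ s

theorem fin_Iio (A : Set ℕ) (k : ℕ) : (A ∩ Set.Iio k).Finite :=
  (Set.finite_Iio k).subset Set.inter_subset_right

theorem PL.mono {A B : Set ℕ} (hB : PL B) (h : A ⊆ B) : PL A := by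
  obtain ⟨s, c, hc⟩ := hB
  exact ⟨s, c, fun k => (Set.ncard_le_ncard (Set.inter_subset_inter_left _ h)
    (fin_Iio _ _)).trans (hc k)⟩

theorem PL.union {A B : Set ℕ} (hA : PL A) (hB : PL B) : PL (A ∪ B) := by
  obtain ⟨s, c, hc⟩ := hA
  obtain ⟨t, d, hd⟩ := hB
  refine ⟨s + t, c + d, fun k => ?_⟩
  rw [Set.union_inter_distrib_right]
  refine (Set.ncard_union_le _ _).trans ?_
  have h1 : (k + 1) ^ s ≤ (k + 1) ^ (s + t) := Nat.pow_le_pow_right (by omega) (by omega)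
  have h2 : (k + 1) ^ t ≤ (k + 1) ^ (s + t) := Nat.pow_le_pow_right (by omega) (by omega)
  calc _ ≤ c * (k + 1) ^ s + d * (k + 1) ^ t := add_le_add (hc k) (hd k)
    _ ≤ c * (k + 1) ^ (s + t) + d * (k + 1) ^ (s + t) := by gcongr
    _ = (c + d) * (k + 1) ^ (s + t) := by ring

theorem pl_singleton (n : ℕ) : PL {n} := by
  refine ⟨0, 1, fun k => ?_⟩
  rw [pow_zero, mul_one]
  exact (Set.ncard_le_ncard Set.inter_subset_left (Set.finite_singleton n)).trans
    (by rw [Set.ncard_singleton])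

theorem PL.add {A B : Set ℕ} (hA : PL A) (hB : PL B) :
    PL {n | ∃ a ∈ A, ∃ b ∈ B, n = a + b} := by
  obtain ⟨s, c, hc⟩ := hA
  obtain ⟨t, d, hd⟩ := hB
  refine ⟨s + t, c * d, fun k => ?_⟩
  have h1 : {n | ∃ a ∈ A, ∃ b ∈ B, n = a + b} ∩ Set.Iio (2 ^ k) ⊆
      (fun p : ℕ × ℕ => p.1 + p.2) '' ((A ∩ Set.Iio (2 ^ k)) ×ˢ (B ∩ Set.Iio (2 ^ k))) := by
    rintro n ⟨⟨a, ha, b, hb, rfl⟩, hn⟩
    have hn' : a + b < 2 ^ k := hn
    exact ⟨(a, b), ⟨⟨ha, by change a < 2 ^ k; omega⟩, ⟨hb, by change b < 2 ^ k; omega⟩⟩, rfl⟩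
  have hfin := (fin_Iio A (2 ^ k)).prod (fin_Iio B (2 ^ k))
  calc _ ≤ _ := Set.ncard_le_ncard h1 (hfin.image _)
    _ ≤ ((A ∩ Set.Iio (2 ^ k)) ×ˢ (B ∩ Set.Iio (2 ^ k))).ncard := Set.ncard_image_le hfin
    _ = (A ∩ Set.Iio (2 ^ k)).ncard * (B ∩ Set.Iio (2 ^ k)).ncard := Set.ncard_prod
    _ ≤ (c * (k + 1) ^ s) * (d * (k + 1) ^ t) := Nat.mul_le_mul (hc k) (hd k)
    _ = c * d * (k + 1) ^ (s + t) := by ring

/-- Sets with few elements in dyadic intervals. -/
theorem pl_of_dyadic {A : Set ℕ} {r : ℕ}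
    (h : ∀ M : ℕ, 1 ≤ M → (A ∩ Set.Ico M (2 * M)).ncard ≤ r) : PL A := by
  have h1 : ∀ k : ℕ, (A ∩ Set.Iio (2 ^ k)).ncard ≤ 1 + r * k := by
    intro k
    induction k with
    | zero =>
      have h2 : A ∩ Set.Iio (2 ^ 0) ⊆ {0} := by
        rintro n ⟨-, hn⟩
        have hn' : n < 2 ^ 0 := hn
        rw [Set.mem_singleton_iff]
        omega
      refine (Set.ncard_le_ncard h2 (Set.finite_singleton 0)).trans ?_
      rw [Set.ncard_singleton]
      omega
    | succ k ih =>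
      have h2 : A ∩ Set.Iio (2 ^ (k + 1)) ⊆
          (A ∩ Set.Iio (2 ^ k)) ∪ (A ∩ Set.Ico (2 ^ k) (2 * 2 ^ k)) := by
        rintro n ⟨hn, hlt⟩
        have hlt' : n < 2 ^ (k + 1) := hlt
        rw [pow_succ] at hlt'
        by_cases h3 : n < 2 ^ k
        · exact Or.inl ⟨hn, h3⟩
        · exact Or.inr ⟨hn, by omega, by omega⟩
      refine (Set.ncard_le_ncard h2 ((fin_Iio _ _).union
        ((Set.finite_Ico _ _).subset Set.inter_subset_right))).trans ?_
      refine (Set.ncard_union_le _ _).trans ?_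
      have h3 := h (2 ^ k) Nat.one_le_two_pow
      calc _ ≤ (1 + r * k) + r := add_le_add ih h3
        _ = 1 + r * (k + 1) := by ring
  refine ⟨1, r + 1, fun k => (h1 k).trans ?_⟩
  rw [pow_one]
  nlinarith

theorem PL.summable {A : Set ℕ} (hA : PL A) {a : ℕ → ℂ} (h : ∀ n, a n ≠ 0 → n ∈ A) :
    Summable fun n : ℕ => if a n = 0 then (0 : ℝ) else 1 / (n : ℝ) := by
  classical
  obtain ⟨s, c, hc⟩ := hA
  set f : ℕ → ℝ := fun n => if a n = 0 then (0 : ℝ) else 1 / (n : ℝ) with hf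
  have hf0 : ∀ n, 0 ≤ f n := by
    intro n
    simp only [hf]
    split_ifs
    · exact le_rfl
    · positivity
  have hsum : Summable fun k : ℕ => (c : ℝ) * (((k : ℝ) + 2) ^ s * (1 / 2) ^ k) := by
    have h1 := summable_pow_mul_geometric_of_norm_lt_one (R := ℝ) s (r := 1 / 2) (by norm_num)
    have h2 := (summable_nat_add_iff 2).2 h1
    refine (h2.mul_left ((c : ℝ) * 4)).congr fun k => ?_
    push_cast
    rw [pow_add]
    ring
  have hg0 : ∀ k : ℕ, 0 ≤ (c : ℝ) * (((k : ℝ) + 2) ^ s * (1 / 2) ^ k) := fun k => by positivity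
  have hblock : ∀ k : ℕ, ∑ n ∈ Ico (2 ^ k) (2 ^ (k + 1)), f n ≤
      (c : ℝ) * (((k : ℝ) + 2) ^ s * (1 / 2) ^ k) := by
    intro k
    have h1 : ∀ n ∈ Ico (2 ^ k) (2 ^ (k + 1)), f n ≤ if ¬ a n = 0 then (1 / 2 : ℝ) ^ k else 0 := by
      intro n hn
      rw [mem_Ico] at hn
      simp only [hf]
      by_cases h2 : a n = 0
      · rw [if_pos h2, if_neg (not_not.2 h2)]
      · rw [if_neg h2, if_pos h2]
        have h3 : (2 : ℝ) ^ k ≤ n := by exact_mod_cast hn.1
        rw [one_div_pow]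
        exact one_div_le_one_div_of_le (by positivity) h3
    refine (Finset.sum_le_sum h1).trans ?_
    rw [← Finset.sum_filter, Finset.sum_const, nsmul_eq_mul]
    have h2 : (((Ico (2 ^ k) (2 ^ (k + 1))).filter fun n => ¬ a n = 0).card) ≤
        c * (k + 1 + 1) ^ s := by
      refine le_trans ?_ (hc (k + 1))
      rw [← Set.ncard_coe_finset]
      refine Set.ncard_le_ncard ?_ (fin_Iio _ _)
      intro n hn
      rw [Finset.mem_coe, mem_filter, mem_Ico] at hn
      exact ⟨h n hn.2, hn.1.2⟩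
    have h3 : ((((Ico (2 ^ k) (2 ^ (k + 1))).filter fun n => ¬ a n = 0).card : ℕ) : ℝ) ≤
        c * ((k : ℝ) + 2) ^ s := by
      have h4 : ((((Ico (2 ^ k) (2 ^ (k + 1))).filter fun n => ¬ a n = 0).card : ℕ) : ℝ) ≤
          ((c * (k + 1 + 1) ^ s : ℕ) : ℝ) := by exact_mod_cast h2
      refine h4.trans (le_of_eq ?_)
      push_cast
      ring
    calc _ ≤ (c * ((k : ℝ) + 2) ^ s) * (1 / 2) ^ k :=
          mul_le_mul_of_nonneg_right h3 (by positivity)
      _ = _ := by ring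
  have hpart : ∀ k : ℕ, ∑ n ∈ range (2 ^ k), f n ≤
      ∑ i ∈ range k, (c : ℝ) * (((i : ℝ) + 2) ^ s * (1 / 2) ^ i) := by
    intro k
    induction k with
    | zero =>
      rw [pow_zero, Finset.sum_range_one, Finset.range_zero, Finset.sum_empty]
      simp only [hf]
      split_ifs
      · exact le_rfl
      · simp
    | succ k ih =>
      rw [Finset.sum_range_succ, ← Finset.sum_range_add_sum_Ico f
        (Nat.pow_le_pow_right (by norm_num) (Nat.le_succ k))]
      exact add_le_add ih (hblock k)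
  refine summable_of_sum_range_le (c := ∑' k : ℕ, (c : ℝ) * (((k : ℝ) + 2) ^ s * (1 / 2) ^ k))
    hf0 fun n => ?_
  have h1 : n ≤ 2 ^ n := Nat.lt_two_pow_self.le
  calc ∑ i ∈ range n, f i ≤ ∑ i ∈ range (2 ^ n), f i :=
        Finset.sum_le_sum_of_subset_of_nonneg (Finset.range_subset_range.2 h1)
          fun i _ _ => hf0 i
    _ ≤ _ := hpart n
    _ ≤ _ := hsum.sum_le_tsum _ fun i _ => hg0 i

/-- The exponents of an entire function. -/
def Ex (f : ℂ → ℂ) : Set ℕ := {n | iteratedDeriv n f 0 ≠ 0}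

theorem ex_add {f g : ℂ → ℂ} (hf : Differentiable ℂ f) (hg : Differentiable ℂ g) :
    Ex (f + g) ⊆ Ex f ∪ Ex g := by
  intro n hn
  by_contra hcon
  rw [Set.mem_union, not_or] at hcon
  apply hn
  rw [iteratedDeriv_add hf.contDiff.contDiffAt hg.contDiff.contDiffAt,
    not_not.1 hcon.1, not_not.1 hcon.2, add_zero]

theorem ex_mul {f g : ℂ → ℂ} (hf : Differentiable ℂ f) (hg : Differentiable ℂ g) :
    Ex (f * g) ⊆ {n | ∃ a ∈ Ex f, ∃ b ∈ Ex g, n = a + b} := by
  intro n hn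
  have h1 : iteratedDeriv n (f * g) 0 ≠ 0 := hn
  rw [iteratedDeriv_mul hf.contDiff.contDiffAt hg.contDiff.contDiffAt] at h1
  obtain ⟨i, hi, h2⟩ := Finset.exists_ne_zero_of_sum_ne_zero h1
  rw [mem_range] at hi
  exact ⟨i, right_ne_zero_of_mul (left_ne_zero_of_mul h2), n - i, right_ne_zero_of_mul h2,
    by omega⟩

theorem ex_const (c : ℂ) : Ex (fun _ => c) ⊆ {0} := by
  intro n hn
  rw [Set.mem_singleton_iff]
  by_contra h0
  apply hn
  rw [iteratedDeriv_const, if_neg h0]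

/-- The algebra of the entire functions with few exponents. -/
theorem pl_adjoin {G : Set (ℂ → ℂ)} (hG : ∀ g ∈ G, Differentiable ℂ g ∧ PL (Ex g)) {f : ℂ → ℂ}
    (hf : f ∈ Algebra.adjoin ℂ G) : Differentiable ℂ f ∧ PL (Ex f) := by
  induction hf using Algebra.adjoin_induction with
  | mem g hg => exact hG g hg
  | algebraMap c => exact ⟨differentiable_const c, (pl_singleton 0).mono (ex_const c)⟩
  | add f g _ _ h1 h2 => exact ⟨h1.1.add h2.1, (h1.2.union h2.2).mono (ex_add h1.1 h2.1)⟩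
  | mul f g _ _ h1 h2 => exact ⟨h1.1.mul h2.1, (h1.2.add h2.2).mono (ex_mul h1.1 h2.1)⟩

/-- **Entire functions with few exponents** which have no zeros near infinity are polynomials. -/
theorem poly_of_pl {F : ℂ → ℂ} (hF : Differentiable ℂ F) (hA : PL (Ex F)) {r : ℝ}
    (h : ∀ z : ℂ, r ≤ ‖z‖ → F z ≠ 0) : ∃ P : Polynomial ℂ, ∀ z, F z = P.eval z := by
  let a : ℕ → ℂ := fun n => ((n.factorial : ℂ))⁻¹ * iteratedDeriv n F 0
  have ha : ∀ z, HasSum (fun n => a n * z ^ n) (F z) := by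
    intro z
    have h1 := Complex.hasSum_taylorSeries_of_entire hF 0 z
    simp only [sub_zero, smul_eq_mul] at h1
    have e : (fun n => a n * z ^ n) =
        fun n => ((n.factorial : ℂ))⁻¹ * (z ^ n * iteratedDeriv n F 0) := by
      funext n
      simp only [a]
      ring
    rw [e]
    exact h1
  obtain ⟨N, hN⟩ := bier (a := a) hF.continuous ha (hA.summable fun n hn =>
    right_ne_zero_of_mul hn) (le_max_right r 0) fun z hz => h z ((le_max_left r 0).trans hz)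
  refine ⟨∑ n ∈ range (N + 1), Polynomial.C (a n) * Polynomial.X ^ n, fun z => ?_⟩
  have h1 : HasSum (fun n => a n * z ^ n) (∑ n ∈ range (N + 1), a n * z ^ n) := by
    refine hasSum_sum_of_ne_finset_zero fun n hn => ?_
    rw [mem_range] at hn
    rw [hN n (by omega), zero_mul]
  rw [(ha z).unique h1, Polynomial.eval_finsetSum]
  refine Finset.sum_congr rfl fun n _ => ?_
  simp

theorem const_of_poly {F : ℂ → ℂ} {P : Polynomial ℂ} (hP : ∀ z, F z = P.eval z)
    (h : ∀ z, F z ≠ 0) : ∃ c : ℂ, c ≠ 0 ∧ ∀ z, F z = c := by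
  have h1 : P.degree = 0 := by
    by_contra hdeg
    obtain ⟨x, hx⟩ := IsAlgClosed.exists_root P hdeg
    exact h x (by rw [hP]; exact hx)
  have h2 := Polynomial.eq_C_of_degree_eq_zero h1
  refine ⟨P.coeff 0, ?_, fun z => by rw [hP, h2, Polynomial.eval_C, Polynomial.coeff_C_zero]⟩
  intro h0
  rw [h0, Polynomial.C_0] at h2
  rw [h2, Polynomial.degree_zero] at h1
  exact absurd h1 (by simp)

end Run7.h302.PG
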