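import Pool.Agent.TH600.LC.Flat
import Pool.Agent.TH143.GT.Fin

/-!
# Families of rational curves with boundary
-/

set_option autoImplicit false

namespace Run7.h302.PG

open MvPolynomial Metric Set Filter Topology
open Pool.Agent.TH143 Pool.Agent.TH143.GT Pool.Agent.W602.GT Pool.Agent.TH600.LC

/-- There is a family of affine lines which is not constant. -/
def A1Fam {n : ℕ} {K : Type} [Field K] [Algebra ℂ K] (y : Fin (n + 1) → K)
    (Q : MvPolynomial (Fin (n + 1)) ℂ) : Prop :=
  ∃ (M : Type) (_ : Field M) (_ : Algebra ℂ M) (m : ℕ) (W : Fin (n + 1) → Polynomial M),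
    Algebra.trdeg ℂ M = m ∧ Fam y Q W 0 ∧ ∃ j k : Fin (n + 1), y k ≠ 0 ∧
      Polynomial.derivative (W j) * W k ≠ W j * Polynomial.derivative (W k)

/-- Descent, with a family of affine lines. -/
theorem desc0 {N : ℕ} {R : Type} [CommRing R] [IsDomain R] [Algebra ℂ R]
    (W : Fin (N + 1) → Polynomial R) (j k : Fin (N + 1)) (Q : MvPolynomial (Fin (N + 1)) ℂ)
    (hQ : ∃ c : R, c ≠ 0 ∧ aeval W Q = Polynomial.C c)
    (hg : Polynomial.derivative (W j) * W k ≠ W j * Polynomial.derivative (W k)) :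
    ∃ (M : Type) (_ : Field M) (_ : Algebra ℂ M) (m : ℕ), Algebra.trdeg ℂ M = m ∧
      ∃ W' : Fin (N + 1) → Polynomial M,
        (∀ G : MvPolynomial (Fin (N + 1)) ℂ, aeval W' G = 0 ↔ aeval W G = 0) ∧
        (∃ c : M, c ≠ 0 ∧ aeval W' Q = Polynomial.C c) ∧
        Polynomial.derivative (W' j) * W' k ≠ W' j * Polynomial.derivative (W' k) := by
  classical
  let E := FractionRing R
  let i : R →ₐ[ℂ] E := IsScalarTower.toAlgHom ℂ R E
  have hi : Function.Injective i := IsFractionRing.injective R E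
  have hi' : Function.Injective (i : R →+* E) := hi
  let T : Finset E := Finset.univ.biUnion fun j => (W j).support.image fun n => i ((W j).coeff n)
  let M : IntermediateField ℂ E := IntermediateField.adjoin ℂ (T : Set E)
  have hess : Algebra.EssFiniteType ℂ M :=
    IntermediateField.essFiniteType_iff.2 ⟨T, rfl⟩
  have hlt := trdeg_lt_aleph0 ℂ M
  obtain ⟨m, hm⟩ := Cardinal.lt_aleph0.1 hlt
  have hl : ∀ j, ∃ w : Polynomial M, w.map (M.val : M →+* E) = (W j).map (i : R →+* E) := by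
    intro j
    have h1 : (W j).map (i : R →+* E) ∈ Polynomial.lifts (M.val : M →+* E) := by
      rw [Polynomial.lifts_iff_coeff_lifts]
      intro n
      rw [Polynomial.coeff_map]
      by_cases hn : (W j).coeff n = 0
      · rw [hn, map_zero]
        exact ⟨0, map_zero _⟩
      · have h2 : i ((W j).coeff n) ∈ M := by
          apply IntermediateField.subset_adjoin
          simp only [T, Finset.coe_biUnion, Finset.mem_coe, Finset.mem_univ, Set.iUnion_true,
            Set.mem_iUnion, Finset.mem_image]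
          exact ⟨j, n, Polynomial.mem_support_iff.2 hn, rfl⟩
        exact ⟨⟨_, h2⟩, rfl⟩
    exact (Polynomial.mem_lifts _).1 h1
  choose W' hW' using hl
  have hMinj : Function.Injective (M.val : M →+* E) := M.val.toRingHom.injective
  have hmap : ∀ G : MvPolynomial (Fin (N + 1)) ℂ,
      (aeval W' G).map (M.val : M →+* E) = (aeval W G).map (i : R →+* E) := by
    intro G
    rw [map_aeval', map_aeval']
    congr 1
    congr 1
    funext j
    exact hW' j
  refine ⟨M, inferInstance, inferInstance, m, hm, W', ?_, ?_, ?_⟩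
  · intro G
    rw [← Polynomial.map_eq_zero_iff hMinj, hmap, Polynomial.map_eq_zero_iff hi']
  · obtain ⟨c, hc, hh⟩ := hQ
    have h1 : (aeval W' Q).map (M.val : M →+* E) = Polynomial.C (i c) := by
      rw [hmap, hh, Polynomial.map_C]
      rfl
    have hic : i c ≠ 0 := by
      rw [Ne, map_eq_zero_iff i hi]
      exact hc
    have h4 : ((aeval W' Q).coeff 0 : E) = i c := by
      have := congrArg (fun p => Polynomial.coeff p 0) h1
      simpa [Polynomial.coeff_map] using this
    refine ⟨(aeval W' Q).coeff 0, ?_, ?_⟩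
    · intro h0
      rw [h0] at h4
      exact hic h4.symm
    · apply Polynomial.map_injective _ hMinj
      rw [h1, Polynomial.map_C]
      congr 1
      exact h4.symm
  · intro h0
    apply hg
    apply Polynomial.map_injective (i : R →+* E) hi'
    have h1 := congrArg (Polynomial.map (M.val : M →+* E)) h0
    rw [Polynomial.map_mul, Polynomial.map_mul, ← Polynomial.derivative_map,
      ← Polynomial.derivative_map, hW', hW'] at h1
    rw [Polynomial.map_mul, Polynomial.map_mul, ← Polynomial.derivative_map,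
      ← Polynomial.derivative_map]
    exact h1

/-- **Families of affine lines.** -/
theorem gd_mainQ {C : Type} [CommRing C] [IsDomain C] [Algebra ℂ C] {n s m : ℕ}
    (E : Gd C (n + 1) s m) {K : Type} [Field K] [Algebra ℂ K] {w : ℕ} {y : Fin (n + 1) → K}
    {f : ℂ → Fin (n + 1) → ℂ} (hy : GenPt f Set.univ K w y)
    (h1 : ∀ G : MvPolynomial (Fin (n + 1)) ℂ, IsForm G →
      (∀ z, MvPolynomial.eval (f z) G = 0) → ∀ z x, E.ev z E.a ≠ 0 →
        MvPolynomial.eval (E.Ψ z x) G = 0)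
    (h2 : ∀ G : MvPolynomial (Fin (n + 1)) ℂ, IsForm G →
      (∀ z x, E.ev z E.a ≠ 0 → MvPolynomial.eval (E.Ψ z x) G = 0) →
        ∀ z, MvPolynomial.eval (f z) G = 0)
    {Q : MvPolynomial (Fin (n + 1)) ℂ} {q : ℕ} (hQ : Q.IsHomogeneous q) {e : C} (he : e ≠ 0)
    (hQe : ∀ z x, E.ev z E.a ≠ 0 → MvPolynomial.eval (E.Ψ z x) Q = E.ev z e)
    {z0 : ℂ} (hz0 : E.ev z0 E.a ≠ 0) {x0 x1 : Fin m → ℂ} {j k : Fin (n + 1)}
    (hne : E.Ψ z0 x0 j * E.Ψ z0 x1 k ≠ E.Ψ z0 x1 j * E.Ψ z0 x0 k) : A1Fam y Q := by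
  classical
  set d : ℕ := Finset.univ.sup fun j => (E.Q j).totalDegree with hd
  have hdj : ∀ j, (E.Q j).totalDegree ≤ d := fun j =>
    Finset.le_sup (f := fun j => (E.Q j).totalDegree) (Finset.mem_univ j)
  have hW : ∀ j z x x' t, E.ev z E.a ≠ 0 →
      E.evT z x x' t (E.WW d j) = E.ev z E.a ^ d * E.Ψ z (fun l => x l + t * x' l) j :=
    fun j z x x' t hz => E.evT_WW (hdj j) hz x x' t
  -- nonconstancy
  have hder : Polynomial.derivative (E.WW d j) * E.WW d k ≠
      E.WW d j * Polynomial.derivative (E.WW d k) := by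
    intro hcon
    set x' : Fin m → ℂ := fun l => x1 l - x0 l with hx'
    have h3 := congrArg (Polynomial.map (E.evA z0 x0 x')) hcon
    rw [Polynomial.map_mul, Polynomial.map_mul, ← Polynomial.derivative_map,
      ← Polynomial.derivative_map] at h3
    have h4 := poly_const h3 0 1
    have h5 : ∀ j t, (Polynomial.map (E.evA z0 x0 x') (E.WW d j)).eval t =
        E.ev z0 E.a ^ d * E.Ψ z0 (fun l => x0 l + t * x' l) j := by
      intro j t
      rw [← hW j z0 x0 x' t hz0, Polynomial.eval_map]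
      rfl
    have e0 : (fun l => x0 l + 0 * x' l) = x0 := by
      funext l
      ring
    have e1 : (fun l => x0 l + 1 * x' l) = x1 := by
      funext l
      simp only [hx']
      ring
    rw [h5, h5, h5, h5, e0, e1] at h4
    have h6 : E.ev z0 E.a ^ d ≠ 0 := pow_ne_zero _ hz0
    apply hne
    have h7 : (E.ev z0 E.a ^ d * E.ev z0 E.a ^ d) * (E.Ψ z0 x0 j * E.Ψ z0 x1 k) =
        (E.ev z0 E.a ^ d * E.ev z0 E.a ^ d) * (E.Ψ z0 x1 j * E.Ψ z0 x0 k) := by
      linear_combination h4
    exact mul_left_cancel₀ (mul_ne_zero h6 h6) h7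
  -- relations
  have hev : ∀ (G : MvPolynomial (Fin (n + 1)) ℂ) (e' : ℕ), G.IsHomogeneous e' → ∀ z x x' t,
      E.ev z E.a ≠ 0 → E.evT z x x' t (MvPolynomial.aeval (E.WW d) G) =
        (E.ev z E.a ^ d) ^ e' * MvPolynomial.eval (E.Ψ z fun l => x l + t * x' l) G := by
    intro G e' hG z x x' t hz
    rw [E.evT_aeval, ← Pool.Agent.TH600.LC.eval_smul_homog hG]
    congr 2
    funext j
    exact hW j z x x' t hz
  have hrel : ∀ G : MvPolynomial (Fin (n + 1)) ℂ, IsForm G →
      ((∀ z ∈ Set.univ, MvPolynomial.eval (f z) G = 0) ↔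
        (MvPolynomial.aeval (E.WW d) G :
          Polynomial (MvPolynomial (Fin m ⊕ Fin m) C)) = 0) := by
    rintro G ⟨e', hG⟩
    constructor
    · intro h
      apply E.eq_zero_of_evT
      intro z hz x x' t
      rw [hev G e' hG z x x' t hz, h1 G ⟨e', hG⟩ (fun z => h z (Set.mem_univ z)) z _ hz, mul_zero]
    · intro h z _
      refine h2 G ⟨e', hG⟩ (fun z x hz => ?_) z
      have h4 := hev G e' hG z x 0 0 hz
      rw [h, map_zero] at h4
      have h5 : (fun l => x l + 0 * (0 : Fin m → ℂ) l) = x := by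
        funext l
        ring
      rw [h5] at h4
      exact (mul_eq_zero.1 h4.symm).resolve_left (pow_ne_zero _ (pow_ne_zero _ hz))
  -- the boundary
  have ha0 : E.a ≠ 0 := by
    intro h0
    rw [h0, map_zero] at hz0
    exact hz0 rfl
  have hbd : (MvPolynomial.aeval (E.WW d) Q : Polynomial (MvPolynomial (Fin m ⊕ Fin m) C)) =
      Polynomial.C (MvPolynomial.C ((E.a ^ d) ^ q * e)) := by
    rw [← sub_eq_zero]
    apply E.eq_zero_of_evT
    intro z hz x x' t
    rw [map_sub, hev Q q hQ z x x' t hz, hQe z _ hz]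
    have h6 : ∀ c : C, E.evT z x x' t (Polynomial.C (MvPolynomial.C c)) = E.ev z c := by
      intro c
      simp [Gd.evT, Gd.evA]
    have h5 : E.evT z x x' t (Polynomial.C (MvPolynomial.C ((E.a ^ d) ^ q * e))) =
        (E.ev z E.a ^ d) ^ q * E.ev z e := by
      rw [h6, map_mul, map_pow, map_pow]
    rw [h5, sub_self]
  obtain ⟨M, i1, i2, mm, hm, W', hW1, ⟨c, hc, hcQ⟩, hW3⟩ := desc0 (E.WW d) j k Q
    ⟨MvPolynomial.C ((E.a ^ d) ^ q * e), by
      rw [Ne, MvPolynomial.C_eq_zero]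
      exact mul_ne_zero (pow_ne_zero _ (pow_ne_zero _ ha0)) he, hbd⟩ hder
  have hF : Fam y Q W' 0 := by
    refine ⟨fun G hG => ?_, c, hc, by rw [hcQ, pow_zero, mul_one]⟩
    rw [hy.rel G hG, hrel G hG, hW1]
  refine ⟨M, i1, i2, mm, W', hm, hF, j, k, ?_, hW3⟩
  refine (hF.ne k).2 fun h0 => hW3 ?_
  rw [h0, mul_zero, Polynomial.derivative_zero, mul_zero]

variable {n : ℕ} {K : Type} [Field K] [Algebra ℂ K] {w : ℕ} {y : Fin (n + 1) → K}
  {Q : MvPolynomial (Fin (n + 1)) ℂ} {q : ℕ} {f : ℂ → Fin (n + 1) → ℂ}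

theorem A1Fam.not_flat (h : A1Fam y Q) : ∃ r : K, ¬ AllFlat Q y r := by
  obtain ⟨M, i1, i2, m, W, hm, hF, j, k, hk, hne⟩ := h
  refine ⟨y j / y k, fun h1 => hne ?_⟩
  have h2 := h1 M m W 0 hm hF 1 (X j) (X k) (isHomogeneous_X _ _) (isHomogeneous_X _ _)
    (by rw [val_X]; exact hk) (by rw [val_X, val_X])
  rwa [aeval_X, aeval_X] at h2

/-- **Vanishing** of the pluricanonical forms with logarithmic poles along the boundary. -/
theorem A1Fam.zero {S : Set ℂ} (h : A1Fam y Q) (hy : GenPt f S K w y) (hQ : Q.IsHomogeneous q)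
    {N : ℕ} (hN : 0 < N) {ω : (Fin w → Derivation ℂ K K) → K}
    (hω : LogSec ℂ K w N (Pool.Agent.W603.GR.OffQ Q q y) ω) : ω = 0 := by
  obtain ⟨M, i1, i2, m, W, hm, hF, j, k, hk, hne⟩ := h
  funext D
  refine (hF.main hy.dim hm hy.ne hy.gen hQ).2.2.2 rfl ⟨y j / y k, fun h1 => hne ?_⟩ N hN ω hω D
  have h2 := h1 1 (X j) (X k) (isHomogeneous_X _ _) (isHomogeneous_X _ _)
    (by rw [val_X]; exact hk) (by rw [val_X, val_X])
  rwa [aeval_X, aeval_X] at h2

end Run7.h302.PG
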