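import Pool.Agent.Run7.h302.PG.Dich
import Pool.Agent.Run7.h302.PG.Expo
import Pool.Agent.Run7.h302.PG.ExpP

/-!
# Gap curves in quasi-projective varieties
-/

set_option autoImplicit false

namespace Run7.h302.PG

open MvPolynomial Metric Set Filter Topology
open Pool.Agent.TH143 Pool.Agent.TH143.GT Pool.Agent.W602.GT Pool.Agent.W603.BP
open Pool.Agent.TH600.LC

/-! ### Zero-free elements of the gap ring -/

theorem ex_gaps {g : ℂ → ℂ} (hg : HadamardGaps 0 g) : Differentiable ℂ g ∧ PL (Ex g) := by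
  obtain ⟨hd, q, m, hq, hm, hgm⟩ := hg
  refine ⟨hd, ?_⟩
  obtain ⟨r, hr⟩ := sparse_of_gaps hq hm
  refine (pl_of_dyadic (A := Set.range m) hr).mono ?_
  intro n hn
  obtain ⟨j, hj⟩ := hgm n hn
  exact ⟨j, hj.symm⟩

/-- **The elements of the gap ring without zeros near infinity are polynomials.** -/
theorem gapRing_poly {z₀ : ℂ} {F : ℂ → ℂ} (hF : F ∈ GapRing z₀) {r : ℝ}
    (h : ∀ z : ℂ, r ≤ ‖z‖ → F z ≠ 0) : ∃ P : Polynomial ℂ, ∀ z, F z = P.eval z := by
  have h1 := gapRing_translate hF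
  obtain ⟨h2, h3⟩ := pl_adjoin (fun g hg => ex_gaps hg) h1
  obtain ⟨P, hP⟩ := poly_of_pl h2 h3 (r := r + ‖z₀‖) (fun z hz => h (z + z₀) (by
    have h4 := norm_sub_norm_le z (-z₀)
    rw [norm_neg, sub_neg_eq_add] at h4
    linarith))
  refine ⟨P.comp (Polynomial.X - Polynomial.C z₀), fun z => ?_⟩
  have h4 := hP (z - z₀)
  rw [sub_add_cancel] at h4
  rw [h4, Polynomial.eval_comp]
  simp

/-- **Picard's theorem for the gap ring.** -/
theorem gapRing_const {z₀ : ℂ} {F : ℂ → ℂ} (hF : F ∈ GapRing z₀) (h : ∀ z : ℂ, F z ≠ 0) :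
    ∃ c : ℂ, c ≠ 0 ∧ ∀ z, F z = c := by
  obtain ⟨P, hP⟩ := gapRing_poly hF (r := 0) fun z _ => h z
  exact const_of_poly hP h

theorem gapRing_le (Y : Set (ℂ → ℂ)) (z₀ : ℂ) : GapRing z₀ ≤ GapOver Y z₀ :=
  Algebra.adjoin_mono Set.subset_union_right

theorem eval_mem {n : ℕ} {S : Subalgebra ℂ (ℂ → ℂ)} {f : ℂ → Fin n → ℂ}
    (hf : ∀ j, (fun z => f z j) ∈ S) (G : MvPolynomial (Fin n) ℂ) :
    (fun z => eval (f z) G) ∈ S := by
  have h1 : (fun z => eval (f z) G) = aeval (fun j => (fun z => f z j : ℂ → ℂ)) G := by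
    funext z
    have h2 : (aeval (fun j => (fun z => f z j : ℂ → ℂ)) G) z =
        (Pi.evalRingHom (fun _ : ℂ => ℂ) z) (aeval (fun j => (fun z => f z j : ℂ → ℂ)) G) := rfl
    rw [h2, aeval_def, hom_eval₂]
    rfl
  have h3 : Algebra.adjoin ℂ (Set.range fun j => (fun z => f z j : ℂ → ℂ)) ≤ S :=
    Algebra.adjoin_le (by
      rintro _ ⟨j, rfl⟩
      exact hf j)
  rw [h1]
  refine h3 ?_
  rw [Algebra.adjoin_range_eq_range_aeval]
  exact ⟨G, rfl⟩

/-! ### Differential equations -/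

theorem dfin_poly (P : Polynomial ℂ) : (fun z => P.eval z) ∈ DFin := by
  have h1 := poly_mem_coef ∅ P
  refine (Algebra.adjoin_le (S := DFin) ?_) h1
  rintro u (rfl | hu)
  · exact id_mem_dfin
  · exact absurd hu (Set.notMem_empty u)

theorem dfin_exp (P : Polynomial ℂ) : (fun z => Complex.exp (P.eval z)) ∈ DFin := by
  refine mem_dfin.2 ⟨P.differentiable.cexp, 1,
    fun k => if k = 1 then 1 else -Polynomial.derivative P, ⟨1, le_rfl, by simp⟩, fun z => ?_⟩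
  have h1 : deriv (fun z : ℂ => Complex.exp (P.eval z)) z =
      Complex.exp (P.eval z) * P.derivative.eval z := ((P.hasDerivAt z).cexp).deriv
  rw [Finset.sum_range_succ, Finset.sum_range_one, iteratedDeriv_one, iteratedDeriv_zero, h1]
  simp
  ring

theorem dfin_div {a : Polynomial ℂ} (ha : a ≠ 0) {f u : ℂ → ℂ} (hf : Differentiable ℂ f)
    (hu : u ∈ DFin) (h : ∀ z, a.eval z * f z = u z) : f ∈ DFin := by
  obtain ⟨D, hD, hc⟩ := exists_der ℂ
  refine ⟨hf, polODE_of_finD hD hf ?_⟩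
  have h1 : u = (fun z => a.eval z) * f := funext fun z => (h z).symm
  have h2 : ts u = ts (fun z => a.eval z) * ts f := by
    rw [h1, ts_mul' a.differentiable hf]
  have h3 : ts (fun z => a.eval z) = (a : PowerSeries ℂ) := by
    have h4 : sR (s := 0) (fun _ => Fin.elim0) (C a) = (a : PowerSeries ℂ) := by simp [sR]
    rw [← h4]
    let u : ℂ → Fin 1 → ℂ := fun z _ => a.eval z
    have h5 : sR u (X 0 - C a) = 0 := by
      refine sR_zero (fun i => a.differentiable) fun z => ?_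
      simp [sZ]
    have h6 : ts (fun z => a.eval z) - (a : PowerSeries ℂ) = 0 := by
      rw [← h5]
      simp only [sR, map_sub, coe_eval₂Hom, eval₂_X, eval₂_C]
      rfl
    rw [h4]
    exact sub_eq_zero.1 h6
  have h4 : emb ℂ (ts f) = algebraMap (KK ℂ) (EE ℂ)
      ((algebraMap (Polynomial ℂ) (KK ℂ) a)⁻¹) * emb ℂ (ts u) := by
    rw [h2, h3, map_mul, map_inv₀, algebraMap_kk, inv_mul_cancel_left₀ (emb_coe_ne ha)]
  rw [h4]
  exact (finD_kk hc _).mul (finD_of_polODE hD hc hu.1 hu.2)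

theorem coef_dfin {Y : Set (ℂ → ℂ)} (hY : Y ⊆ DFin) {u : ℂ → ℂ} (hu : u ∈ CoefRing Y) :
    u ∈ DFin := by
  refine (Algebra.adjoin_le (S := DFin) ?_) hu
  rintro v (rfl | hv)
  · exact id_mem_dfin
  · exact hY hv

/-- The ring generated by polynomials. -/
theorem coef_poly {Y : Set (ℂ → ℂ)} (hY : ∀ v ∈ Y, ∃ P : Polynomial ℂ, ∀ z, v z = P.eval z)
    {u : ℂ → ℂ} (hu : u ∈ CoefRing Y) : ∃ P : Polynomial ℂ, ∀ z, u z = P.eval z := by
  induction hu using Algebra.adjoin_induction with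
  | mem v hv =>
    rcases hv with rfl | hv
    · exact ⟨Polynomial.X, fun z => by simp⟩
    · exact hY v hv
  | algebraMap c => exact ⟨Polynomial.C c, fun z => by simp⟩
  | add u v _ _ h1 h2 =>
    obtain ⟨P, hP⟩ := h1
    obtain ⟨Q, hQ⟩ := h2
    exact ⟨P + Q, fun z => by rw [Pi.add_apply, hP, hQ, Polynomial.eval_add]⟩
  | mul u v _ _ h1 h2 =>
    obtain ⟨P, hP⟩ := h1
    obtain ⟨Q, hQ⟩ := h2
    exact ⟨P * Q, fun z => by rw [Pi.mul_apply, hP, hQ, Polynomial.eval_mul]⟩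

/-! ### The dichotomy for an arbitrary centre -/

theorem core {Y : Set (ℂ → ℂ)} (hY : Y ⊆ DFin) {z₀ : ℂ} {n : ℕ} {h : ℂ → Fin (n + 1) → ℂ}
    (hh : ∀ j, (fun z => h z j) ∈ GapOver Y z₀) (h0 : ∃ z, h z ≠ 0)
    {E : ℂ → ℂ} (hE : E ∈ Y) (hE0 : ∃ z, E z ≠ 0) {Q : MvPolynomial (Fin (n + 1)) ℂ} {q : ℕ}
    (hQ : Q.IsHomogeneous q) (hQE : ∀ z, eval (h z) Q = E z) {K : Type} [Field K] [Algebra ℂ K]
    {w : ℕ} {y : Fin (n + 1) → K} (hy : GenPt h Set.univ K w y) :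
    A1Fam y Q ∨ ∃ (a : Polynomial ℂ) (u : ℂ → Fin (n + 1) → ℂ), a ≠ 0 ∧
      (∀ j, (fun z => u z j) ∈ CoefRing Y) ∧ (∃ z, u z ≠ 0) ∧
      (∀ z j k, u z j * h z k = u z k * h z j) ∧ (0 < q → ∀ z j, a.eval z * h z j = u z j) := by
  have hY' : ∀ u ∈ tr z₀ '' Y, Differentiable ℂ u ∧ DAlg u := by
    rintro _ ⟨u, hu, rfl⟩
    exact ⟨tr_diff z₀ (hY hu).1, tr_dAlg z₀ (dAlg_of_polODE (hY hu).2)⟩
  rcases core0 hY' (h := fun z => h (z + z₀)) (fun j => gapOver_translate (hh j)) (by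
    obtain ⟨z, hz⟩ := h0
    exact ⟨z - z₀, by rwa [sub_add_cancel]⟩) (E := tr z₀ E) ⟨E, hE, rfl⟩ (by
    obtain ⟨z, hz⟩ := hE0
    exact ⟨z - z₀, by rwa [tr_apply, sub_add_cancel]⟩) hQ (fun z => hQE _) (genPt_tr z₀ hy) with
    h1 | ⟨a, u, ha, h1, ⟨z1, h2⟩, h3, h4⟩
  · exact Or.inl h1
  · right
    refine ⟨trP (-z₀) a, fun z => u (z + -z₀), ?_, fun j => tr_coef (h1 j), ⟨z1 - -z₀, by
      beta_reduce
      rwa [sub_add_cancel]⟩, fun z j k => ?_, fun hq z j => ?_⟩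
    · intro h5
      exact ha (trP_inj (-z₀) (h5.trans (map_zero _).symm))
    · have h5 := h3 (z + -z₀) j k
      rwa [neg_add_cancel_right] at h5
    · have h5 := h4 hq (z + -z₀) j
      rwa [neg_add_cancel_right, ← trP_eval] at h5

/-! ### Rational curves -/

/-- polynomial curves with boundary -/
theorem fam_of_rational {n : ℕ} {K : Type} [Field K] [Algebra ℂ K] {w : ℕ} {y : Fin (n + 1) → K}
    {Q : MvPolynomial (Fin (n + 1)) ℂ} {q : ℕ} {f : ℂ → Fin (n + 1) → ℂ}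
    (hy : GenPt f univ K w y) (hf : ∀ j, Differentiable ℂ (fun z => f z j))
    (hne : ∀ z, f z ≠ 0) (hQe : Q.IsHomogeneous q)
    (hQ : ∀ z, eval (f z) Q ≠ 0) (hnc : ∃ z w j k, f z j * f w k ≠ f z k * f w j)
    (hext : Extends (fun w => f w⁻¹)) : A1Fam y Q := by
  obtain ⟨u, P, hu, hfP⟩ := rational_of_extends f hf hne hext
  have hfu : ∀ x, f x = fun j => u x * (P j).eval x := fun x => funext (hfP x)
  have hPe : ∀ (G : MvPolynomial (Fin (n + 1)) ℂ) (x : ℂ),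
      (aeval P G : Polynomial ℂ).eval x = eval (fun j => (P j).eval x) G := by
    intro G x
    have h2 : (aeval P G : Polynomial ℂ).eval x
        = (Polynomial.aeval x : Polynomial ℂ →ₐ[ℂ] ℂ) (aeval P G) := by
      rw [Polynomial.coe_aeval_eq_eval]
    rw [h2, comp_aeval_apply, ← aeval_eq_eval]
    rfl
  have hfe : ∀ (G : MvPolynomial (Fin (n + 1)) ℂ) (d : ℕ), G.IsHomogeneous d → ∀ x,
      eval (f x) G = u x ^ d * (aeval P G : Polynomial ℂ).eval x := by
    intro G d hG x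
    rw [hfu, Pool.Agent.TH600.LC.eval_smul_homog hG, hPe]
  have hQP : ∀ x, (aeval P Q : Polynomial ℂ).eval x ≠ 0 := by
    intro x h0
    apply hQ x
    rw [hfe Q q hQe, h0, mul_zero]
  have hQc : ∃ c : ℂ, c ≠ 0 ∧ (aeval P Q : Polynomial ℂ) = Polynomial.C c * Polynomial.X ^ 0 := by
    have h1 : (aeval P Q : Polynomial ℂ).degree = 0 := by
      by_contra hdeg
      obtain ⟨x, hx⟩ := IsAlgClosed.exists_root _ hdeg
      exact hQP x hx
    have h2 := Polynomial.eq_C_of_degree_eq_zero h1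
    refine ⟨(aeval P Q : Polynomial ℂ).coeff 0, ?_, by rw [pow_zero, mul_one]; exact h2⟩
    intro h0
    rw [h0, Polynomial.C_0] at h2
    apply hQP 0
    rw [h2, Polynomial.eval_zero]
  have hF : Fam y Q P 0 := by
    refine ⟨?_, hQc⟩
    rintro G ⟨d, hG⟩
    rw [hy.rel G ⟨d, hG⟩]
    constructor
    · intro h
      apply Polynomial.funext
      intro x
      have h1 := h x (mem_univ x)
      rw [hfe G d hG] at h1
      rw [Polynomial.eval_zero]
      exact (mul_eq_zero.1 h1).resolve_left (pow_ne_zero _ (hu x))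
    · intro h x _
      rw [hfe G d hG, h, Polynomial.eval_zero, mul_zero]
  obtain ⟨s, t, j, k, hst⟩ := hnc
  have hder : Polynomial.derivative (P j) * P k ≠ P j * Polynomial.derivative (P k) := by
    intro h1
    apply hst
    have h2 := poly_const h1 s t
    rw [hfP, hfP, hfP, hfP]
    linear_combination (u s * u t) * h2
  refine ⟨ℂ, inferInstance, inferInstance, 0, P, ?_, hF, j, k, ?_, hder⟩
  · rw [Nat.cast_zero]
    exact trdeg_eq_zero_iff.2 inferInstance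
  · refine (hF.ne k).2 fun h0 => hder ?_
    rw [h0, mul_zero, Polynomial.derivative_zero, mul_zero]

/-- Curves which are proportional to polynomial curves extend. -/
theorem extends_of_par {n : ℕ} {f : ℂ → Fin (n + 1) → ℂ}
    (hf : ∀ j, AnalyticOnNhd ℂ (fun w => f w j) (PB 1)) (hne : ∀ w ∈ PB 1, f w ≠ 0)
    {R : Fin (n + 1) → Polynomial ℂ} (hR : ∃ j, R j ≠ 0)
    (h : ∀ w ∈ PB 1, ∀ j k, (R j).eval w⁻¹ * f w k = (R k).eval w⁻¹ * f w j) : Extends f := by
  have hroots : ∀ P : Polynomial ℂ, P ≠ 0 → ∀ᶠ w in 𝓝[≠] (0 : ℂ), P.eval w⁻¹ ≠ 0 := by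
    intro P hP
    have h1 : ∀ᶠ z in Bornology.cobounded ℂ, P.eval z ≠ 0 := by
      have h2 : {z : ℂ | P.IsRoot z}.Finite := Polynomial.finite_setOfPred_isRoot hP
      have h3 := h2.isBounded
      rw [← Bornology.isCobounded_compl_iff] at h3
      filter_upwards [h3] with z hz h4
      exact hz h4
    exact tendsto_inv₀_nhdsNE_zero.eventually h1
  refine extends_of f hf hne fun j k hj hk => ?_
  have hRk : R k ≠ 0 := by
    intro h0
    obtain ⟨l, hl⟩ := hR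
    apply hk
    filter_upwards [hroots _ hl, PB_mem one_pos] with w h1 h2
    have h3 := h w h2 l k
    rw [h0, Polynomial.eval_zero, zero_mul] at h3
    exact (mul_eq_zero.1 h3).resolve_left h1
  refine ⟨fun w => (R j).eval w⁻¹ / (R k).eval w⁻¹,
    (mero_poly_inv (R j)).fun_div (mero_poly_inv (R k)), ?_⟩
  filter_upwards [hroots _ hRk, PB_mem one_pos] with w h1 h2
  have h3 := h w h2 j k
  change f w j = (R j).eval w⁻¹ / (R k).eval w⁻¹ * f w k
  rw [div_mul_eq_mul_div, eq_div_iff h1]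
  linear_combination -h3

end Run7.h302.PG
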