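import Pool.Agent.Run7.h302.PG.Step

/-!
# Iteration of the operator on the partial sums of a power series with gaps
-/

set_option autoImplicit false

namespace Run7.h302.PG

open Polynomial Metric Complex Finset

open Classical in
/-- The nonzero indices in `(M, K]`. -/
noncomputable def idx (a : ℕ → ℂ) (M K : ℕ) : Finset ℕ := (Ioc M K).filter fun n => a n ≠ 0

/-- The polynomials of the iteration. -/
noncomputable def PK (a : ℕ → ℂ) (K M : ℕ) : ℂ[X] :=
  ∑ j ∈ range (M + 1), C (a j * ∏ n ∈ idx a M K, (1 - (j : ℂ) / n)) * X ^ j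

theorem coeff_PK (a : ℕ → ℂ) (K M j : ℕ) :
    (PK a K M).coeff j = if j ≤ M then a j * ∏ n ∈ idx a M K, (1 - (j : ℂ) / n) else 0 := by
  rw [PK, finsetSum_coeff]
  simp only [coeff_C_mul_X_pow]
  by_cases h : j ≤ M
  · rw [if_pos h, Finset.sum_eq_single j]
    · rw [if_pos rfl]
    · intro i _ hi
      rw [if_neg (Ne.symm hi)]
    · intro h1
      exact absurd (mem_range.2 (by omega)) h1
  · rw [if_neg h]
    refine Finset.sum_eq_zero fun i hi => ?_
    rw [mem_range] at hi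
    rw [if_neg (by omega)]

theorem idx_self (a : ℕ → ℂ) (K : ℕ) : idx a K K = ∅ := by
  unfold idx
  rw [Ioc_self, filter_empty]

theorem Ioc_succ_eq {M K : ℕ} (h : M < K) : Ioc M K = insert (M + 1) (Ioc (M + 1) K) := by
  ext x
  rw [mem_insert, mem_Ioc, mem_Ioc]
  omega

theorem idx_zero {a : ℕ → ℂ} {M K : ℕ} (h : M < K) (ha : a (M + 1) = 0) :
    idx a M K = idx a (M + 1) K := by
  unfold idx
  rw [Ioc_succ_eq h, filter_insert, if_neg (by rw [ha]; simp)]

theorem idx_succ {a : ℕ → ℂ} {M K : ℕ} (h : M < K) (ha : a (M + 1) ≠ 0) :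
    idx a M K = insert (M + 1) (idx a (M + 1) K) := by
  unfold idx
  rw [Ioc_succ_eq h, filter_insert, if_pos ha]

theorem notMem_idx (a : ℕ → ℂ) (M K : ℕ) : M ∉ idx a M K := by
  unfold idx
  rw [mem_filter, mem_Ioc]
  omega

theorem mem_idx {a : ℕ → ℂ} {M K n : ℕ} : n ∈ idx a M K ↔ (M < n ∧ n ≤ K) ∧ a n ≠ 0 := by
  unfold idx
  rw [mem_filter, mem_Ioc]

theorem PK_zero {a : ℕ → ℂ} {M K : ℕ} (h : M < K) (ha : a (M + 1) = 0) :
    PK a K M = PK a K (M + 1) := by
  ext j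
  rw [coeff_PK, coeff_PK, idx_zero h ha]
  by_cases h1 : j ≤ M
  · rw [if_pos h1, if_pos (by omega)]
  · rw [if_neg h1]
    by_cases h2 : j ≤ M + 1
    · have h3 : j = M + 1 := by omega
      rw [if_pos h2, h3, ha, zero_mul]
    · rw [if_neg h2]

theorem PK_succ {a : ℕ → ℂ} {M K : ℕ} (h : M < K) (ha : a (M + 1) ≠ 0) :
    PK a K M = Lop (M + 1) (PK a K (M + 1)) := by
  ext j
  rw [coeff_Lop, coeff_PK, coeff_PK, idx_succ h ha, Finset.prod_insert (notMem_idx _ _ _)]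
  by_cases h1 : j ≤ M
  · rw [if_pos h1, if_pos (by omega)]
    ring
  · rw [if_neg h1]
    by_cases h2 : j ≤ M + 1
    · have h3 : j = M + 1 := by omega
      have h4 : ((M + 1 : ℕ) : ℂ) ≠ 0 := by exact_mod_cast Nat.succ_ne_zero M
      rw [h3, div_self h4, sub_self, zero_mul]
    · rw [if_neg h2, mul_zero]

theorem prod_ne {a : ℕ → ℂ} {M K : ℕ} : ∏ n ∈ idx a M K, (1 - (M : ℂ) / n) ≠ 0 := by
  refine Finset.prod_ne_zero_iff.2 fun n hn => ?_
  obtain ⟨⟨h1, -⟩, -⟩ := mem_idx.1 hn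
  have h2 : (n : ℂ) ≠ 0 := by exact_mod_cast (by omega : n ≠ 0)
  rw [sub_ne_zero]
  intro h3
  rw [eq_div_iff h2, one_mul] at h3
  have h4 : n = M := by exact_mod_cast h3
  omega

theorem natDegree_PK {a : ℕ → ℂ} {K M : ℕ} (ha : a M ≠ 0) : (PK a K M).natDegree = M := by
  apply le_antisymm
  · rw [natDegree_le_iff_coeff_eq_zero]
    intro j hj
    rw [coeff_PK, if_neg (by omega)]
  · apply le_natDegree_of_ne_zero
    rw [coeff_PK, if_pos le_rfl]
    exact mul_ne_zero ha prod_ne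

/-- the factor of the radius -/
noncomputable def fac (a : ℕ → ℂ) (q M K : ℕ) : ℝ :=
  ∏ n ∈ idx a M K, (((n : ℝ) + q) / (n - q))

theorem one_le_fac_term {q n : ℕ} (h : q < n) : 1 ≤ (((n : ℝ) + q) / (n - q)) := by
  have h1 : (0 : ℝ) < n - q := by
    have : (q : ℝ) < n := by exact_mod_cast h
    linarith
  rw [le_div_iff₀ h1]
  have : (0 : ℝ) ≤ q := Nat.cast_nonneg q
  linarith

theorem one_le_fac {a : ℕ → ℂ} {q M K : ℕ} (hq : q ≤ M) : 1 ≤ fac a q M K := by
  unfold fac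
  refine Finset.prod_induction _ (fun x : ℝ => 1 ≤ x) (fun x y hx hy => ?_) le_rfl fun n hn => ?_
  · exact one_le_mul_of_one_le_of_one_le hx hy
  · rw [mem_idx] at hn
    exact one_le_fac_term (by omega)

theorem fac_succ {a : ℕ → ℂ} {q M K : ℕ} (h : M < K) (ha : a (M + 1) ≠ 0) :
    fac a q M K = (((M + 1 : ℕ) : ℝ) + q) / (((M + 1 : ℕ) : ℝ) - q) * fac a q (M + 1) K := by
  unfold fac
  rw [idx_succ h ha, Finset.prod_insert (notMem_idx _ _ _)]

theorem fac_zero {a : ℕ → ℂ} {q M K : ℕ} (h : M < K) (ha : a (M + 1) = 0) :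
    fac a q M K = fac a q (M + 1) K := by
  unfold fac
  rw [idx_zero h ha]

/-- **The iteration.** -/
theorem iter {a : ℕ → ℂ} {K N q : ℕ} {r R : ℝ} (hqN : q ≤ N) (hr : 0 ≤ r)
    (h0 : PK a K K ≠ 0) (h1 : ∀ w ∈ (PK a K K).roots, ‖w‖ ≤ r ∨ R ≤ ‖w‖)
    (h2 : ((PK a K K).roots.filter fun w => ‖w‖ ≤ r).card = q) :
    ∀ k M, M + k = K → N ≤ M → r * fac a q M K < R →
      PK a K M ≠ 0 ∧ (∀ w ∈ (PK a K M).roots, ‖w‖ ≤ r * fac a q M K ∨ R ≤ ‖w‖) ∧
      ((PK a K M).roots.filter fun w => ‖w‖ ≤ r * fac a q M K).card = q := by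
  intro k
  induction k with
  | zero =>
    intro M hM _ _
    rw [add_zero] at hM
    subst hM
    have e : fac a q M M = 1 := by
      unfold fac
      rw [idx_self, Finset.prod_empty]
    rw [e, mul_one]
    exact ⟨h0, h1, h2⟩
  | succ k ih =>
    intro M hM hN hR
    have hlt : M < K := by omega
    by_cases ha : a (M + 1) = 0
    · rw [fac_zero hlt ha] at hR ⊢
      rw [PK_zero hlt ha]
      exact ih (M + 1) (by omega) (by omega) hR
    · have hf1 : 1 ≤ fac a q (M + 1) K := one_le_fac (by omega)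
      have hf2 : (1 : ℝ) ≤ (((M + 1 : ℕ) : ℝ) + q) / (((M + 1 : ℕ) : ℝ) - q) :=
        one_le_fac_term (by omega)
      have hf3 : fac a q (M + 1) K ≤ fac a q M K := by
        rw [fac_succ hlt ha]
        exact le_mul_of_one_le_left (by linarith) hf2
      obtain ⟨i1, i2, i3⟩ := ih (M + 1) (by omega) (by omega)
        (lt_of_le_of_lt (mul_le_mul_of_nonneg_left hf3 hr) hR)
      rw [PK_succ hlt ha]
      refine lop_step (natDegree_PK ha) (by omega) (mul_nonneg hr (by linarith)) i2 i3 ?_ hR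
      rw [fac_succ hlt ha]
      exact le_of_eq (by ring)

end Run7.h302.PG
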