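import Pool.Agent.Run7.h302.PG.Gap

/-!
# The properties of gap curves in quasi-projective varieties
-/

set_option autoImplicit false

namespace Run7.h302.PG

open MvPolynomial Metric Set Filter Topology FF
open Pool.Agent.TH143 Pool.Agent.TH143.GT Pool.Agent.W602.GT Pool.Agent.W603.BP
  Pool.Agent.W603.BPR Pool.Agent.W603.GR Pool.Agent.W603.PV
open Pool.Agent.TH600.LC (GapRing GapOver DFin)

variable {n : ℕ}

/-- The curve `f` has homogeneous coordinates in the ring `R`, without common zeros. -/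
def EntIn (R : Subalgebra ℂ (ℂ → ℂ)) (f : ℂ → Fin (n + 1) → ℂ) : Prop :=
  ∃ h : ℂ → Fin (n + 1) → ℂ, (∀ j, (fun z => h z j) ∈ R) ∧ ∀ z, ∃ c : ℂ, f z = c • h z

/-- The holomorphic map `f` from the punctured disc to projective space has homogeneous coordinates
`h (1 / w)`, without common zeros in the punctured disc, where the coordinates of `h` belong to the
ring `R` of entire functions. -/
def PunIn (R : Subalgebra ℂ (ℂ → ℂ)) (f : ℂ → Fin (n + 1) → ℂ) : Prop :=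
  ∃ h : ℂ → Fin (n + 1) → ℂ, (∀ j, (fun z => h z j) ∈ R) ∧
    ∀ w ∈ ball (0 : ℂ) 1 \ {0}, ∃ c : ℂ, f w = c • h w⁻¹

/-- The curve `f` has homogeneous coordinates in the ring `R`, without common zeros, such that the
value of the form `Q` along the curve is an entire function of finite order. -/
def OrdIn (R : Subalgebra ℂ (ℂ → ℂ)) (Q : MvPolynomial (Fin (n + 1)) ℂ)
    (f : ℂ → Fin (n + 1) → ℂ) : Prop :=
  ∃ h : ℂ → Fin (n + 1) → ℂ, (∀ j, (fun z => h z j) ∈ R) ∧ (∀ z, ∃ c : ℂ, f z = c • h z) ∧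
    FinOrd (fun z => eval (h z) Q)

variable {p : Ideal (MvPolynomial (Fin (n + 1)) ℂ)} {Q : MvPolynomial (Fin (n + 1)) ℂ} {q : ℕ}

theorem smul_form {G : MvPolynomial (Fin (n + 1)) ℂ} {d : ℕ} (hG : G.IsHomogeneous d) (c : ℂ)
    (v : Fin (n + 1) → ℂ) : eval (c • v) G = c ^ d * eval v G := by
  have h1 := Pool.Agent.TH600.LC.eval_smul_homog hG c v
  exact h1

theorem zero_iff {G : MvPolynomial (Fin (n + 1)) ℂ} (hG : IsForm G) {c : ℂ} (hc : c ≠ 0)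
    {v u : Fin (n + 1) → ℂ} (h : v = c • u) : eval v G = 0 ↔ eval u G = 0 := by
  obtain ⟨d, hd⟩ := hG
  rw [h, smul_form hd, mul_eq_zero, or_iff_right (pow_ne_zero d hc)]

theorem scal_ne {c : ℂ} {v u : Fin (n + 1) → ℂ} (hv : v ≠ 0) (h : v = c • u) : c ≠ 0 := by
  rintro rfl
  rw [zero_smul] at h
  exact hv h

theorem genPt_par' {f h : ℂ → Fin (n + 1) → ℂ} (hne : ∀ z, f z ≠ 0)
    (hfh : ∀ z, ∃ c : ℂ, f z = c • h z) {K : Type} [Field K] [Algebra ℂ K] {w : ℕ}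
    {y : Fin (n + 1) → K} (hy : GenPt f univ K w y) : GenPt h univ K w y := by
  refine ⟨hy.ne, hy.gen, hy.dim, fun G hG => (hy.rel G hG).trans ?_⟩
  have key : ∀ z, eval (f z) G = 0 ↔ eval (h z) G = 0 := by
    intro z
    obtain ⟨c, hc⟩ := hfh z
    exact zero_iff hG (scal_ne (hne z) hc) hc
  constructor
  · intro h1 z hz
    exact (key z).1 (h1 z hz)
  · intro h1 z hz
    exact (key z).2 (h1 z hz)

/-- the data of an entire curve with coordinates in a ring -/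
theorem ent_par {f h : ℂ → Fin (n + 1) → ℂ} (hf : EntireCurve p Q f)
    (hfh : ∀ z, ∃ c : ℂ, f z = c • h z) (hQ : Q.IsHomogeneous q) :
    (∀ z, h z ≠ 0) ∧ (∀ z, eval (h z) Q ≠ 0) ∧ ∃ z w j k, h z j * h w k ≠ h z k * h w j := by
  obtain ⟨hd, hne, hfQ, s, t, j, k, hst⟩ := ent_data hf
  refine ⟨fun z h0 => ?_, fun z => ?_, s, t, j, k, fun h0 => ?_⟩
  · obtain ⟨c, hc⟩ := hfh z
    rw [h0, smul_zero] at hc
    exact hne z hc
  · obtain ⟨c, hc⟩ := hfh z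
    exact fun h0 => hfQ z ((zero_iff ⟨q, hQ⟩ (scal_ne (hne z) hc) hc).2 h0)
  · obtain ⟨c, hc⟩ := hfh s
    obtain ⟨c', hc'⟩ := hfh t
    apply hst
    rw [hc, hc']
    simp only [Pi.smul_apply, smul_eq_mul]
    linear_combination (c * c') * h0

theorem const_dfin (c : ℂ) : (fun _ : ℂ => c) ∈ DFin := DFin.algebraMap_mem c

/-- **Entire gap curves** -/
theorem ent_gap {f : ℂ → Fin (n + 1) → ℂ} (hf : EntireCurve p Q f) (hQ : Q.IsHomogeneous q)
    {z₀ : ℂ} (hr : EntIn (GapRing z₀) f) {K : Type} [Field K] [Algebra ℂ K] {w : ℕ}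
    {y : Fin (n + 1) → K} (hy : GenPt f univ K w y) : A1Fam y Q := by
  obtain ⟨h, hh, hfh⟩ := hr
  obtain ⟨hhne, hhQ, hnc⟩ := ent_par hf hfh hQ
  have hne : ∀ z, f z ≠ 0 := (ent_data hf).2.1
  have hyh := genPt_par' hne hfh hy
  have hhd : ∀ j, Differentiable ℂ (fun z => h z j) := fun j =>
    Pool.Agent.TH600.LC.gapOver_diff (Y := ∅) (fun u hu => absurd hu (Set.notMem_empty u))
      (gapRing_le ∅ z₀ (hh j))
  obtain ⟨c, hc, hcE⟩ := gapRing_const (eval_mem hh Q) hhQ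
  have hY : ({fun _ => c} : Set (ℂ → ℂ)) ⊆ DFin := by
    rintro u rfl
    exact const_dfin c
  rcases core hY (fun j => gapRing_le _ z₀ (hh j)) ⟨0, hhne 0⟩ (E := fun _ => c)
    (Set.mem_singleton _) ⟨0, hc⟩ hQ hcE hyh with h1 | ⟨a, u, -, h2, h3, h4, -⟩
  · exact h1
  · choose R hR using fun j => coef_poly (Y := {fun _ => c}) (by
      rintro v rfl
      exact ⟨Polynomial.C c, fun z => by simp⟩) (h2 j)
    refine fam_of_rational hyh hhd hhne hQ hhQ hnc (extends_of_par (R := R) ?_ ?_ ?_ ?_)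
    · intro j w hw
      have h5 : AnalyticAt ℂ (fun z => h z j) w⁻¹ := (hhd j).analyticAt _
      exact AnalyticAt.comp (g := fun z => h z j) (f := fun w : ℂ => w⁻¹) h5 (analyticAt_inv hw.1)
    · intro w _
      exact hhne _
    · obtain ⟨z, hz⟩ := h3
      obtain ⟨j, hj⟩ := Function.ne_iff.1 hz
      refine ⟨j, fun h0 => hj ?_⟩
      rw [hR j z, h0, Polynomial.eval_zero]
      rfl
    · intro w _ j k
      rw [← hR, ← hR]
      exact h4 _ j k

/-- the closure of a curve near infinity -/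
theorem genPt_pun {f h : ℂ → Fin (n + 1) → ℂ} (hne : ∀ w ∈ PB 1, f w ≠ 0)
    (hhd : ∀ j, Differentiable ℂ (fun z => h z j))
    (hfh : ∀ w ∈ PB 1, ∃ c : ℂ, f w = c • h w⁻¹) {K : Type} [Field K] [Algebra ℂ K] {w : ℕ}
    {y : Fin (n + 1) → K} (hy : GenPt f (PB 1) K w y) : GenPt h univ K w y := by
  refine ⟨hy.ne, hy.gen, hy.dim, fun G hG => (hy.rel G hG).trans ?_⟩
  have key : ∀ w ∈ PB 1, eval (f w) G = 0 ↔ eval (h w⁻¹) G = 0 := by
    intro w hw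
    obtain ⟨c, hc⟩ := hfh w hw
    exact zero_iff hG (scal_ne (hne w hw) hc) hc
  constructor
  · intro h1
    obtain ⟨z1, hz1⟩ := PB_nonempty one_pos
    have hd : Differentiable ℂ (fun z => eval (h z) G) :=
      Pool.Agent.TH600.LC.differentiable_eval hhd G
    have h2 : ∀ᶠ z in 𝓝 z1⁻¹, eval (h z) G = 0 := by
      have h3 : ∀ᶠ z in 𝓝 z1⁻¹, z⁻¹ ∈ PB 1 := by
        have h4 : ContinuousAt (fun z : ℂ => z⁻¹) z1⁻¹ := continuousAt_inv₀ (inv_ne_zero hz1.1)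
        exact h4.eventually_mem ((PB_open 1).mem_nhds (by rw [inv_inv]; exact hz1))
      filter_upwards [h3] with z hz
      have h5 := (key z⁻¹ hz).1 (h1 _ hz)
      rwa [inv_inv] at h5
    exact fun z _ => Pool.Agent.TH600.LC.ent_zero_of_near hd h2 z
  · intro h1 z hz
    exact (key z hz).2 (h1 _ (mem_univ _))

/-- **Gap maps from the punctured disc** -/
theorem pun_gap {f : ℂ → Fin (n + 1) → ℂ} (hf : PCurve p Q f) (hQ : Q.IsHomogeneous q)
    {z₀ : ℂ} (hr : PunIn (GapRing z₀) f) (hext : ¬ Extends f) {K : Type} [Field K] [Algebra ℂ K]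
    {w : ℕ} {y : Fin (n + 1) → K} (hy : GenPt f (PB 1) K w y) : A1Fam y Q := by
  obtain ⟨h, hh, hfh'⟩ := hr
  have hfh : ∀ w ∈ PB 1, ∃ c : ℂ, f w = c • h w⁻¹ := fun w hw => hfh' w (mem_disc.2 hw)
  have hne : ∀ w ∈ PB 1, f w ≠ 0 := fun w hw => (hf.2 w (mem_disc.2 hw)).1
  have hfQ : ∀ w ∈ PB 1, eval (f w) Q ≠ 0 := fun w hw => (hf.2 w (mem_disc.2 hw)).2.2
  have hhd : ∀ j, Differentiable ℂ (fun z => h z j) := fun j =>
    Pool.Agent.TH600.LC.gapOver_diff (Y := ∅) (fun u hu => absurd hu (Set.notMem_empty u))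
      (gapRing_le ∅ z₀ (hh j))
  have hyh := genPt_pun hne hhd hfh hy
  have hPB : ∀ z : ℂ, 2 ≤ ‖z‖ → z⁻¹ ∈ PB 1 := by
    intro z hz
    have h0 : z ≠ 0 := by
      rintro rfl
      rw [norm_zero] at hz
      linarith
    refine ⟨inv_ne_zero h0, ?_⟩
    rw [norm_inv]
    exact inv_lt_one_of_one_lt₀ (by linarith)
  have hhQ : ∀ z : ℂ, 2 ≤ ‖z‖ → eval (h z) Q ≠ 0 := by
    intro z hz h0
    obtain ⟨c, hc⟩ := hfh z⁻¹ (hPB z hz)
    rw [inv_inv] at hc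
    exact hfQ _ (hPB z hz) ((zero_iff ⟨q, hQ⟩ (scal_ne (hne _ (hPB z hz)) hc) hc).2 h0)
  have hhne : ∃ z, h z ≠ 0 := by
    refine ⟨2, fun h0 => ?_⟩
    have h2 : (2 : ℝ) ≤ ‖(2 : ℂ)‖ := by simp
    obtain ⟨c, hc⟩ := hfh 2⁻¹ (hPB 2 h2)
    rw [inv_inv, h0, smul_zero] at hc
    exact hne _ (hPB 2 h2) hc
  obtain ⟨P, hP⟩ := gapRing_poly (eval_mem hh Q) hhQ
  have hY : ({fun z => P.eval z} : Set (ℂ → ℂ)) ⊆ DFin := by
    rintro u rfl
    exact dfin_poly P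
  rcases core hY (fun j => gapRing_le _ z₀ (hh j)) hhne (E := fun z => P.eval z)
    (Set.mem_singleton _) ⟨2, by
      rw [← hP]
      exact hhQ 2 (by simp)⟩ hQ hP hyh with h1 | ⟨a, u, -, h2, h3, h4, -⟩
  · exact h1
  · exfalso
    apply hext
    choose R hR using fun j => coef_poly (Y := {fun z => P.eval z}) (by
      rintro v rfl
      exact ⟨P, fun z => rfl⟩) (h2 j)
    refine extends_of_par (R := R) hf.an hne ?_ ?_
    · obtain ⟨z, hz⟩ := h3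
      obtain ⟨j, hj⟩ := Function.ne_iff.1 hz
      refine ⟨j, fun h0 => hj ?_⟩
      rw [hR j z, h0, Polynomial.eval_zero]
      rfl
    · intro w hw j k
      obtain ⟨c, hc⟩ := hfh w hw
      rw [← hR, ← hR, hc]
      simp only [Pi.smul_apply, smul_eq_mul]
      have h5 := h4 w⁻¹ j k
      linear_combination c * h5

/-- **Entire curves of finite order** -/
theorem ent_ord {f : ℂ → Fin (n + 1) → ℂ} (hf : EntireCurve p Q f) (hQ : Q.IsHomogeneous q)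
    (hq : 0 < q) {z₀ : ℂ} (hr : OrdIn (GapOver DFin z₀) Q f) {K : Type} [Field K] [Algebra ℂ K]
    {w : ℕ} {y : Fin (n + 1) → K} (hy : GenPt f univ K w y) : ∃ r : K, ¬ AllFlat Q y r := by
  obtain ⟨h, hh, hfh, ho⟩ := hr
  obtain ⟨hhne, hhQ, hnc⟩ := ent_par hf hfh hQ
  have hne : ∀ z, f z ≠ 0 := (ent_data hf).2.1
  have hyh := genPt_par' hne hfh hy
  have hhd : ∀ j, Differentiable ℂ (fun z => h z j) := fun j =>
    Pool.Agent.TH600.LC.gapOver_diff (Y := (DFin : Set (ℂ → ℂ))) (fun u hu => hu.1) (hh j)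
  obtain ⟨P, hP⟩ := exp_poly (Pool.Agent.TH600.LC.differentiable_eval hhd Q) hhQ ho
  rcases core (Y := (DFin : Set (ℂ → ℂ))) (fun u hu => hu) hh ⟨0, hhne 0⟩
    (E := fun z => Complex.exp (P.eval z)) (dfin_exp P) ⟨0, Complex.exp_ne_zero _⟩ hQ hP hyh with
    h1 | ⟨a, u, ha, h2, h3, h4, h5⟩
  · exact h1.not_flat
  · have h6 : ∀ j, (fun z => h z j) ∈ DFin := fun j =>
      dfin_div ha (hhd j) (coef_dfin (fun u hu => hu) (h2 j)) fun z => h5 hq z j
    exact fam_of_entire hyh hhd hhne (linSys_of_polODE h hhd fun j => (h6 j).2) hQ hhQ hnc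

/-! ### The conclusions -/

/-- The closed subvarieties of positive dimension of the quasi-projective variety with the ideal `p`
and the boundary `Q = 0` which are not contained in `G = 0` have nonnegative logarithmic Kodaira
dimension: for some `N > 0` there is a nonzero `N`-canonical form with at most logarithmic poles at
the boundary. -/
def SubKod (p : Ideal (MvPolynomial (Fin (n + 1)) ℂ)) (Q : MvPolynomial (Fin (n + 1)) ℂ) (q : ℕ)
    (G : MvPolynomial (Fin (n + 1)) ℂ) : Prop :=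
  ∀ (K : Type) [Field K] [Algebra ℂ K] (w : ℕ) (y : Fin (n + 1) → K), 1 ≤ w →
    SubVarP p Q K w y → Pool.Agent.W602.GT.val y G ≠ 0 →
    ∃ N, 0 < N ∧ ∃ ω, LogSec ℂ K w N (OffQ Q q y) ω ∧ ω ≠ 0

theorem logSec_of_gt {K : Type} [Field K] [Algebra ℂ K] {w : ℕ} {y : Fin (n + 1) → K}
    (h : LogGeneralType ℂ K w (OffQ Q q y)) :
    ∃ N, 0 < N ∧ ∃ ω, LogSec ℂ K w N (OffQ Q q y) ω ∧ ω ≠ 0 := by
  obtain ⟨-, N, hN, ω, h1, h2, h3, D, hD, -⟩ := h
  refine ⟨N, hN, ω 0, ⟨h1 0, fun P hP => h2 P hP 0, fun P hP hB => h3 P hP hB 0⟩, ?_⟩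
  intro h0
  apply hD
  rw [h0]
  rfl

theorem closure_ent {f : ℂ → Fin (n + 1) → ℂ} (hp : IsHomog p) (hf : EntireCurve p Q f)
    (hQ : Q.IsHomogeneous q) {G : MvPolynomial (Fin (n + 1)) ℂ} (hG : IsForm G) {z : ℂ}
    (hz : eval (f z) G ≠ 0) : ∃ (K : Type) (_ : Field K) (_ : Algebra ℂ K) (w : ℕ)
      (y : Fin (n + 1) → K), 1 ≤ w ∧ GenPt f univ K w y ∧ SubVarP p Q K w y ∧
        Pool.Agent.W602.GT.val y G ≠ 0 := by
  obtain ⟨hd, hne, hfQ, hnc⟩ := ent_data hf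
  have hfa : ∀ j, AnalyticOnNhd ℂ (fun w => f w j) univ := fun j z _ => (hd j).analyticAt z
  obtain ⟨j0, hj0⟩ := Function.ne_iff.1 (hne 0)
  obtain ⟨K, i1, i2, w, y, h1, h2, h3, h4, h5⟩ := exists_closure f isPreconnected_univ hfa
    ⟨0, mem_univ _, hj0⟩
  have hy : GenPt f univ K w y := ⟨h1, h2, h3, h4⟩
  refine ⟨K, i1, i2, w, y, ?_, hy, subVar_of_genPt hp hQ hy (fun z _ => (hf.2.1 z).2.1)
    ⟨0, mem_univ _, hfQ 0⟩, fun h0 => hz ((hy.rel G hG).1 h0 z (mem_univ z))⟩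
  rcases Nat.eq_zero_or_pos w with hw | hw
  · exfalso
    choose c hc using h5 hw
    obtain ⟨s, t, j, k, hst⟩ := hnc
    apply hst
    rw [hc j s (mem_univ _), hc k t (mem_univ _), hc k s (mem_univ _), hc j t (mem_univ _)]
    ring
  · exact hw

theorem kod_brody {f : ℂ → Fin (n + 1) → ℂ} (hp : IsHomog p) (hQ : Q.IsHomogeneous q)
    {G : MvPolynomial (Fin (n + 1)) ℂ} (hG : IsForm G) (h : SubKod p Q q G)
    (hf : EntireCurve p Q f) {z₀ : ℂ} (hr : EntIn (GapRing z₀) f) (z : ℂ) : eval (f z) G = 0 := by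
  by_contra hz
  obtain ⟨K, i1, i2, w, y, hw, hy, hsub, hGy⟩ := closure_ent hp hf hQ hG hz
  obtain ⟨N, hN, ω, hω, hω0⟩ := h K w y hw hsub hGy
  exact hω0 ((ent_gap hf hQ hr hy).zero hy hQ hN hω)

theorem ord_brody {f : ℂ → Fin (n + 1) → ℂ} (hp : IsHomog p) (hQ : Q.IsHomogeneous q)
    (hq : 0 < q) {G : MvPolynomial (Fin (n + 1)) ℂ} (hG : IsForm G) (h : SubLogGT p Q q G)
    (hf : EntireCurve p Q f) {z₀ : ℂ} (hr : OrdIn (GapOver DFin z₀) Q f) (z : ℂ) :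
    eval (f z) G = 0 := by
  by_contra hz
  obtain ⟨K, i1, i2, w, y, hw, hy, hsub, hGy⟩ := closure_ent hp hf hQ hG hz
  obtain ⟨r, hr'⟩ := ent_ord hf hQ hq hr hy
  exact hr' (allFlat_gt (hy.inv (ent_data hf).1) hQ (h K w y hw hsub hGy) r)

theorem kod_picard {f : ℂ → Fin (n + 1) → ℂ} (hp : IsHomog p) (hQ : Q.IsHomogeneous q)
    {G : MvPolynomial (Fin (n + 1)) ℂ} (hG : IsForm G) (h : SubKod p Q q G)
    (hf : PCurve p Q f) {z₀ : ℂ} (hr : PunIn (GapRing z₀) f)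
    (hfG : ∃ z ∈ ball (0 : ℂ) 1 \ {0}, eval (f z) G ≠ 0) : Extends f := by
  by_contra hext
  have han := hf.an
  have hne : ∀ w ∈ PB 1, f w ≠ 0 := fun w hw => (hf.2 w (mem_disc.2 hw)).1
  have hX : ∀ z ∈ PB 1, ∀ H ∈ p, eval (f z) H = 0 := fun z hz => (hf.2 z (mem_disc.2 hz)).2.1
  have hfQ : ∀ z ∈ PB 1, eval (f z) Q ≠ 0 := fun z hz => (hf.2 z (mem_disc.2 hz)).2.2
  obtain ⟨z1, hz1⟩ := PB_nonempty one_pos
  obtain ⟨j0, hj0⟩ := Function.ne_iff.1 (hne z1 hz1)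
  obtain ⟨K, i1, i2, w, y, h1, h2, h3, h4, h5⟩ := exists_closure f (PB_preconn one_pos) han
    ⟨z1, hz1, hj0⟩
  have hy : GenPt f (PB 1) K w y := ⟨h1, h2, h3, h4⟩
  rcases Nat.eq_zero_or_pos w with hw | hw
  · exact hext (extends_of_const han hne (h5 hw))
  · have hsub := subVar_of_genPt hp hQ hy hX ⟨z1, hz1, hfQ z1 hz1⟩
    have hGy : Pool.Agent.W602.GT.val y G ≠ 0 := by
      intro h0
      obtain ⟨z, hz, hzG⟩ := hfG
      exact hzG ((hy.rel G hG).1 h0 z (mem_disc.1 hz))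
    obtain ⟨N, hN, ω, hω, hω0⟩ := h K w y hw hsub hGy
    exact hω0 ((pun_gap hf hQ hr hext hy).zero hy hQ hN hω)

end Run7.h302.PG
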