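import Pool.Agent.Run7.h302.PG.Main
import Pool.Agent.TH600.LC.Lang
import Pool.Agent.TH143.Conv

/-!
# Affine lines through the points of gap curves
-/

set_option autoImplicit false

namespace Run7.h302.PG

open MvPolynomial Metric Set Filter Topology
open Pool.Agent.TH143 Pool.Agent.W603.BP
open Pool.Agent.TH600.LC (GapRing GapOver DFin Pfm CoefRing ent_mul ent_mul' ent_zero_of_near
  differentiable_coef DAlg tr tr_apply tr_diff tr_dAlg tr_coef gapOver_translate dAlg_of_polODE differentiable_eval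
  exists_repr_pair HadamardGaps gapOver_diff)

variable {N : ℕ} {ι : Type}

/-- The polynomials `P` define a nonconstant morphism from the affine line to the variety `F = 0`,
`Q ≠ 0`. -/
structure IsA1Curve (F : ι → MvPolynomial (Fin (N + 1)) ℂ) (Q : MvPolynomial (Fin (N + 1)) ℂ)
    (P : Fin (N + 1) → Polynomial ℂ) : Prop where
  ne : ∀ t, ∃ j, (P j).eval t ≠ 0
  mem : ∀ t, On F Q (fun j => (P j).eval t)
  nonconst : ∃ s t j k, (P j).eval s * (P k).eval t ≠ (P k).eval s * (P j).eval t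

/-- The point with homogeneous coordinates `x` lies on the image of a nonconstant morphism from the
affine line to the variety `F = 0`, `Q ≠ 0`. -/
def OnLine (F : ι → MvPolynomial (Fin (N + 1)) ℂ) (Q : MvPolynomial (Fin (N + 1)) ℂ)
    (x : Fin (N + 1) → ℂ) : Prop :=
  ∃ P, IsA1Curve F Q P ∧ ∃ t c : ℂ, c ≠ 0 ∧ ∀ j, (P j).eval t = c * x j

theorem OnLine.scale {F : ι → MvPolynomial (Fin (N + 1)) ℂ} {Q : MvPolynomial (Fin (N + 1)) ℂ}
    {x y : Fin (N + 1) → ℂ} {c : ℂ} (hc : c ≠ 0) (h : y = c • x) (hx : OnLine F Q x) :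
    OnLine F Q y := by
  obtain ⟨P, hP, t, c', hc', ht⟩ := hx
  refine ⟨P, hP, t, c' / c, div_ne_zero hc' hc, fun j => ?_⟩
  rw [ht, h, Pi.smul_apply, smul_eq_mul]
  field_simp

/-- removal of the common zeros -/
theorem exists_red (p : Fin (N + 1) → Polynomial ℂ) :
    ∃ (g : Polynomial ℂ) (q : Fin (N + 1) → Polynomial ℂ), (∀ j, p j = g * q j) ∧
      ∀ z, ∃ j, (q j).eval z ≠ 0 := by
  classical
  obtain ⟨q, hq, hqg⟩ := Finset.extract_gcd (s := (Finset.univ : Finset (Fin (N + 1)))) p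
    ⟨0, Finset.mem_univ _⟩
  refine ⟨Finset.univ.gcd p, q, fun j => hq j (Finset.mem_univ j), fun z => ?_⟩
  by_contra hcon
  push Not at hcon
  have h1 : (Polynomial.X - Polynomial.C z) ∣ Finset.univ.gcd q := by
    refine Finset.dvd_gcd fun j _ => ?_
    rw [Polynomial.dvd_iff_isRoot]
    exact hcon j
  rw [hqg] at h1
  exact Polynomial.not_isUnit_X_sub_C z (isUnit_of_dvd_one h1)

theorem eval_vec {n d : ℕ} {G : MvPolynomial (Fin n) ℂ} (hG : G.IsHomogeneous d) (c : ℂ)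
    (v : Fin n → ℂ) : eval (fun j => c * v j) G = c ^ d * eval v G :=
  Pool.Agent.TH600.LC.eval_smul_homog hG c v

/-- From a polynomial curve with possible common zeros to a morphism. -/
theorem line_of_poly {F : ι → MvPolynomial (Fin (N + 1)) ℂ}
    (hF : ∀ i, ∃ d, (F i).IsHomogeneous d) {Q : MvPolynomial (Fin (N + 1)) ℂ} {e : ℕ}
    (hQ : Q.IsHomogeneous e) {P : Fin (N + 1) → Polynomial ℂ}
    (h1 : ∀ t i, eval (fun j => (P j).eval t) (F i) = 0)
    (h2 : ∀ t, eval (fun j => (P j).eval t) Q ≠ 0)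
    (hnc : ∃ s t j k, (P j).eval s * (P k).eval t ≠ (P k).eval s * (P j).eval t) {t : ℂ}
    {x : Fin (N + 1) → ℂ} (hx : x ≠ 0) (ht : ∀ j, (P j).eval t = x j) : OnLine F Q x := by
  obtain ⟨g, q, hpq, hne⟩ := exists_red P
  have hev : ∀ s, (fun j => (P j).eval s) = fun j => g.eval s * (q j).eval s := by
    intro s
    funext j
    rw [hpq, Polynomial.eval_mul]
  have hg : g ≠ 0 := by
    rintro rfl
    apply hx
    funext j
    rw [← ht, hpq, zero_mul, Polynomial.eval_zero]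
    rfl
  have hgt : g.eval t ≠ 0 := by
    intro h0
    apply hx
    funext j
    rw [← ht, hpq, Polynomial.eval_mul, h0, zero_mul]
    rfl
  refine ⟨q, ⟨hne, fun s => ⟨fun i => ?_, fun h0 => h2 s ?_⟩, ?_⟩, t, (g.eval t)⁻¹,
    inv_ne_zero hgt, fun j => ?_⟩
  · obtain ⟨d, hd⟩ := hF i
    refine ent_mul' (A := fun s => g.eval s ^ d) (g.differentiable.pow d)
      (differentiable_eval (fun j => (q j).differentiable) (F i)) ⟨t, pow_ne_zero _ hgt⟩
      (fun z hz => ?_) s
    have h3 := h1 z i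
    rw [hev, eval_vec hd] at h3
    exact (mul_eq_zero.1 h3).resolve_left hz
  · rw [hev, eval_vec hQ, h0, mul_zero]
  · obtain ⟨s, t, j, k, hst⟩ := hnc
    refine ⟨s, t, j, k, fun h0 => hst ?_⟩
    rw [hpq, hpq]
    simp only [Polynomial.eval_mul]
    linear_combination (g.eval s * g.eval t) * h0
  · rw [← ht, hpq, Polynomial.eval_mul, inv_mul_cancel_left₀ hgt]

/-! ### The curves of the family -/

section fam

variable {Y : Set (ℂ → ℂ)} {s m : ℕ} {f : ℂ → Fin (N + 1) → ℂ} (D : Pfm Y f s m)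

theorem pfm_line (z : ℂ) (x y : Fin m → ℂ) (t : ℂ) :
    D.Φ z (fun l => x l + t * (y l - x l)) = fun i => D.Φ z x i + t * (D.Φ z y i - D.Φ z x i) := by
  funext i
  simp only [Pfm.Φ]
  rw [← sub_div, mul_div_assoc', ← add_div]
  congr 1
  have : ∑ l ∈ D.I, (D.b i l).eval z * (x l + t * (y l - x l)) =
      ∑ l ∈ D.I, (D.b i l).eval z * x l + t * (∑ l ∈ D.I, (D.b i l).eval z * y l -
        ∑ l ∈ D.I, (D.b i l).eval z * x l) := by
    rw [← Finset.sum_sub_distrib, Finset.mul_sum, ← Finset.sum_add_distrib]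
    exact Finset.sum_congr rfl fun l _ => by ring
  rw [this]
  ring

/-- the polynomial curve through `f z` -/
noncomputable def crvP (z : ℂ) (x : Fin m → ℂ) (j : Fin (N + 1)) : Polynomial ℂ :=
  aeval (Sum.elim (fun i => Polynomial.C (D.y z i)) (fun i => Polynomial.C (D.g z i) +
    Polynomial.C (D.Φ z x i - D.g z i) * Polynomial.X)) (D.Q j)

theorem eval_crvP {z : ℂ} (hz : D.a.eval z ≠ 0) (x : Fin m → ℂ) (t : ℂ) (j : Fin (N + 1)) :
    (crvP D z x j).eval t = D.Ψ z (fun l => D.g z l + t * (x l - D.g z l)) j := by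
  rw [crvP, Pfm.Ψ, pfm_line, aeval_def]
  have h1 : ∀ v : Fin s ⊕ Fin m → Polynomial ℂ, Polynomial.eval t (eval₂ (algebraMap ℂ
      (Polynomial ℂ)) v (D.Q j)) = eval (fun i => (v i).eval t) (D.Q j) := by
    intro v
    have h3 : Polynomial.eval t (eval₂ (algebraMap ℂ (Polynomial ℂ)) v (D.Q j)) =
        (Polynomial.evalRingHom t) (eval₂ (algebraMap ℂ (Polynomial ℂ)) v (D.Q j)) := rfl
    rw [h3, hom_eval₂]
    have h2 : (Polynomial.evalRingHom t).comp (algebraMap ℂ (Polynomial ℂ)) = RingHom.id ℂ := by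
      ext c
      simp
    rw [h2, eval₂_id]
    rfl
  rw [h1]
  congr 2
  funext i
  rcases i with i | i
  · rw [Sum.elim_inl, Sum.elim_inl, Polynomial.eval_C]
  · rw [Sum.elim_inr, Sum.elim_inr, D.Φ_g hz]
    simp
    ring

end fam

/-- The family has only one curve. -/
theorem triv {Y : Set (ℂ → ℂ)} {s m : ℕ} {h : ℂ → Fin (N + 1) → ℂ} (D : Pfm Y h s m)
    (hY : ∀ u ∈ Y, Differentiable ℂ u ∧ DAlg u) {Q : MvPolynomial (Fin (N + 1)) ℂ} {q : ℕ}
    (hQ : Q.IsHomogeneous q) {i0 : Fin s} (hQD : ∀ z, eval (h z) Q = D.y z i0)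
    (h0 : ∃ z, h z ≠ 0) {E : ℂ → ℂ} (hE : E ∈ Y) (hE0 : ∃ z, E z ≠ 0)
    (hi0 : ∀ z, D.y z i0 = E z) {d : ℕ} (hdj : ∀ j, (D.Q j).totalDegree ≤ d)
    (hcase : ∀ z x0 x1 j k, D.a.eval z ≠ 0 →
      D.Ψ z x0 j * D.Ψ z x1 k = D.Ψ z x1 j * D.Ψ z x0 k)
    (hQE : ∀ z, eval (h z) Q = E z) :
    ∃ (a : Polynomial ℂ) (u : ℂ → Fin (N + 1) → ℂ), a ≠ 0 ∧
      (∀ j, (fun z => u z j) ∈ CoefRing Y) ∧ (∃ z, u z ≠ 0) ∧
      (∀ z j k, u z j * h z k = u z k * h z j) ∧ (0 < q → ∀ z j, a.eval z * h z j = u z j) := by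
  have hex : ∃ z, D.a.eval z ≠ 0 ∧ h z ≠ 0 ∧ E z ≠ 0 := by
    by_contra hcon
    push Not at hcon
    have hEd := (hY E hE).1
    have h1 : ∀ z, h z ≠ 0 → E z = 0 := by
      intro z1 hz1
      obtain ⟨k, hk⟩ := Function.ne_iff.1 hz1
      have hk' : h z1 k ≠ 0 := hk
      have hda : Differentiable ℂ (fun z => D.a.eval z * h z k) :=
        D.a.differentiable.mul (D.hd k)
      by_cases hak : ∃ z, D.a.eval z * h z k ≠ 0
      · refine ent_mul' hda hEd hak (fun z hz => hcon z (left_ne_zero_of_mul hz) ?_) z1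
        intro h2
        rw [h2] at hz
        simp at hz
      · exfalso
        push Not at hak
        exact hk' (ent_mul D.a.differentiable (D.hd k) hak D.exists_a z1)
    obtain ⟨z1, hz1⟩ := h0
    obtain ⟨k, hk⟩ := Function.ne_iff.1 hz1
    obtain ⟨z2, hz2⟩ := hE0
    refine hz2 (ent_mul' (D.hd k) hEd ⟨z1, hk⟩ (fun z hz => h1 z ?_) z2)
    intro h2
    rw [h2] at hz
    exact hz rfl
  obtain ⟨z1, hz1, hh1, hE1⟩ := hex
  set x1 : Fin m → ℂ := D.g z1 with hx1
  have hmem : ∀ j, D.UU d (fun l _ => x1 l) j ∈ CoefRing Y := fun j =>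
    D.UU_mem d le_rfl (fun l => (CoefRing Y).algebraMap_mem (x1 l)) j
  have hdu : ∀ j, Differentiable ℂ (D.UU d (fun l _ => x1 l) j) := fun j =>
    differentiable_coef (fun u hu => (hY u hu).1) (hmem j)
  refine ⟨D.a ^ d, fun z j => D.UU d (fun l _ => x1 l) j z, pow_ne_zero _ D.a0,
    fun j => hmem j, ⟨z1, fun h2 => hh1 ?_⟩, ?_, ?_⟩
  · funext j
    have h3 : D.UU d (fun l _ => x1 l) j z1 = 0 := congrFun h2 j
    rw [D.UU_eval (hdj j) _ hz1] at h3
    have h4 := (mul_eq_zero.1 h3).resolve_left (pow_ne_zero _ hz1)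
    rw [show (fun l => x1 l) = D.g z1 from rfl, D.Ψ_g hz1] at h4
    exact h4
  · intro z j k
    have h2 := ent_mul' (F := fun z => D.UU d (fun l _ => x1 l) j z * h z k -
        D.UU d (fun l _ => x1 l) k z * h z j) D.a.differentiable
      (((hdu j).mul (D.hd k)).sub ((hdu k).mul (D.hd j))) D.exists_a (fun z hz => by
        rw [D.UU_eval (hdj j) _ hz, D.UU_eval (hdj k) _ hz]
        have h3 := hcase z x1 (D.g z) j k hz
        rw [D.Ψ_g hz] at h3
        linear_combination D.a.eval z ^ d * h3) z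
    exact sub_eq_zero.1 h2
  · intro hq z j
    obtain ⟨k0, hk0⟩ := Function.ne_iff.1 hh1
    have hk0' : h z1 k0 ≠ 0 := hk0
    -- near `z1` the family is equal to the curve
    have hU : ∀ i, Differentiable ℂ (fun z => D.UU d (fun l _ => x1 l) i z) := hdu
    have hUz1 : ∀ i, D.UU d (fun l _ => x1 l) i z1 = D.a.eval z1 ^ d * h z1 i := by
      intro i
      rw [D.UU_eval (hdj i) _ hz1, show (fun l => x1 l) = D.g z1 from rfl, D.Ψ_g hz1]
    have hc : ContinuousAt (fun z => D.UU d (fun l _ => x1 l) k0 z /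
        (D.a.eval z ^ d * h z k0)) z1 := by
      refine ContinuousAt.div (hU k0).continuous.continuousAt ?_
        (mul_ne_zero (pow_ne_zero _ hz1) hk0')
      exact ((D.a.continuous.continuousAt).pow d).mul (D.hd k0).continuous.continuousAt
    have hc1 : Tendsto (fun z => D.UU d (fun l _ => x1 l) k0 z /
        (D.a.eval z ^ d * h z k0)) (𝓝 z1) (𝓝 1) := by
      have h2 := hc.tendsto
      rwa [hUz1, div_self (mul_ne_zero (pow_ne_zero _ hz1) hk0')] at h2
    have ev1 := hc1.eventually (root_near hq)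
    have ev2 : ∀ᶠ z in 𝓝 z1, D.a.eval z ≠ 0 := D.a.continuous.continuousAt.eventually_ne hz1
    have ev3 : ∀ᶠ z in 𝓝 z1, h z k0 ≠ 0 := (D.hd k0).continuous.continuousAt.eventually_ne hk0'
    have ev4 : ∀ᶠ z in 𝓝 z1, E z ≠ 0 :=
      (hY E hE).1.continuous.continuousAt.eventually_ne hE1
    have key : ∀ᶠ z in 𝓝 z1, (D.a ^ d).eval z * h z j - D.UU d (fun l _ => x1 l) j z = 0 := by
      filter_upwards [ev1, ev2, ev3, ev4] with z e1 e2 e3 e4
      rw [D.UU_eval (hdj k0) _ e2, mul_div_mul_left _ _ (pow_ne_zero _ e2)] at e1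
      have e5 : ∀ i, D.Ψ z (fun l => x1 l) i =
          D.Ψ z (fun l => x1 l) k0 / h z k0 * h z i := by
        intro i
        have h3 := hcase z x1 (D.g z) i k0 e2
        rw [D.Ψ_g e2] at h3
        field_simp
        linear_combination h3
      have e6 : (D.Ψ z (fun l => x1 l) k0 / h z k0) ^ q = 1 := by
        have h3 := rel_E D hQD e2 (fun l => x1 l)
        have h4 : D.Ψ z (fun l => x1 l) = fun i =>
            (D.Ψ z (fun l => x1 l) k0 / h z k0) * h z i := funext e5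
        rw [h4, Pool.Agent.TH600.LC.eval_smul_homog hQ, hQE, hi0] at h3
        have h5 : ((D.Ψ z (fun l => x1 l) k0 / h z k0) ^ q - 1) * E z = 0 := by
          linear_combination h3
        exact sub_eq_zero.1 ((mul_eq_zero.1 h5).resolve_right e4)
      have e7 := e1 e6
      rw [D.UU_eval (hdj j) _ e2, e5 j, e7, Polynomial.eval_pow]
      ring
    have h6 := ent_zero_of_near (F := fun z => (D.a ^ d).eval z * h z j -
      D.UU d (fun l _ => x1 l) j z) (((D.a ^ d).differentiable.mul (D.hd j)).sub (hU j)) key z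
    exact sub_eq_zero.1 h6

/-- **Points on affine lines.** -/
theorem points0 {Y : Set (ℂ → ℂ)} (hY : ∀ u ∈ Y, Differentiable ℂ u ∧ DAlg u)
    {F : ι → MvPolynomial (Fin (N + 1)) ℂ} (hF : ∀ i, ∃ d, (F i).IsHomogeneous d)
    {Q : MvPolynomial (Fin (N + 1)) ℂ} {e : ℕ} (hQ : Q.IsHomogeneous e)
    {h : ℂ → Fin (N + 1) → ℂ} (hh : ∀ j, (fun z => h z j) ∈ GapOver Y 0) (h0 : ∃ z, h z ≠ 0)
    (hFh : ∀ z i, eval (h z) (F i) = 0) {E : ℂ → ℂ} (hE : E ∈ Y) (hE0 : ∃ z, E z ≠ 0)
    (hQE : ∀ z, eval (h z) Q = E z) :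
    (∃ Λ : ℂ → ℂ, Λ ∈ CoefRing Y ∧ (∃ z, Λ z ≠ 0) ∧
      ∀ z, Λ z ≠ 0 → h z ≠ 0 → OnLine F Q (h z)) ∨
    ∃ (a : Polynomial ℂ) (u : ℂ → Fin (N + 1) → ℂ), a ≠ 0 ∧
      (∀ j, (fun z => u z j) ∈ CoefRing Y) ∧ (∃ z, u z ≠ 0) ∧
      (∀ z j k, u z j * h z k = u z k * h z j) ∧ (0 < e → ∀ z j, a.eval z * h z j = u z j) := by
  obtain ⟨s, m, D, i0, hi0⟩ := exists_pfmE hY hh hE
  obtain ⟨d, hdj⟩ := D.exists_deg
  have hQD : ∀ z, eval (h z) Q = D.y z i0 := fun z => by rw [hQE, hi0]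
  by_cases hcase : ∃ z0 x0 x1 j k, D.a.eval z0 ≠ 0 ∧ E z0 ≠ 0 ∧
      D.Ψ z0 x0 j * D.Ψ z0 x1 k ≠ D.Ψ z0 x1 j * D.Ψ z0 x0 k
  · obtain ⟨z0, x0, x1, j, k, ha, hE1, hne⟩ := hcase
    left
    have hmem : ∀ (x : Fin m → ℂ) j, D.UU d (fun l _ => x l) j ∈ CoefRing Y := fun x j =>
      D.UU_mem d le_rfl (fun l => (CoefRing Y).algebraMap_mem (x l)) j
    refine ⟨(fun z => D.a.eval z) * E * (D.UU d (fun l _ => x0 l) j * D.UU d (fun l _ => x1 l) k -
        D.UU d (fun l _ => x1 l) j * D.UU d (fun l _ => x0 l) k), ?_, ⟨z0, ?_⟩, fun z hz hhz => ?_⟩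
    · refine (CoefRing Y).mul_mem ((CoefRing Y).mul_mem
        (Pool.Agent.TH600.LC.poly_mem_coef Y D.a)
        (Algebra.subset_adjoin (Set.mem_insert_of_mem _ hE))) ?_
      exact (CoefRing Y).sub_mem ((CoefRing Y).mul_mem (hmem _ _) (hmem _ _))
        ((CoefRing Y).mul_mem (hmem _ _) (hmem _ _))
    · simp only [Pi.mul_apply, Pi.sub_apply]
      rw [D.UU_eval (hdj j) _ ha, D.UU_eval (hdj k) _ ha, D.UU_eval (hdj j) _ ha,
        D.UU_eval (hdj k) _ ha]
      refine mul_ne_zero (mul_ne_zero ha hE1) fun h1 => hne ?_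
      have h2 : (D.a.eval z0 ^ d * D.a.eval z0 ^ d) *
          (D.Ψ z0 x0 j * D.Ψ z0 x1 k - D.Ψ z0 x1 j * D.Ψ z0 x0 k) = 0 := by
        linear_combination h1
      exact sub_eq_zero.1 ((mul_eq_zero.1 h2).resolve_left
        (mul_ne_zero (pow_ne_zero _ ha) (pow_ne_zero _ ha)))
    · simp only [Pi.mul_apply, Pi.sub_apply] at hz
      have hza : D.a.eval z ≠ 0 := left_ne_zero_of_mul (left_ne_zero_of_mul hz)
      have hzE : E z ≠ 0 := right_ne_zero_of_mul (left_ne_zero_of_mul hz)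
      have hzd := right_ne_zero_of_mul hz
      rw [D.UU_eval (hdj j) _ hza, D.UU_eval (hdj k) _ hza, D.UU_eval (hdj j) _ hza,
        D.UU_eval (hdj k) _ hza] at hzd
      have hpair : D.Ψ z x0 j * D.Ψ z x1 k - D.Ψ z x1 j * D.Ψ z x0 k ≠ 0 := by
        intro h1
        apply hzd
        linear_combination (D.a.eval z ^ d * D.a.eval z ^ d) * h1
      -- one of the two points is not proportional to `h z`
      obtain ⟨x, j1, k1, hx⟩ : ∃ (x : Fin m → ℂ) (j1 k1 : Fin (N + 1)),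
          h z j1 * D.Ψ z x k1 ≠ h z k1 * D.Ψ z x j1 := by
        by_contra hcon
        push Not at hcon
        obtain ⟨l, hl⟩ := Function.ne_iff.1 hhz
        have hl' : h z l ≠ 0 := hl
        apply hpair
        have e1 := hcon x0 l j
        have e2 := hcon x1 l k
        have e3 := hcon x1 l j
        have e4 := hcon x0 l k
        have h2 : (h z l * h z l) *
            (D.Ψ z x0 j * D.Ψ z x1 k - D.Ψ z x1 j * D.Ψ z x0 k) = 0 := by
          linear_combination (h z l * D.Ψ z x1 k) * e1 + (h z j * D.Ψ z x0 l) * e2 -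
            (h z l * D.Ψ z x0 k) * e3 - (h z j * D.Ψ z x1 l) * e4
        exact (mul_eq_zero.1 h2).resolve_left (mul_ne_zero hl' hl')
      have hcr : ∀ t, (fun j => (crvP D z x j).eval t) =
          D.Ψ z (fun l => D.g z l + t * (x l - D.g z l)) := fun t =>
        funext fun j => eval_crvP D hza x t j
      have hc0 : ∀ j, (crvP D z x j).eval 0 = h z j := by
        intro j
        rw [eval_crvP D hza]
        simp only [zero_mul, add_zero]
        exact congrFun (D.Ψ_g hza) j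
      have hc1 : ∀ j, (crvP D z x j).eval 1 = D.Ψ z x j := by
        intro j
        rw [eval_crvP D hza]
        congr 1
        funext l
        ring
      refine line_of_poly hF hQ (P := crvP D z x) (fun t i => ?_) (fun t => ?_)
        ⟨0, 1, j1, k1, ?_⟩ hhz (t := 0) hc0
      · rw [hcr]
        exact D.rel_Ψ (fun w => hFh w i) hza _
      · rw [hcr, rel_E D hQD hza, hi0]
        exact hzE
      · rw [hc0, hc0, hc1, hc1]
        exact hx
  · right
    push Not at hcase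
    have hcase' : ∀ z x0 x1 j k, D.a.eval z ≠ 0 →
        D.Ψ z x0 j * D.Ψ z x1 k = D.Ψ z x1 j * D.Ψ z x0 k := by
      intro z x0 x1 j k hz
      by_contra hne
      -- by continuity, near `z` the product is nonzero, and `E` is nonzero somewhere there
      have hdU : ∀ (x : Fin m → ℂ) j, Differentiable ℂ (D.UU d (fun l _ => x l) j) := fun x j =>
        D.hd_UU (fun u hu => (hY u hu).1) d (fun l => differentiable_const _) j
      have h1 := ent_mul' (A := fun z => D.a.eval z * E z)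
        (F := fun z => D.UU d (fun l _ => x0 l) j z * D.UU d (fun l _ => x1 l) k z -
          D.UU d (fun l _ => x1 l) j z * D.UU d (fun l _ => x0 l) k z)
        (D.a.differentiable.mul (hY E hE).1)
        (((hdU _ _).mul (hdU _ _)).sub ((hdU _ _).mul (hdU _ _))) (by
          by_contra hcon
          push Not at hcon
          obtain ⟨z2, hz2⟩ := hE0
          exact hz2 (ent_mul D.a.differentiable (hY E hE).1 hcon D.exists_a z2)) (fun z hz => by
          have hz1 := left_ne_zero_of_mul hz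
          rw [D.UU_eval (hdj j) _ hz1, D.UU_eval (hdj k) _ hz1, D.UU_eval (hdj j) _ hz1,
            D.UU_eval (hdj k) _ hz1]
          have h2 := hcase z x0 x1 j k hz1 (right_ne_zero_of_mul hz)
          linear_combination (D.a.eval z ^ d * D.a.eval z ^ d) * h2) z
      rw [D.UU_eval (hdj j) _ hz, D.UU_eval (hdj k) _ hz, D.UU_eval (hdj j) _ hz,
        D.UU_eval (hdj k) _ hz] at h1
      apply hne
      have h2 : (D.a.eval z ^ d * D.a.eval z ^ d) *
          (D.Ψ z x0 j * D.Ψ z x1 k - D.Ψ z x1 j * D.Ψ z x0 k) = 0 := by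
        linear_combination h1
      exact sub_eq_zero.1 ((mul_eq_zero.1 h2).resolve_left
        (mul_ne_zero (pow_ne_zero _ hz) (pow_ne_zero _ hz)))
    exact triv D hY hQ hQD h0 hE hE0 hi0 hdj hcase' hQE

end Run7.h302.PG
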