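import Pool.Agent.Run7.h302.PG.Pts

/-!
# Affine lines through the points of gap curves: entire curves and maps from the punctured disc
-/

set_option autoImplicit false

namespace Run7.h302.PG

open MvPolynomial Metric Set Filter Topology
open Pool.Agent.TH143 Pool.Agent.W603.BP
open Pool.Agent.TH600.LC (GapRing GapOver DFin Pfm CoefRing ent_mul ent_mul' ent_zero_of_near
  DAlg tr tr_apply tr_diff tr_dAlg tr_coef gapOver_translate dAlg_of_polODE differentiable_eval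
  exists_repr_pair HadamardGaps gapOver_diff)

variable {N : ℕ} {ι : Type}

theorem points {Y : Set (ℂ → ℂ)} (hY : Y ⊆ DFin) {z₀ : ℂ}
    {F : ι → MvPolynomial (Fin (N + 1)) ℂ} (hF : ∀ i, ∃ d, (F i).IsHomogeneous d)
    {Q : MvPolynomial (Fin (N + 1)) ℂ} {e : ℕ} (hQ : Q.IsHomogeneous e)
    {h : ℂ → Fin (N + 1) → ℂ} (hh : ∀ j, (fun z => h z j) ∈ GapOver Y z₀) (h0 : ∃ z, h z ≠ 0)
    (hFh : ∀ z i, eval (h z) (F i) = 0) {E : ℂ → ℂ} (hE : E ∈ Y) (hE0 : ∃ z, E z ≠ 0)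
    (hQE : ∀ z, eval (h z) Q = E z) :
    (∃ Λ : ℂ → ℂ, Λ ∈ CoefRing Y ∧ (∃ z, Λ z ≠ 0) ∧
      ∀ z, Λ z ≠ 0 → h z ≠ 0 → OnLine F Q (h z)) ∨
    ∃ (a : Polynomial ℂ) (u : ℂ → Fin (N + 1) → ℂ), a ≠ 0 ∧
      (∀ j, (fun z => u z j) ∈ CoefRing Y) ∧ (∃ z, u z ≠ 0) ∧
      (∀ z j k, u z j * h z k = u z k * h z j) ∧ (0 < e → ∀ z j, a.eval z * h z j = u z j) := by
  have hY' : ∀ u ∈ tr z₀ '' Y, Differentiable ℂ u ∧ DAlg u := by
    rintro _ ⟨u, hu, rfl⟩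
    exact ⟨tr_diff z₀ (hY hu).1, tr_dAlg z₀ (dAlg_of_polODE (hY hu).2)⟩
  rcases points0 hY' hF hQ (h := fun z => h (z + z₀)) (fun j => gapOver_translate (hh j)) (by
    obtain ⟨z, hz⟩ := h0
    exact ⟨z - z₀, by rwa [sub_add_cancel]⟩) (fun z i => hFh _ i) (E := tr z₀ E) ⟨E, hE, rfl⟩ (by
    obtain ⟨z, hz⟩ := hE0
    exact ⟨z - z₀, by rwa [tr_apply, sub_add_cancel]⟩) (fun z => hQE _) with
    ⟨Λ, h1, ⟨z1, h2⟩, h3⟩ | ⟨a, u, ha, h1, ⟨z1, h2⟩, h3, h4⟩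
  · left
    refine ⟨tr (-z₀) Λ, tr_coef h1, ⟨z1 + z₀, by rwa [tr_apply, add_neg_cancel_right]⟩,
      fun z hz hhz => ?_⟩
    rw [tr_apply] at hz
    have h4 := h3 (z + -z₀) hz (by
      beta_reduce
      rwa [neg_add_cancel_right])
    rwa [neg_add_cancel_right] at h4
  · right
    refine ⟨Pool.Agent.TH600.LC.trP (-z₀) a, fun z => u (z + -z₀), ?_, fun j => tr_coef (h1 j),
      ⟨z1 - -z₀, by
      beta_reduce
      rwa [sub_add_cancel]⟩, fun z j k => ?_, fun hq z j => ?_⟩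
    · intro h5
      exact ha (Pool.Agent.TH600.LC.trP_inj (-z₀) (h5.trans (map_zero _).symm))
    · have h5 := h3 (z + -z₀) j k
      rwa [neg_add_cancel_right] at h5
    · have h5 := h4 hq (z + -z₀) j
      rwa [neg_add_cancel_right, ← Pool.Agent.TH600.LC.trP_eval] at h5

theorem on_scale {F : ι → MvPolynomial (Fin (N + 1)) ℂ} (hF : ∀ i, ∃ d, (F i).IsHomogeneous d)
    {Q : MvPolynomial (Fin (N + 1)) ℂ} {e : ℕ} (hQ : Q.IsHomogeneous e) {c : ℂ} (hc : c ≠ 0)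
    {v u : Fin (N + 1) → ℂ} (h : v = c • u) : On F Q v ↔ On F Q u := by
  refine and_congr (forall_congr' fun i => ?_) (not_congr ?_)
  · obtain ⟨d, hd⟩ := hF i
    rw [h, smul_form hd, mul_eq_zero, or_iff_right (pow_ne_zero d hc)]
  · rw [h, smul_form hQ, mul_eq_zero, or_iff_right (pow_ne_zero e hc)]

/-- A nonconstant holomorphic map from the line to the variety `F = 0`, `Q ≠ 0`, with homogeneous
coordinates without common zeros in the ring `R`. -/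
structure RingEnt (R : Subalgebra ℂ (ℂ → ℂ)) (F : ι → MvPolynomial (Fin (N + 1)) ℂ)
    (Q : MvPolynomial (Fin (N + 1)) ℂ) (f : ℂ → Fin (N + 1) → ℂ) : Prop where
  an : ∀ j, Differentiable ℂ (fun z => f z j)
  ne : ∀ z : ℂ, f z ≠ 0
  on : ∀ z : ℂ, On F Q (f z)
  nonconst : ∃ z w j k, f z j * f w k ≠ f z k * f w j
  coord : EntIn R f

/-- A holomorphic map from the punctured unit disc to the variety `F = 0`, `Q ≠ 0` with an essential
singularity at the origin, with homogeneous coordinates `h (1 / w)` without common zeros in the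
punctured disc, where the coordinates of `h` belong to the ring `R` of entire functions. -/
structure RingPun (R : Subalgebra ℂ (ℂ → ℂ)) (F : ι → MvPolynomial (Fin (N + 1)) ℂ)
    (Q : MvPolynomial (Fin (N + 1)) ℂ) (f : ℂ → Fin (N + 1) → ℂ) : Prop where
  an : ∀ j, AnalyticOnNhd ℂ (fun w => f w j) {w : ℂ | w ≠ 0 ∧ ‖w‖ < 1}
  ne : ∀ w : ℂ, w ≠ 0 → ‖w‖ < 1 → f w ≠ 0
  on : ∀ w : ℂ, w ≠ 0 → ‖w‖ < 1 → On F Q (f w)
  coord : PunIn R f
  ess : ¬ Extends f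

theorem poly_coef {Y : Set (ℂ → ℂ)} (hY : ∀ v ∈ Y, ∃ P : Polynomial ℂ, ∀ z, v z = P.eval z)
    {Λ : ℂ → ℂ} (hΛ : Λ ∈ CoefRing Y) (h0 : ∃ z, Λ z ≠ 0) : {z | Λ z = 0}.Finite := by
  obtain ⟨P, hP⟩ := coef_poly hY hΛ
  have hP0 : P ≠ 0 := by
    rintro rfl
    obtain ⟨z, hz⟩ := h0
    apply hz
    rw [hP, Polynomial.eval_zero]
  refine (Polynomial.finite_setOfPred_isRoot hP0).subset fun z hz => ?_
  have hz' : Λ z = 0 := hz
  rw [hP] at hz'
  exact hz'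

/-- a curve which is parallel to a polynomial curve -/
theorem line_of_par {F : ι → MvPolynomial (Fin (N + 1)) ℂ}
    (hF : ∀ i, ∃ d, (F i).IsHomogeneous d) {Q : MvPolynomial (Fin (N + 1)) ℂ} {e : ℕ}
    (hQ : Q.IsHomogeneous e) {h : ℂ → Fin (N + 1) → ℂ} (hd : ∀ j, Differentiable ℂ (fun z => h z j))
    (hne : ∀ z, h z ≠ 0) (hon : ∀ z, On F Q (h z))
    (hnc : ∃ z w j k, h z j * h w k ≠ h z k * h w j) {R : Fin (N + 1) → Polynomial ℂ}
    (hR0 : ∃ j, R j ≠ 0) (hR : ∀ z j k, (R j).eval z * h z k = (R k).eval z * h z j) (z : ℂ) :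
    OnLine F Q (h z) := by
  obtain ⟨g, q, hgq, hq⟩ := exists_red R
  have hg : g ≠ 0 := by
    rintro rfl
    obtain ⟨j, hj⟩ := hR0
    exact hj (by rw [hgq, zero_mul])
  have hpar : ∀ z j k, (q j).eval z * h z k = (q k).eval z * h z j := by
    intro z j k
    have h1 := ent_mul' (A := fun z => g.eval z)
      (F := fun z => (q j).eval z * h z k - (q k).eval z * h z j) g.differentiable
      (((q j).differentiable.mul (hd k)).sub ((q k).differentiable.mul (hd j))) (by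
        by_contra hcon
        push Not at hcon
        exact hg (Polynomial.funext fun z => by rw [hcon, Polynomial.eval_zero])) (fun z hz => by
        have h2 := hR z j k
        rw [hgq, hgq, Polynomial.eval_mul, Polynomial.eval_mul] at h2
        have h3 : g.eval z * ((q j).eval z * h z k - (q k).eval z * h z j) = 0 := by
          linear_combination h2
        exact (mul_eq_zero.1 h3).resolve_left hz) z
    exact sub_eq_zero.1 h1
  have hscal : ∀ z, ∃ c : ℂ, c ≠ 0 ∧ (fun j => (q j).eval z) = c • h z := by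
    intro z
    obtain ⟨k, hk⟩ := Function.ne_iff.1 (hne z)
    have hk' : h z k ≠ 0 := hk
    have heq : (fun j => (q j).eval z) = ((q k).eval z / h z k) • h z := by
      funext j
      rw [Pi.smul_apply, smul_eq_mul, div_mul_eq_mul_div, eq_div_iff hk']
      exact hpar z j k
    refine ⟨(q k).eval z / h z k, ?_, heq⟩
    intro h0
    rw [h0, zero_smul] at heq
    obtain ⟨j, hj⟩ := hq z
    exact hj (congrFun heq j)
  obtain ⟨c, hc, hcz⟩ := hscal z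
  refine ⟨q, ⟨hq, fun t => ?_, ?_⟩, z, c, hc, fun j => congrFun hcz j⟩
  · obtain ⟨c', hc', h1⟩ := hscal t
    exact (on_scale hF hQ hc' h1).2 (hon t)
  · obtain ⟨s, t, j, k, hst⟩ := hnc
    obtain ⟨c1, hc1, h1⟩ := hscal s
    obtain ⟨c2, hc2, h2⟩ := hscal t
    refine ⟨s, t, j, k, fun h0 => hst ?_⟩
    have e1 : ∀ j, (q j).eval s = c1 * h s j := fun j => congrFun h1 j
    have e2 : ∀ j, (q j).eval t = c2 * h t j := fun j => congrFun h2 j
    rw [e1, e2, e1, e2] at h0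
    have h3 : (c1 * c2) * (h s j * h t k - h s k * h t j) = 0 := by linear_combination h0
    exact sub_eq_zero.1 ((mul_eq_zero.1 h3).resolve_left (mul_ne_zero hc1 hc2))

/-- **Points of entire gap curves.** -/
theorem ent_points {F : ι → MvPolynomial (Fin (N + 1)) ℂ}
    (hF : ∀ i, ∃ d, (F i).IsHomogeneous d) {Q : MvPolynomial (Fin (N + 1)) ℂ} {e : ℕ}
    (hQ : Q.IsHomogeneous e) {z₀ : ℂ} {f : ℂ → Fin (N + 1) → ℂ}
    (hf : RingEnt (GapRing z₀) F Q f) : ∃ S : Set ℂ, S.Finite ∧ ∀ z ∉ S, OnLine F Q (f z) := by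
  obtain ⟨h, hh, hfh⟩ := hf.coord
  have hc : ∀ z, ∃ c : ℂ, c ≠ 0 ∧ f z = c • h z := by
    intro z
    obtain ⟨c, hc⟩ := hfh z
    exact ⟨c, scal_ne (hf.ne z) hc, hc⟩
  have hon : ∀ z, On F Q (h z) := by
    intro z
    obtain ⟨c, hc0, hc1⟩ := hc z
    exact (on_scale hF hQ hc0 hc1).1 (hf.on z)
  have hhne : ∀ z, h z ≠ 0 := by
    intro z h0
    obtain ⟨c, hc0, hc1⟩ := hc z
    apply hf.ne z
    rw [hc1, h0, smul_zero]
  have hhd : ∀ j, Differentiable ℂ (fun z => h z j) := fun j =>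
    gapOver_diff (Y := ∅) (fun u hu => absurd hu (Set.notMem_empty u)) (gapRing_le ∅ z₀ (hh j))
  have hnc : ∃ z w j k, h z j * h w k ≠ h z k * h w j := by
    obtain ⟨s, t, j, k, hst⟩ := hf.nonconst
    refine ⟨s, t, j, k, fun h0 => hst ?_⟩
    obtain ⟨c, -, hc1⟩ := hc s
    obtain ⟨c', -, hc2⟩ := hc t
    rw [hc1, hc2]
    simp only [Pi.smul_apply, smul_eq_mul]
    linear_combination (c * c') * h0
  obtain ⟨c, hc0, hcE⟩ := gapRing_const (eval_mem hh Q) fun z => (hon z).2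
  have hY : ({fun _ => c} : Set (ℂ → ℂ)) ⊆ DFin := by
    rintro u rfl
    exact const_dfin c
  have hYp : ∀ v ∈ ({fun _ => c} : Set (ℂ → ℂ)), ∃ P : Polynomial ℂ, ∀ z, v z = P.eval z := by
    rintro v rfl
    exact ⟨Polynomial.C c, fun z => by simp⟩
  rcases points hY hF hQ (fun j => gapRing_le _ z₀ (hh j)) ⟨0, hhne 0⟩ (fun z i => (hon z).1 i)
    (E := fun _ => c) (Set.mem_singleton _) ⟨0, hc0⟩ hcE with
    ⟨Λ, h1, h2, h3⟩ | ⟨a, u, -, h2, ⟨z1, h3⟩, h4, -⟩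
  · refine ⟨{z | Λ z = 0}, poly_coef hYp h1 h2, fun z hz => ?_⟩
    obtain ⟨c, hc0, hc1⟩ := hc z
    exact (h3 z hz (hhne z)).scale hc0 hc1
  · choose R hR using fun j => coef_poly hYp (h2 j)
    refine ⟨∅, Set.finite_empty, fun z _ => ?_⟩
    obtain ⟨c, hc0, hc1⟩ := hc z
    refine (line_of_par hF hQ hhd hhne hon hnc (R := R) ?_ (fun z j k => ?_) z).scale hc0 hc1
    · obtain ⟨j, hj⟩ := Function.ne_iff.1 h3
      refine ⟨j, fun h0 => hj ?_⟩
      rw [hR j z1, h0, Polynomial.eval_zero]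
      rfl
    · rw [← hR, ← hR]
      exact h4 z j k

theorem inv_big {z : ℂ} (hz : 2 ≤ ‖z‖) : z⁻¹ ≠ 0 ∧ ‖z⁻¹‖ < 1 := by
  have h0 : z ≠ 0 := by
    rintro rfl
    rw [norm_zero] at hz
    linarith
  refine ⟨inv_ne_zero h0, ?_⟩
  rw [norm_inv]
  exact inv_lt_one_of_one_lt₀ (by linarith)

theorem ent_zero_big {u : ℂ → ℂ} (hu : Differentiable ℂ u) (h : ∀ z : ℂ, 2 ≤ ‖z‖ → u z = 0)
    (z : ℂ) : u z = 0 := by
  refine ent_zero_of_near (z1 := 3) hu ?_ z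
  have h1 : ∀ᶠ z in 𝓝 (3 : ℂ), 2 < ‖z‖ := by
    refine continuous_norm.continuousAt.eventually (lt_mem_nhds ?_)
    simp
    norm_num
  filter_upwards [h1] with z hz
  exact h z hz.le

/-- **Points of gap maps from the punctured disc.** -/
theorem pun_points {F : ι → MvPolynomial (Fin (N + 1)) ℂ}
    (hF : ∀ i, ∃ d, (F i).IsHomogeneous d) {Q : MvPolynomial (Fin (N + 1)) ℂ} {e : ℕ}
    (hQ : Q.IsHomogeneous e) {z₀ : ℂ} {f : ℂ → Fin (N + 1) → ℂ}
    (hf : RingPun (GapRing z₀) F Q f) :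
    ∃ S : Set ℂ, S.Finite ∧ ∀ w ∉ S, w ≠ 0 → ‖w‖ < 1 → OnLine F Q (f w) := by
  obtain ⟨h, hh, hfh'⟩ := hf.coord
  have hfh : ∀ w : ℂ, w ≠ 0 → ‖w‖ < 1 → ∃ c : ℂ, c ≠ 0 ∧ f w = c • h w⁻¹ := by
    intro w hw hw1
    obtain ⟨c, hc⟩ := hfh' w (mem_disc.2 ⟨hw, hw1⟩)
    exact ⟨c, scal_ne (hf.ne w hw hw1) hc, hc⟩
  have hhd : ∀ j, Differentiable ℂ (fun z => h z j) := fun j =>
    gapOver_diff (Y := ∅) (fun u hu => absurd hu (Set.notMem_empty u)) (gapRing_le ∅ z₀ (hh j))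
  have hon : ∀ z : ℂ, 2 ≤ ‖z‖ → On F Q (h z) := by
    intro z hz
    obtain ⟨h1, h2⟩ := inv_big hz
    obtain ⟨c, hc0, hc1⟩ := hfh z⁻¹ h1 h2
    rw [inv_inv] at hc1
    exact (on_scale hF hQ hc0 hc1).1 (hf.on _ h1 h2)
  have hFh : ∀ z i, eval (h z) (F i) = 0 := fun z i =>
    ent_zero_big (differentiable_eval hhd (F i)) (fun z hz => (hon z hz).1 i) z
  have h2n : (2 : ℝ) ≤ ‖(2 : ℂ)‖ := by simp
  have hhne : ∃ z, h z ≠ 0 := by
    refine ⟨2, fun h0 => ?_⟩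
    obtain ⟨h1, h2⟩ := inv_big h2n
    obtain ⟨c, hc0, hc1⟩ := hfh 2⁻¹ h1 h2
    rw [inv_inv, h0, smul_zero] at hc1
    exact hf.ne _ h1 h2 hc1
  obtain ⟨P, hP⟩ := gapRing_poly (eval_mem hh Q) fun z hz => (hon z hz).2
  have hY : ({fun z => P.eval z} : Set (ℂ → ℂ)) ⊆ DFin := by
    rintro u rfl
    exact dfin_poly P
  have hYp : ∀ v ∈ ({fun z => P.eval z} : Set (ℂ → ℂ)), ∃ P : Polynomial ℂ, ∀ z,
      v z = P.eval z := by
    rintro v rfl
    exact ⟨P, fun z => rfl⟩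
  rcases points hY hF hQ (fun j => gapRing_le _ z₀ (hh j)) hhne hFh
    (E := fun z => P.eval z) (Set.mem_singleton _) ⟨2, by
      rw [← hP]
      exact (hon 2 h2n).2⟩ hP with ⟨Λ, h1, h2, h3⟩ | ⟨a, u, -, h2, ⟨z1, h3⟩, h4, -⟩
  · refine ⟨(fun z : ℂ => z⁻¹) '' {z | Λ z = 0}, (poly_coef hYp h1 h2).image _,
      fun w hw hw0 hw1 => ?_⟩
    obtain ⟨c, hc0, hc1⟩ := hfh w hw0 hw1
    refine (h3 w⁻¹ (fun h0 => hw ⟨w⁻¹, h0, inv_inv w⟩) ?_).scale hc0 hc1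
    intro h0
    rw [h0, smul_zero] at hc1
    exact hf.ne w hw0 hw1 hc1
  · exfalso
    apply hf.ess
    choose R hR using fun j => coef_poly hYp (h2 j)
    refine extends_of_par (R := R) hf.an (fun w hw => hf.ne w hw.1 hw.2) ?_ ?_
    · obtain ⟨j, hj⟩ := Function.ne_iff.1 h3
      refine ⟨j, fun h0 => hj ?_⟩
      rw [hR j z1, h0, Polynomial.eval_zero]
      rfl
    · intro w hw j k
      obtain ⟨c, hc0, hc1⟩ := hfh w hw.1 hw.2
      rw [← hR, ← hR, hc1]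
      simp only [Pi.smul_apply, smul_eq_mul]
      have h5 := h4 w⁻¹ j k
      linear_combination c * h5

end Run7.h302.PG
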