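import Pool.Agent.Run7.h302.PG.Cnt

/-!
# The operator `P - X P' / n` and the zeros of a polynomial
-/

set_option autoImplicit false

namespace Run7.h302.PG

open Polynomial Metric Complex

theorem re_far {w z : ℂ} (h : ‖z‖ < ‖w‖) : 1 / 2 ≤ (w / (w - z)).re := by
  have hne : w - z ≠ 0 := by
    intro h0
    rw [sub_eq_zero] at h0
    rw [h0] at h
    exact lt_irrefl _ h
  have hpos : 0 < normSq (w - z) := normSq_pos.2 hne
  have h1 : normSq z ≤ normSq w := by
    rw [normSq_eq_norm_sq, normSq_eq_norm_sq]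
    exact pow_le_pow_left₀ (norm_nonneg _) h.le 2
  rw [div_re, ← add_div, le_div_iff₀ hpos]
  simp only [normSq_apply, sub_re, sub_im] at h1 ⊢
  nlinarith

theorem re_near {w z : ℂ} {r ρ : ℝ} (hw : ‖w‖ ≤ r) (hz : ‖z‖ = ρ) (h : r < ρ) :
    -(r / (ρ - r)) ≤ (w / (w - z)).re := by
  have h1 : ρ - r ≤ ‖w - z‖ := by
    have h2 := norm_sub_norm_le z w
    rw [norm_sub_rev] at h2
    linarith
  have h3 : ‖w / (w - z)‖ ≤ r / (ρ - r) := by
    rw [norm_div]
    exact div_le_div₀ ((norm_nonneg w).trans hw) hw (by linarith) h1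
  have h4 := (abs_le.1 (abs_re_le_norm (w / (w - z)))).1
  linarith

theorem re_sum (s : Multiset ℂ) {r ρ : ℝ} {z : ℂ} (hz : ‖z‖ = ρ) (hr : r < ρ)
    (hs : ∀ w ∈ s, ‖w‖ ≤ r ∨ ρ < ‖w‖) :
    ((s.card : ℝ) - (s.filter fun w => ‖w‖ < ρ).card) / 2 -
      (s.filter fun w => ‖w‖ < ρ).card * (r / (ρ - r)) ≤ ((s.map fun w => w / (w - z)).sum).re := by
  induction s using Multiset.induction_on with
  | empty => simp
  | cons w s ih =>
    have h1 := ih fun v hv => hs v (Multiset.mem_cons_of_mem hv)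
    rw [Multiset.map_cons, Multiset.sum_cons, add_re, Multiset.card_cons]
    rcases hs w (Multiset.mem_cons_self w s) with h2 | h2
    · have h3 := re_near h2 hz hr
      rw [Multiset.filter_cons_of_pos (p := fun w : ℂ => ‖w‖ < ρ) s (lt_of_le_of_lt h2 hr),
        Multiset.card_cons]
      push_cast
      linarith
    · have h3 := re_far (z := z) (w := w) (by rw [hz]; exact h2)
      rw [Multiset.filter_cons_of_neg (p := fun w : ℂ => ‖w‖ < ρ) s (not_lt.2 h2.le)]
      push_cast
      linarith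

/-- The operator. -/
noncomputable def Lop (n : ℕ) (P : ℂ[X]) : ℂ[X] := P - C ((1 : ℂ) / n) * (X * derivative P)

theorem coeff_Lop (n : ℕ) (P : ℂ[X]) (j : ℕ) :
    (Lop n P).coeff j = (1 - (j : ℂ) / n) * P.coeff j := by
  rw [Lop, coeff_sub, coeff_C_mul]
  cases j with
  | zero => simp
  | succ j =>
    rw [coeff_X_mul, coeff_derivative]
    push_cast
    ring

theorem lop_quot {P : ℂ[X]} {n : ℕ} (hn : P.natDegree = n) (hn0 : n ≠ 0) {z : ℂ}
    (hz : P.eval z ≠ 0) :
    (Lop n P).eval z / P.eval z = (1 / (n : ℂ)) * (P.roots.map fun w => w / (w - z)).sum := by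
  have hn' : (n : ℂ) ≠ 0 := by exact_mod_cast hn0
  have h1 := (IsAlgClosed.splits P).eval_derivative_div_eval_of_ne_zero hz
  have hcard : P.roots.card = n := by
    rw [← (IsAlgClosed.splits P).natDegree_eq_card_roots, hn]
  have h2 : (P.roots.map fun w => w / (w - z)).sum =
      (n : ℂ) - z * (P.roots.map fun w => 1 / (z - w)).sum := by
    rw [← hcard, ← Multiset.sum_map_mul_left]
    have h3 : ∀ s : Multiset ℂ, (∀ w ∈ s, z ≠ w) → (s.map fun w => w / (w - z)).sum =
        (s.card : ℂ) - (s.map fun w => z * (1 / (z - w))).sum := by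
      intro s
      induction s using Multiset.induction_on with
      | empty => intro _; simp
      | cons w s ih =>
        intro hs
        have h4 := ih fun v hv => hs v (Multiset.mem_cons_of_mem hv)
        have h5 : z - w ≠ 0 := sub_ne_zero.2 (hs w (Multiset.mem_cons_self w s))
        have h6 : w - z ≠ 0 := sub_ne_zero.2 (Ne.symm (hs w (Multiset.mem_cons_self w s)))
        rw [Multiset.map_cons, Multiset.sum_cons, Multiset.map_cons, Multiset.sum_cons,
          Multiset.card_cons, h4]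
        push_cast
        have h7 : w / (w - z) = 1 - z * (1 / (z - w)) := by
          field_simp
          ring
        rw [h7]
        ring
    refine h3 _ fun w hw h0 => hz ?_
    rw [h0]
    exact (mem_roots'.1 hw).2
  rw [h2, ← h1, Lop]
  simp only [eval_sub, eval_mul, eval_C, eval_X]
  field_simp

/-- Zeros in annuli. -/
theorem lop_step {P : ℂ[X]} {n q : ℕ} {r R r' : ℝ} (hn : P.natDegree = n) (hq : q < n)
    (hr : 0 ≤ r) (hroots : ∀ w ∈ P.roots, ‖w‖ ≤ r ∨ R ≤ ‖w‖)
    (hcnt : (P.roots.filter fun w => ‖w‖ ≤ r).card = q)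
    (hr' : r * ((n + q) / (n - q)) ≤ r') (hR : r' < R) :
    Lop n P ≠ 0 ∧ (∀ w ∈ (Lop n P).roots, ‖w‖ ≤ r' ∨ R ≤ ‖w‖) ∧
      ((Lop n P).roots.filter fun w => ‖w‖ ≤ r').card = q := by
  have hn0 : n ≠ 0 := by omega
  have hP : P ≠ 0 := by
    rintro rfl
    rw [natDegree_zero] at hn
    omega
  have hnq : (0 : ℝ) < n - q := by
    have : (q : ℝ) < n := by exact_mod_cast hq
    linarith
  have hrr : r ≤ r' := by
    refine le_trans ?_ hr'
    have h1 : (1 : ℝ) ≤ (n + q) / (n - q) := by
      rw [le_div_iff₀ hnq]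
      have : (0 : ℝ) ≤ q := Nat.cast_nonneg q
      linarith
    exact le_mul_of_one_le_right hr h1
  have hcardn : P.roots.card = n := by
    rw [← (IsAlgClosed.splits P).natDegree_eq_card_roots, hn]
  have hcntP : ∀ ρ, r < ρ → ρ < R → cnt P ρ = q := by
    intro ρ h1 h2
    rw [← hcnt, cnt]
    congr 1
    refine Multiset.filter_congr fun w hw => ?_
    constructor
    · intro h3
      rcases hroots w hw with h4 | h4
      · exact h4
      · exact absurd (h2.trans_le h4) (not_lt.2 h3.le)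
    · intro h3
      exact lt_of_le_of_lt h3 h1
  have key : ∀ ρ, r' < ρ → ρ < R → cnt (Lop n P) ρ = q ∧ ∀ z : ℂ, ‖z‖ = ρ →
      (Lop n P).eval z ≠ 0 := by
    intro ρ h1 h2
    have hρ : 0 < ρ := by linarith
    have h3 : ∀ z : ℂ, ‖z‖ = ρ → P.eval z ≠ 0 ∧ 0 < ((Lop n P).eval z / P.eval z).re := by
      intro z hz
      have hz0 : P.eval z ≠ 0 := by
        intro h0
        rcases hroots z ((mem_roots hP).2 h0) with h4 | h4 <;> linarith
      refine ⟨hz0, ?_⟩
      rw [lop_quot hn hn0 hz0]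
      have h4 := re_sum P.roots (r := r) hz (by linarith) (fun w hw => by
        rcases hroots w hw with h5 | h5
        · exact Or.inl h5
        · exact Or.inr (by linarith))
      have h5 : (P.roots.filter fun w => ‖w‖ < ρ).card = q := hcntP ρ (by linarith) h2
      rw [h5, hcardn] at h4
      have h6 : (1 / (n : ℂ)) = ((1 / (n : ℝ) : ℝ) : ℂ) := by push_cast; ring
      rw [h6, re_ofReal_mul]
      have hnpos : (0 : ℝ) < n := by exact_mod_cast Nat.pos_of_ne_zero hn0
      refine mul_pos (by positivity) (lt_of_lt_of_le ?_ h4)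
      have h7 : r * (n + q) < ρ * (n - q) := by
        have h8 : r * ((n + q) / (n - q)) < ρ := lt_of_le_of_lt hr' h1
        rw [← mul_div_assoc, div_lt_iff₀ hnq] at h8
        exact h8
      have h9 : 0 < ρ - r := by linarith
      have h10 : (q : ℝ) * (r / (ρ - r)) < (n - q) / 2 := by
        rw [← mul_div_assoc, div_lt_iff₀ h9]
        nlinarith
      linarith
    refine ⟨(cnt_eq hρ h3).trans (hcntP ρ (by linarith) h2), fun z hz h0 => ?_⟩
    have h4 := (h3 z hz).2
    rw [h0, zero_div, zero_re] at h4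
    exact lt_irrefl _ h4
  have hL : Lop n P ≠ 0 := by
    intro h0
    have hρ1 : r' < (r' + R) / 2 := by linarith
    have hρ2 : (r' + R) / 2 < R := by linarith
    have h1 := (key ((r' + R) / 2) hρ1 hρ2).2 (((r' + R) / 2 : ℝ) : ℂ) (by
      rw [Complex.norm_real, Real.norm_of_nonneg]
      linarith)
    rw [h0, eval_zero] at h1
    exact h1 rfl
  have hLr : ∀ w ∈ (Lop n P).roots, ‖w‖ ≤ r' ∨ R ≤ ‖w‖ := by
    intro w hw
    by_contra hcon
    push Not at hcon
    exact (key ‖w‖ hcon.1 hcon.2).2 w rfl ((mem_roots hL).1 hw)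
  refine ⟨hL, hLr, ?_⟩
  have hρ1 : r' < (r' + R) / 2 := by linarith
  have hρ2 : (r' + R) / 2 < R := by linarith
  rw [← (key _ hρ1 hρ2).1, cnt]
  congr 1
  refine Multiset.filter_congr fun w hw => ?_
  constructor
  · intro h3
    exact lt_of_le_of_lt h3 hρ1
  · intro h3
    rcases hLr w hw with h4 | h4
    · exact h4
    · exact absurd (hρ2.trans_le h4) (not_lt.2 h3.le)

end Run7.h302.PG
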